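import Pool.Agent.P.MP_8e94e3_co.Pot

set_option autoImplicit false
set_option linter.dupNamespace false

namespace Pool.Agent.P.MP_8e94e3_co

open Finset

/-- a record of emergencies: dangerous sets, frozen elements and declared pairs -/
structure Sys (α ρ : Type) : Type where
  c : ℕ
  R : ℕ → ρ
  Fz : ℕ → Finset α
  pr : ℕ → Finset α

variable {α ρ : Type} [DecidableEq α]

namespace Sys

def P (s : Sys α ρ) : Finset α := (range s.c).biUnion s.pr
def Z (s : Sys α ρ) : Finset α := (range s.c).biUnion s.Fz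
def j (s : Sys α ρ) (S : Finset α) : ℕ := ((range s.c).filter (fun i => ¬ Disjoint (s.Fz i) S)).card

def push (s : Sys α ρ) (R : ρ) (Fz pr : Finset α) : Sys α ρ :=
  ⟨s.c + 1, fun i => if i = s.c then R else s.R i, fun i => if i = s.c then Fz else s.Fz i,
    fun i => if i = s.c then pr else s.pr i⟩

lemma mem_P {s : Sys α ρ} {a : α} : a ∈ s.P ↔ ∃ i < s.c, a ∈ s.pr i := by simp [P]
lemma mem_Z {s : Sys α ρ} {a : α} : a ∈ s.Z ↔ ∃ i < s.c, a ∈ s.Fz i := by simp [Z]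

lemma push_P (s : Sys α ρ) (R : ρ) (Fz pr : Finset α) : (s.push R Fz pr).P = pr ∪ s.P := by
  ext a
  simp only [mem_P, mem_union, push]
  constructor
  · rintro ⟨i, hi, h⟩
    by_cases hc : i = s.c
    · left; simpa [hc] using h
    · right; exact ⟨i, by omega, by simpa [hc] using h⟩
  · rintro (h | ⟨i, hi, h⟩)
    · exact ⟨s.c, by omega, by simpa using h⟩
    · exact ⟨i, by omega, by simpa [hi.ne] using h⟩

lemma push_Z (s : Sys α ρ) (R : ρ) (Fz pr : Finset α) : (s.push R Fz pr).Z = Fz ∪ s.Z := by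
  ext a
  simp only [mem_Z, mem_union, push]
  constructor
  · rintro ⟨i, hi, h⟩
    by_cases hc : i = s.c
    · left; simpa [hc] using h
    · right; exact ⟨i, by omega, by simpa [hc] using h⟩
  · rintro (h | ⟨i, hi, h⟩)
    · exact ⟨s.c, by omega, by simpa using h⟩
    · exact ⟨i, by omega, by simpa [hi.ne] using h⟩

lemma push_j (s : Sys α ρ) (R : ρ) (Fz pr S : Finset α) :
    (s.push R Fz pr).j S = s.j S + if Disjoint Fz S then 0 else 1 := by
  unfold j
  have h1 : ((range (s.c + 1)).filter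
      (fun i => ¬ Disjoint (if i = s.c then Fz else s.Fz i) S)).card =
      ((range s.c).filter (fun i => ¬ Disjoint (if i = s.c then Fz else s.Fz i) S)).card +
        if Disjoint Fz S then 0 else 1 := by
    rw [range_add_one, filter_insert]
    by_cases h : Disjoint Fz S
    · simp [h]
    · simp only [if_true, h, not_false_eq_true, if_false]
      rw [card_insert_of_notMem (by simp)]
  have h2 : (range s.c).filter (fun i => ¬ Disjoint (if i = s.c then Fz else s.Fz i) S) =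
      (range s.c).filter (fun i => ¬ Disjoint (s.Fz i) S) := by
    apply filter_congr
    intro i hi
    rw [if_neg (mem_range.1 hi).ne]
  rw [← h2]; exact h1

lemma card_inter_Z_le (s : Sys α ρ) (S : Finset α) {l : ℕ} (h : ∀ i < s.c, (s.Fz i).card ≤ l) :
    (S ∩ s.Z).card ≤ l * s.j S := by
  have h1 : S ∩ s.Z ⊆ ((range s.c).filter (fun i => ¬ Disjoint (s.Fz i) S)).biUnion s.Fz := by
    intro a ha
    obtain ⟨h1, h2⟩ := mem_inter.1 ha
    obtain ⟨i, hi, h3⟩ := mem_Z.1 h2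
    exact mem_biUnion.2 ⟨i, mem_filter.2 ⟨mem_range.2 hi,
      not_disjoint_iff.2 ⟨a, h3, h1⟩⟩, h3⟩
  refine (card_le_card h1).trans ?_
  rw [mul_comm]
  exact card_biUnion_le_card_mul _ _ _ fun i hi => h i (mem_range.1 (mem_filter.1 hi).1)

end Sys

/-- the data and the estimates that drive the second player's strategy -/
structure Setup (α ρ : Type) [DecidableEq α] : Type where
  Ω : Finset α
  RR : Finset ρ
  K : ρ → Finset α
  T : Finset α → Finset α → ℝ
  Ψ : Finset α → Finset α → ℝ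
  Θ : Finset α → Finset α → ℝ
  BW : Finset α → Prop
  l : ℕ
  k : ℕ
  D : ℕ
  cm : ℕ
  β2 : ℝ
  β3 : ℝ
  ν : ℝ
  Φ1 : ℝ
  hK : ∀ R ∈ RR, K R ⊆ Ω
  hKl : ∀ R ∈ RR, l + 1 ≤ (K R).card
  hl : 2 * k ≤ l
  hD : l + l * k ≤ D
  hT : IsPot T
  hΨ : IsPot Ψ
  hΘ : IsPot Θ
  hβ2 : 0 ≤ β2
  hβ3 : 0 ≤ β3
  hν : 0 < ν
  BW_mono : ∀ B B', B ⊆ B' → BW B → BW B'
  T_pos : ∀ o x, 0 < T o x → ∃ S ⊆ Ω, Disjoint S x ∧ BW S
  T_ctl : ∀ o x, Ψ o x ≤ T o x → T o x < ν ∧ (∀ a ∈ Ω, T o x - T o (insert a x) ≤ β2) ∧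
    ∀ a ∈ Ω, ∀ b ∈ Ω, a ≠ b → a ∉ o →
      T o x + (T o x - T o (insert a x)) - (T o x - T o (insert b x)) - β3 ≤
        T (insert a o) (insert b x)
  wit : ∀ (s : Sys α ρ) (O X : Finset α),
    (∀ i < s.c, s.R i ∈ RR ∧ s.Fz i ⊆ K (s.R i) ∧ s.pr i ⊆ s.Fz i ∧
      (s.pr i).card = 2 ∧ Disjoint (K (s.R i)) X ∧ (K (s.R i) \ O).card ≤ D) →
    (∀ i j, i < j → j < s.c → ¬ s.pr i ⊆ K (s.R j)) → Θ O X < 1 →
    s.c < cm ∧ ∀ S ∈ RR, Disjoint (K S) X → (K S \ O).card ≤ l + l * s.j (K S) → s.j (K S) < k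
  T0 : 0 < T ∅ ∅
  start : ∀ y ∈ Ω, Φ1 ≤ T ∅ {y} - Ψ ∅ {y} - ν * Θ {y} ∅
  pos : 0 < Φ1 - Ω.card * β3 - 2 * cm * β2

namespace Setup

variable (G : Setup α ρ)

/-- structural invariant -/
structure Inv (A B : Finset α) (s : Sys α ρ) : Prop where
  hA : A ⊆ G.Ω
  hB : B ⊆ G.Ω
  hAB : Disjoint A B
  hc : s.c ≤ G.cm
  mem : ∀ i < s.c, s.R i ∈ G.RR
  Fz_sub : ∀ i < s.c, s.Fz i ⊆ G.K (s.R i)
  Fz_card : ∀ i < s.c, (s.Fz i).card ≤ G.l
  pr_sub : ∀ i < s.c, s.pr i ⊆ s.Fz i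
  pr_card : ∀ i < s.c, (s.pr i).card = 2
  cov : ∀ i < s.c, G.K (s.R i) ⊆ A ∪ s.Z
  small : ∀ i < s.c, (G.K (s.R i) \ (A \ s.Z)).card ≤ G.D
  disj : ∀ i < s.c, ∀ j < s.c, i ≠ j → Disjoint (s.pr i) (s.pr j)
  ord : ∀ i j, i < j → j < s.c → ¬ s.pr i ⊆ G.K (s.R j)
  stat : ∀ i < s.c, Disjoint (s.pr i) (A ∪ B) ∨ (s.pr i ⊆ A ∪ B ∧ ¬ Disjoint (s.pr i) B)

def Phi (A B : Finset α) (s : Sys α ρ) : ℝ :=
  G.T (B \ s.P) (A ∪ s.P) - G.Ψ (B \ s.P) (A ∪ s.P) - G.ν * G.Θ (A \ s.Z) (B \ s.Z)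

def bound (B : Finset α) (s : Sys α ρ) : ℝ := G.Φ1 - B.card * G.β3 - 2 * s.c * G.β2

/-- a set that is neither hit nor covered by a declared pair -/
def Live (B : Finset α) (s : Sys α ρ) (R : ρ) : Prop :=
  R ∈ G.RR ∧ Disjoint (G.K R) (B \ s.P) ∧ ∀ i < s.c, ¬ s.pr i ⊆ G.K R

def fr (A B : Finset α) (s : Sys α ρ) (R : ρ) : ℕ := (G.K R \ (A ∪ B ∪ s.P)).card

def Mid (A B : Finset α) (s : Sys α ρ) : Prop :=
  G.Inv A B s ∧ G.bound B s ≤ G.Phi A B s ∧
    ∀ R, G.Live B s R → G.l ≤ G.fr A B s R + 2 * s.j (G.K R)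

def Ready (A B : Finset α) (s : Sys α ρ) : Prop :=
  G.Inv A B s ∧ 0 < G.T (B \ s.P) (A ∪ s.P) ∧ (∀ R, G.Live B s R → G.l + 1 ≤ G.fr A B s R) ∧
    ∀ y ∈ G.Ω \ (A ∪ B ∪ s.P), G.bound B s ≤ G.Phi (insert y A) B s

def End (A B : Finset α) : Prop :=
  A ⊆ G.Ω ∧ B ⊆ G.Ω ∧ Disjoint A B ∧ G.BW B ∧ ∃ s : Sys α ρ,
    (∀ i < s.c, s.pr i ⊆ G.Ω ∧ (s.pr i).card = 2 ∧
      (Disjoint (s.pr i) (A ∪ B) ∨ ¬ Disjoint (s.pr i) B)) ∧
    (∀ i < s.c, ∀ j < s.c, i ≠ j → Disjoint (s.pr i) (s.pr j)) ∧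
    ∀ R ∈ G.RR, ¬ Disjoint (G.K R) B ∨ ∃ i < s.c, s.pr i ⊆ G.K R

def Win (B : Finset α) : Prop := G.BW B ∧ ∀ R ∈ G.RR, ¬ Disjoint (G.K R) B

variable {G}

lemma Inv.P_sub_Z {A B : Finset α} {s : Sys α ρ} (h : G.Inv A B s) : s.P ⊆ s.Z := by
  intro a ha
  obtain ⟨i, hi, h1⟩ := Sys.mem_P.1 ha
  exact Sys.mem_Z.2 ⟨i, hi, h.pr_sub i hi h1⟩

lemma Inv.bound_pos {A B : Finset α} {s : Sys α ρ} (h : G.Inv A B s) : 0 < G.bound B s := by
  have h1 : (B.card : ℝ) ≤ G.Ω.card := by exact_mod_cast card_le_card h.hB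
  have h2 : (s.c : ℝ) ≤ G.cm := by exact_mod_cast h.hc
  have h3 := G.pos
  have h4 := mul_le_mul_of_nonneg_right h1 G.hβ3
  have h5 := mul_le_mul_of_nonneg_right h2 G.hβ2
  unfold bound; linarith

lemma phi_pos {A B : Finset α} {s : Sys α ρ} (h : 0 < G.Phi A B s) :
    G.Ψ (B \ s.P) (A ∪ s.P) ≤ G.T (B \ s.P) (A ∪ s.P) ∧ 0 < G.T (B \ s.P) (A ∪ s.P) ∧
      G.Θ (A \ s.Z) (B \ s.Z) < 1 := by
  have h1 := G.hΨ.nonneg (B \ s.P) (A ∪ s.P)
  have h2 := mul_nonneg G.hν.le (G.hΘ.nonneg (A \ s.Z) (B \ s.Z))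
  unfold Phi at h
  have h3 : G.Ψ (B \ s.P) (A ∪ s.P) ≤ G.T (B \ s.P) (A ∪ s.P) := by linarith
  refine ⟨h3, by linarith, ?_⟩
  have h4 := (G.T_ctl _ _ h3).1
  have h5 : G.ν * G.Θ (A \ s.Z) (B \ s.Z) < G.ν * 1 := by linarith
  exact lt_of_mul_lt_mul_left h5 G.hν.le

lemma Mid.push {A B : Finset α} {s : Sys α ρ} (h : G.Mid A B s) {R : ρ} (hR : G.Live B s R)
    (hu : G.fr A B s R ≤ G.l) : ∃ s' : Sys α ρ, s'.c = s.c + 1 ∧ G.Mid A B s' := by
  obtain ⟨hI, hb, hl⟩ := h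
  obtain ⟨hψ, -, hθ⟩ := phi_pos (lt_of_lt_of_le hI.bound_pos hb)
  have hPZ := hI.P_sub_Z
  have hdis : ∀ i < s.c, Disjoint (G.K (s.R i)) (B \ s.Z) := by
    intro i hi
    rw [disjoint_left]
    intro a ha hb
    obtain ⟨h1, h2⟩ := mem_sdiff.1 hb
    rcases mem_union.1 (hI.cov i hi ha) with h3 | h3
    · exact disjoint_left.1 hI.hAB h3 h1
    · exact h2 h3
  obtain ⟨hc, hj⟩ := G.wit s (A \ s.Z) (B \ s.Z)
    (fun i hi => ⟨hI.mem i hi, hI.Fz_sub i hi, hI.pr_sub i hi, hI.pr_card i hi, hdis i hi,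
      hI.small i hi⟩) hI.ord hθ
  set F := G.K R \ (A ∪ B ∪ s.P) with hF
  have hRB : ∀ a ∈ G.K R, a ∈ B → a ∈ s.P := by
    intro a ha hb
    by_contra hp
    exact disjoint_left.1 hR.2.1 ha (mem_sdiff.2 ⟨hb, hp⟩)
  have hsm : (G.K R \ (A \ s.Z)).card ≤ G.l + G.l * s.j (G.K R) := by
    have h1 : G.K R \ (A \ s.Z) ⊆ F ∪ (G.K R ∩ s.Z) := by
      intro a ha
      obtain ⟨h1, h2⟩ := mem_sdiff.1 ha
      by_cases hz : a ∈ s.Z
      · exact mem_union_right _ (mem_inter.2 ⟨h1, hz⟩)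
      · refine mem_union_left _ (mem_sdiff.2 ⟨h1, ?_⟩)
        simp only [mem_union, not_or]
        exact ⟨⟨fun h => h2 (mem_sdiff.2 ⟨h, hz⟩), fun h => hz (hPZ (hRB a h1 h))⟩,
          fun h => hz (hPZ h)⟩
    refine (card_le_card h1).trans ((card_union_le _ _).trans ?_)
    exact add_le_add hu (s.card_inter_Z_le _ hI.Fz_card)
  have hjk : s.j (G.K R) < G.k := by
    refine hj R hR.1 ?_ hsm
    exact hR.2.1.mono_right (sdiff_subset_sdiff subset_rfl hPZ)
  have h2F : 2 ≤ F.card := by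
    have h1 := hl R hR
    have h2 := G.hl
    change G.l ≤ F.card + _ at h1
    omega
  obtain ⟨pr, hpr, hprc⟩ := exists_subset_card_eq h2F
  obtain ⟨e, e', hee, rfl⟩ := card_eq_two.1 hprc
  have hFd : ∀ a ∈ F, a ∈ G.K R ∧ a ∉ A ∧ a ∉ B ∧ a ∉ s.P := by
    intro a ha
    obtain ⟨h1, h2⟩ := mem_sdiff.1 ha
    simp only [mem_union, not_or] at h2
    exact ⟨h1, h2.1.1, h2.1.2, h2.2⟩
  have he := hFd e (hpr (by simp))
  have he' := hFd e' (hpr (by simp))
  set s' := s.push R F {e, e'} with hs'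
  have hP' : s'.P = {e, e'} ∪ s.P := s.push_P _ _ _
  have hZ' : s'.Z = F ∪ s.Z := s.push_Z _ _ _
  have hBP : B \ s'.P = B \ s.P := by
    rw [hP']; ext a; simp only [mem_sdiff, mem_union, mem_insert, mem_singleton]
    constructor
    · tauto
    · rintro ⟨h1, h2⟩
      refine ⟨h1, ?_⟩
      rintro ((rfl | rfl) | h)
      exacts [he.2.2.1 h1, he'.2.2.1 h1, h2 h]
  have hAP : A ∪ s'.P = insert e (insert e' (A ∪ s.P)) := by
    rw [hP']; ext a; simp only [mem_union, mem_insert, mem_singleton]; tauto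
  have hAZ : A \ s'.Z = A \ s.Z := by
    rw [hZ']; ext a; simp only [mem_sdiff, mem_union]
    constructor
    · tauto
    · rintro ⟨h1, h2⟩
      refine ⟨h1, ?_⟩
      rintro (h | h)
      exacts [(hFd a h).2.1 h1, h2 h]
  have hBZ : B \ s'.Z = B \ s.Z := by
    rw [hZ']; ext a; simp only [mem_sdiff, mem_union]
    constructor
    · tauto
    · rintro ⟨h1, h2⟩
      refine ⟨h1, ?_⟩
      rintro (h | h)
      exacts [(hFd a h).2.2.1 h1, h2 h]
  have hc' : s'.c = s.c + 1 := rfl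
  have hnew : s'.R s.c = R ∧ s'.Fz s.c = F ∧ s'.pr s.c = {e, e'} := by simp [hs', Sys.push]
  have hold : ∀ i < s.c, s'.R i = s.R i ∧ s'.Fz i = s.Fz i ∧ s'.pr i = s.pr i := by
    intro i hi; simp [hs', Sys.push, hi.ne]
  have hcase : ∀ i < s'.c, i = s.c ∨ i < s.c := by intro i hi; omega
  have hprP : ∀ i < s.c, Disjoint ({e, e'} : Finset α) (s.pr i) := by
    intro i hi
    rw [disjoint_left]
    intro a ha hb
    exact (hFd a (hpr ha)).2.2.2 (Sys.mem_P.2 ⟨i, hi, hb⟩)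
  refine ⟨s', hc', ⟨hI.hA, hI.hB, hI.hAB, by omega, ?_, ?_, ?_, ?_, ?_, ?_, ?_, ?_, ?_, ?_⟩, ?_, ?_⟩
  · intro i hi
    rcases hcase i hi with rfl | hi
    · rw [hnew.1]; exact hR.1
    · rw [(hold i hi).1]; exact hI.mem i hi
  · intro i hi
    rcases hcase i hi with rfl | hi
    · rw [hnew.1, hnew.2.1]; exact sdiff_subset
    · rw [(hold i hi).1, (hold i hi).2.1]; exact hI.Fz_sub i hi
  · intro i hi
    rcases hcase i hi with rfl | hi
    · rw [hnew.2.1]; exact hu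
    · rw [(hold i hi).2.1]; exact hI.Fz_card i hi
  · intro i hi
    rcases hcase i hi with rfl | hi
    · rw [hnew.2.2, hnew.2.1]; exact hpr
    · rw [(hold i hi).2.2, (hold i hi).2.1]; exact hI.pr_sub i hi
  · intro i hi
    rcases hcase i hi with rfl | hi
    · rw [hnew.2.2]; exact hprc
    · rw [(hold i hi).2.2]; exact hI.pr_card i hi
  · intro i hi
    rw [hZ']
    rcases hcase i hi with rfl | hi
    · rw [hnew.1]
      intro a ha
      by_cases haF : a ∈ F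
      · exact mem_union_right _ (mem_union_left _ haF)
      · have : a ∈ A ∪ B ∪ s.P := by
          by_contra hn; exact haF (mem_sdiff.2 ⟨ha, hn⟩)
        simp only [mem_union] at this ⊢
        rcases this with (h | h) | h
        · exact Or.inl h
        · exact Or.inr (Or.inr (hPZ (hRB a ha h)))
        · exact Or.inr (Or.inr (hPZ h))
    · rw [(hold i hi).1]
      exact (hI.cov i hi).trans (union_subset_union subset_rfl subset_union_right)
  · intro i hi
    rw [hAZ]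
    rcases hcase i hi with rfl | hi
    · rw [hnew.1]
      refine hsm.trans (le_trans ?_ G.hD)
      exact Nat.add_le_add_left (Nat.mul_le_mul_left _ hjk.le) _
    · rw [(hold i hi).1]; exact hI.small i hi
  · intro i hi j hj hij
    rcases hcase i hi with rfl | hi <;> rcases hcase j hj with rfl | hj
    · exact absurd rfl hij
    · rw [hnew.2.2, (hold j hj).2.2]; exact hprP j hj
    · rw [hnew.2.2, (hold i hi).2.2]; exact (hprP i hi).symm
    · rw [(hold i hi).2.2, (hold j hj).2.2]; exact hI.disj i hi j hj hij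
  · intro i j hij hj
    have hi : i < s.c := by omega
    rw [(hold i hi).2.2]
    rcases hcase j hj with rfl | hj
    · rw [hnew.1]; exact hR.2.2 i hi
    · rw [(hold j hj).1]; exact hI.ord i j hij hj
  · intro i hi
    rcases hcase i hi with rfl | hi
    · rw [hnew.2.2]
      left
      rw [disjoint_left]
      intro a ha hb
      have := hFd a (hpr ha)
      rcases mem_union.1 hb with h | h
      exacts [this.2.1 h, this.2.2.1 h]
    · rw [(hold i hi).2.2]; exact hI.stat i hi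
  · unfold bound Phi at hb ⊢
    rw [hBP, hAP, hAZ, hBZ, hc']
    have hct := (G.T_ctl _ _ hψ).2.1
    have h1 := hct e (G.hK R hR.1 he.1)
    have h2 := hct e' (G.hK R hR.1 he'.1)
    have h3 := G.hT.sub (B \ s.P) (A ∪ s.P) e e'
    have h4 := G.hΨ.anti (B \ s.P) (A ∪ s.P) e'
    have h5 := G.hΨ.anti (B \ s.P) (insert e' (A ∪ s.P)) e
    push_cast
    linarith
  · intro R2 hR2
    have hR2' : G.Live B s R2 := by
      refine ⟨hR2.1, hBP ▸ hR2.2.1, fun i hi => ?_⟩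
      have := hR2.2.2 i (by omega)
      rwa [(hold i hi).2.2] at this
    have h1 := hl R2 hR2'
    have h2 : s'.j (G.K R2) = s.j (G.K R2) + if Disjoint F (G.K R2) then 0 else 1 :=
      s.push_j _ _ _ _
    unfold fr at h1 ⊢
    rw [h2, hP']
    by_cases hd : Disjoint F (G.K R2)
    · rw [if_pos hd]
      have : G.K R2 \ (A ∪ B ∪ s.P) ⊆ G.K R2 \ (A ∪ B ∪ ({e, e'} ∪ s.P)) := by
        intro a ha
        obtain ⟨h3, h4⟩ := mem_sdiff.1 ha
        refine mem_sdiff.2 ⟨h3, ?_⟩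
        intro h5
        rcases mem_union.1 h5 with h6 | h6
        · exact h4 (mem_union_left _ h6)
        · rcases mem_union.1 h6 with h7 | h7
          · exact disjoint_left.1 hd (hpr h7) h3
          · exact h4 (mem_union_right _ h7)
      have := card_le_card this
      omega
    · rw [if_neg hd]
      have : G.K R2 \ (A ∪ B ∪ s.P) ⊆ (G.K R2 \ (A ∪ B ∪ ({e, e'} ∪ s.P))) ∪ {e, e'} := by
        intro a ha
        simp only [mem_sdiff, mem_union] at ha ⊢
        tauto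
      have h3 := (card_le_card this).trans (card_union_le _ _)
      rw [hprc] at h3
      omega

lemma Mid.cascade {A B : Finset α} : ∀ (t : ℕ) (s : Sys α ρ), s.c + t = G.cm → G.Mid A B s →
    ∃ s' : Sys α ρ, G.Mid A B s' ∧ ∀ R, G.Live B s' R → G.l + 1 ≤ G.fr A B s' R := by
  intro t
  induction t with
  | zero =>
    intro s hs h
    refine ⟨s, h, fun R hR => ?_⟩
    by_contra hc
    obtain ⟨s', h1, h2⟩ := h.push hR (by omega)
    have := h2.1.hc
    omega
  | succ t ih =>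
    intro s hs h
    by_cases hc : ∀ R, G.Live B s R → G.l + 1 ≤ G.fr A B s R
    · exact ⟨s, h, hc⟩
    · push Not at hc
      obtain ⟨R, hR, hu⟩ := hc
      obtain ⟨s', h1, h2⟩ := h.push hR (by omega)
      exact ih s' (by omega) h2

lemma Inv.end {A B : Finset α} {s : Sys α ρ} (hI : G.Inv A B s)
    (hT : 0 < G.T (B \ s.P) (A ∪ s.P)) (hu : ∀ R, G.Live B s R → G.l + 1 ≤ G.fr A B s R)
    (hf : G.Ω \ (A ∪ B ∪ s.P) = ∅) : G.End A B := by
  rw [sdiff_eq_empty_iff_subset] at hf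
  refine ⟨hI.hA, hI.hB, hI.hAB, ?_, s, ?_, hI.disj, ?_⟩
  · obtain ⟨S, h1, h2, h3⟩ := G.T_pos _ _ hT
    refine G.BW_mono S B ?_ h3
    intro a ha
    have h4 := hf (h1 ha)
    have h5 := disjoint_left.1 h2 ha
    simp only [mem_union] at h4 h5
    tauto
  · intro i hi
    refine ⟨(hI.pr_sub i hi).trans ((hI.Fz_sub i hi).trans (G.hK _ (hI.mem i hi))),
      hI.pr_card i hi, ?_⟩
    rcases hI.stat i hi with h | h
    exacts [Or.inl h, Or.inr h.2]
  · intro R hR
    by_contra hc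
    push Not at hc
    have h1 := hu R ⟨hR, hc.1.mono_right sdiff_subset, hc.2⟩
    unfold fr at h1
    rw [sdiff_eq_empty_iff_subset.2 ((G.hK R hR).trans hf)] at h1
    simp at h1

lemma End.win {A B : Finset α} (h : G.End A B) (hf : A ∪ B = G.Ω) : G.Win B := by
  obtain ⟨-, -, -, hW, s, h1, -, h3⟩ := h
  refine ⟨hW, fun R hR => ?_⟩
  rcases h3 R hR with h | ⟨i, hi, h⟩
  · exact h
  · obtain ⟨h4, h5, h6 | h6⟩ := h1 i hi
    · rw [hf] at h6
      have := disjoint_self.1 (h6.mono_right h4)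
      rw [this] at h5; simp at h5
    · exact fun hd => h6 (hd.mono_left h)

lemma End.bob {A B : Finset α} (h : G.End A B) {x : α} (hx : x ∈ G.Ω) (hxA : x ∉ A) :
    G.End A (insert x B) := by
  obtain ⟨hA, hB, hAB, hW, s, h1, h2, h3⟩ := h
  refine ⟨hA, insert_subset hx hB, disjoint_insert_right.2 ⟨hxA, hAB⟩,
    G.BW_mono _ _ (subset_insert _ _) hW, s, ?_, h2, ?_⟩
  · intro i hi
    obtain ⟨h4, h5, h6⟩ := h1 i hi
    refine ⟨h4, h5, ?_⟩
    by_cases hxi : x ∈ s.pr i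
    · exact Or.inr (not_disjoint_iff.2 ⟨x, hxi, mem_insert_self _ _⟩)
    · rcases h6 with h6 | h6
      · left; rw [union_insert]; exact disjoint_insert_right.2 ⟨hxi, h6⟩
      · exact Or.inr fun hd => h6 (hd.mono_right (subset_insert _ _))
  · intro R hR
    rcases h3 R hR with h | h
    · exact Or.inl fun hd => h (hd.mono_right (subset_insert _ _))
    · exact Or.inr h

lemma exists_mate {S : Finset α} (h : S.card = 2) {y : α} (hy : y ∈ S) :
    ∃ m, m ≠ y ∧ S = {y, m} := by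
  obtain ⟨a, b, hab, rfl⟩ := card_eq_two.1 h
  rcases mem_insert.1 hy with rfl | hy
  · exact ⟨b, hab.symm, rfl⟩
  · rw [mem_singleton.1 hy]; exact ⟨a, hab, pair_comm _ _⟩

/-- after a move to the position `A'`, the second player wins or has a good reply -/
def Reply (G : Setup α ρ) (Good : Finset α → Finset α → Prop) (A' B : Finset α) : Prop :=
  (A' ∪ B = G.Ω → G.Win B) ∧
    (A' ∪ B ≠ G.Ω → ∃ x ∈ G.Ω, x ∉ A' ∧ x ∉ B ∧ Good A' (insert x B))

lemma End.reply {A B : Finset α} (h : G.End A B) : G.Reply G.End A B := by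
  refine ⟨h.win, fun hne => ?_⟩
  obtain ⟨x, hx, hx'⟩ := exists_of_ssubset
    (Finset.ssubset_iff_subset_ne.2 ⟨union_subset h.1 h.2.1, hne⟩)
  simp only [mem_union, not_or] at hx'
  exact ⟨x, hx, hx'.1, hx'.2, h.bob hx hx'.1⟩

lemma End.alice {A B : Finset α} (h : G.End A B) {y : α} (hy : y ∈ G.Ω) (hyB : y ∉ B) :
    G.Reply G.End (insert y A) B := by
  obtain ⟨hA, hB, hAB, hW, s, h1, h2, h3⟩ := h
  by_cases hc : ∃ i < s.c, y ∈ s.pr i ∧ Disjoint (s.pr i) (A ∪ B)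
  · obtain ⟨i, hi, hyi, hd⟩ := hc
    obtain ⟨m, hm, hpr⟩ := exists_mate (h1 i hi).2.1 hyi
    have hmi : m ∈ s.pr i := by rw [hpr]; simp
    have hmΩ : m ∈ G.Ω := (h1 i hi).1 hmi
    have hmAB := disjoint_left.1 hd hmi
    simp only [mem_union, not_or] at hmAB
    have hmA : m ∉ insert y A := by simp [hm, hmAB.1]
    constructor
    · intro hf
      rw [← hf, mem_union] at hmΩ
      exact absurd hmΩ (not_or.2 ⟨hmA, hmAB.2⟩)
    · intro _
      refine ⟨m, hmΩ, hmA, hmAB.2, insert_subset hy hA, insert_subset hmΩ hB, ?_,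
        G.BW_mono _ _ (subset_insert _ _) hW, s, ?_, h2, ?_⟩
      · exact disjoint_insert_right.2 ⟨hmA, disjoint_insert_left.2 ⟨hyB, hAB⟩⟩
      · intro j hj
        obtain ⟨h4, h5, h6⟩ := h1 j hj
        refine ⟨h4, h5, ?_⟩
        by_cases hij : i = j
        · subst hij; exact Or.inr (not_disjoint_iff.2 ⟨m, hmi, mem_insert_self _ _⟩)
        · have h7 := disjoint_left.1 (h2 i hi j hj hij)
          rcases h6 with h6 | h6
          · left
            rw [union_insert, insert_union]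
            exact disjoint_insert_right.2 ⟨h7 hmi, disjoint_insert_right.2 ⟨h7 hyi, h6⟩⟩
          · exact Or.inr fun hd => h6 (hd.mono_right (subset_insert _ _))
      · intro R hR
        rcases h3 R hR with h | h
        · exact Or.inl fun hd => h (hd.mono_right (subset_insert _ _))
        · exact Or.inr h
  · push Not at hc
    refine End.reply ⟨insert_subset hy hA, hB, disjoint_insert_left.2 ⟨hyB, hAB⟩, hW, s, ?_, h2, h3⟩
    intro i hi
    obtain ⟨h4, h5, h6⟩ := h1 i hi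
    refine ⟨h4, h5, ?_⟩
    rcases h6 with h6 | h6
    · left
      rw [insert_union]
      exact disjoint_insert_right.2 ⟨fun h => hc i hi h h6, h6⟩
    · exact Or.inr h6

lemma Mid.bob {A B : Finset α} {s : Sys α ρ} (h : G.Mid A B s)
    (hu : ∀ R, G.Live B s R → G.l + 1 ≤ G.fr A B s R)
    (hf : (G.Ω \ (A ∪ B ∪ s.P)).Nonempty) :
    ∃ x ∈ G.Ω \ (A ∪ B ∪ s.P), G.Ready A (insert x B) s := by
  obtain ⟨hI, hb, -⟩ := h
  obtain ⟨hψ, hT, -⟩ := phi_pos (lt_of_lt_of_le hI.bound_pos hb)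
  set o := B \ s.P
  set w := A ∪ s.P
  set O := A \ s.Z
  set X := B \ s.Z
  set sc : α → ℝ := fun z => (G.T o w - G.T o (insert z w)) - (G.Ψ o w - G.Ψ o (insert z w)) +
    G.ν * (if z ∈ s.Z then 0 else G.Θ O X - G.Θ O (insert z X)) with hsc
  obtain ⟨x, hx, hmax⟩ := exists_max_image _ sc hf
  have hx' := hx
  simp only [mem_sdiff, mem_union, not_or] at hx'
  obtain ⟨hxΩ, ⟨hxA, hxB⟩, hxP⟩ := hx'
  have hxo : x ∉ o := fun h => hxB (mem_sdiff.1 h).1
  have hBP : insert x B \ s.P = insert x o := insert_sdiff_of_notMem _ hxP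
  refine ⟨x, hx, ⟨hI.hA, insert_subset hxΩ hI.hB, disjoint_insert_right.2 ⟨hxA, hI.hAB⟩, hI.hc,
    hI.mem, hI.Fz_sub, hI.Fz_card, hI.pr_sub, hI.pr_card, hI.cov, hI.small, hI.disj, hI.ord, ?_⟩,
    ?_, ?_, ?_⟩
  · intro i hi
    have hxi : x ∉ s.pr i := fun h => hxP (Sys.mem_P.2 ⟨i, hi, h⟩)
    rcases hI.stat i hi with h | h
    · left; rw [union_insert]; exact disjoint_insert_right.2 ⟨hxi, h⟩
    · right
      exact ⟨h.1.trans (union_subset_union subset_rfl (subset_insert _ _)),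
        fun hd => h.2 (hd.mono_right (subset_insert _ _))⟩
  · rw [hBP]; exact hT.trans_le (G.hT.mono _ _ _ hxo)
  · intro R hR
    have h1 := hR.2.1
    rw [hBP, disjoint_insert_right] at h1
    have h2 := hu R ⟨hR.1, h1.2, hR.2.2⟩
    unfold fr at h2 ⊢
    refine h2.trans (card_le_card ?_)
    intro a ha
    simp only [mem_sdiff, mem_union, mem_insert] at ha ⊢
    refine ⟨ha.1, ?_⟩
    rintro ((h | rfl | h) | h)
    · exact ha.2 (Or.inl (Or.inl h))
    · exact h1.1 ha.1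
    · exact ha.2 (Or.inl (Or.inr h))
    · exact ha.2 (Or.inr h)
  · intro y hy
    simp only [mem_sdiff, mem_union, mem_insert, not_or] at hy
    obtain ⟨hyΩ, ⟨hyA, hyx, hyB⟩, hyP⟩ := hy
    have h1 := hmax y (by simp only [mem_sdiff, mem_union, not_or]; exact ⟨hyΩ, ⟨hyA, hyB⟩, hyP⟩)
    have h2 := (G.T_ctl _ _ hψ).2.2 x hxΩ y hyΩ (Ne.symm hyx) hxo
    have h3 := G.hΨ.step o w x y hxo
    have hyO : y ∉ O := fun h => hyA (mem_sdiff.1 h).1
    have h4 : G.Θ (insert y A \ s.Z) (insert x B \ s.Z) ≤ G.Θ O X +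
        (if y ∈ s.Z then 0 else G.Θ O X - G.Θ O (insert y X)) -
        (if x ∈ s.Z then 0 else G.Θ O X - G.Θ O (insert x X)) := by
      by_cases hyZ : y ∈ s.Z <;> by_cases hxZ : x ∈ s.Z
      · rw [insert_sdiff_of_mem _ hyZ, insert_sdiff_of_mem _ hxZ, if_pos hyZ, if_pos hxZ]
        simp [O, X]
      · rw [insert_sdiff_of_mem _ hyZ, insert_sdiff_of_notMem _ hxZ, if_pos hyZ, if_neg hxZ]
        simp [O, X]
      · rw [insert_sdiff_of_notMem _ hyZ, insert_sdiff_of_mem _ hxZ, if_neg hyZ, if_pos hxZ]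
        have := G.hΘ.up O X y hyO
        simpa using this
      · rw [insert_sdiff_of_notMem _ hyZ, insert_sdiff_of_notMem _ hxZ, if_neg hyZ, if_neg hxZ]
        exact G.hΘ.step O X y x hyO
    have h5 := mul_le_mul_of_nonneg_left h4 G.hν.le
    unfold bound Phi at hb ⊢
    rw [hBP, insert_union, card_insert_of_notMem hxB]
    simp only [hsc] at h1
    push_cast
    change G.Φ1 - B.card * G.β3 - 2 * s.c * G.β2 ≤ G.T o w - G.Ψ o w - G.ν * G.Θ O X at hb
    change _ ≤ G.T (insert x o) (insert y w) - G.Ψ (insert x o) (insert y w) - _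
    linarith

def Good (G : Setup α ρ) (A B : Finset α) : Prop := (∃ s, G.Ready A B s) ∨ G.End A B

lemma Reply.of_end {A B : Finset α} (h : G.Reply G.End A B) : G.Reply G.Good A B :=
  ⟨h.1, fun hne => by
    obtain ⟨x, h1, h2, h3, h4⟩ := h.2 hne
    exact ⟨x, h1, h2, h3, Or.inr h4⟩⟩

lemma Ready.alice_free {A B : Finset α} {s : Sys α ρ} (h : G.Ready A B s) {y : α}
    (hy : y ∈ G.Ω) (hyA : y ∉ A) (hyB : y ∉ B) (hyP : y ∉ s.P) :
    G.Reply G.Good (insert y A) B := by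
  obtain ⟨hI, -, hu, hb⟩ := h
  have hM : G.Mid (insert y A) B s := by
    refine ⟨⟨insert_subset hy hI.hA, hI.hB, disjoint_insert_left.2 ⟨hyB, hI.hAB⟩, hI.hc,
      hI.mem, hI.Fz_sub, hI.Fz_card, hI.pr_sub, hI.pr_card, ?_, ?_, hI.disj, hI.ord, ?_⟩, ?_, ?_⟩
    · intro i hi
      exact (hI.cov i hi).trans (union_subset_union (subset_insert _ _) subset_rfl)
    · intro i hi
      refine le_trans (card_le_card ?_) (hI.small i hi)
      exact sdiff_subset_sdiff subset_rfl (sdiff_subset_sdiff (subset_insert _ _) subset_rfl)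
    · intro i hi
      have hyi : y ∉ s.pr i := fun h => hyP (Sys.mem_P.2 ⟨i, hi, h⟩)
      rcases hI.stat i hi with h | h
      · left; rw [insert_union]; exact disjoint_insert_right.2 ⟨hyi, h⟩
      · right
        exact ⟨h.1.trans (union_subset_union (subset_insert _ _) subset_rfl), h.2⟩
    · exact hb y (by simp only [mem_sdiff, mem_union, not_or]; exact ⟨hy, ⟨hyA, hyB⟩, hyP⟩)
    · intro R hR
      have h1 := hu R hR
      unfold fr at h1 ⊢
      have : G.K R \ (A ∪ B ∪ s.P) ⊆ insert y (G.K R \ (insert y A ∪ B ∪ s.P)) := by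
        intro a ha
        simp only [mem_sdiff, mem_union, mem_insert] at ha ⊢
        tauto
      have := (card_le_card this).trans (card_insert_le _ _)
      omega
  obtain ⟨s', hM', hu'⟩ := Mid.cascade (G.cm - s.c) s (by have := hI.hc; omega) hM
  rcases (G.Ω \ (insert y A ∪ B ∪ s'.P)).eq_empty_or_nonempty with hf | hf
  · have hT := (phi_pos (lt_of_lt_of_le hM'.1.bound_pos hM'.2.1)).2.1
    exact (hM'.1.end hT hu' hf).reply.of_end
  · obtain ⟨x, hx, hR⟩ := hM'.bob hu' hf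
    simp only [mem_sdiff, mem_union, not_or] at hx
    refine ⟨fun hfull => ?_, fun _ => ⟨x, hx.1, hx.2.1.1, hx.2.1.2, Or.inl ⟨s', hR⟩⟩⟩
    have := hx.1
    rw [← hfull, mem_union] at this
    exact absurd this (not_or.2 hx.2.1)

lemma Ready.alice_pair {A B : Finset α} {s : Sys α ρ} (h : G.Ready A B s) {y : α}
    (hy : y ∈ G.Ω) (hyA : y ∉ A) (hyB : y ∉ B) (hyP : y ∈ s.P) :
    G.Reply G.Good (insert y A) B := by
  obtain ⟨hI, hT, hu, hb⟩ := h
  obtain ⟨i, hi, hyi⟩ := Sys.mem_P.1 hyP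
  have hd : Disjoint (s.pr i) (A ∪ B) := by
    rcases hI.stat i hi with h | h
    · exact h
    · exact absurd (mem_union.1 (h.1 hyi)) (not_or.2 ⟨hyA, hyB⟩)
  obtain ⟨m, hm, hpr⟩ := exists_mate (hI.pr_card i hi) hyi
  have hmi : m ∈ s.pr i := by rw [hpr]; simp
  have hmΩ : m ∈ G.Ω := G.hK _ (hI.mem i hi) (hI.Fz_sub i hi (hI.pr_sub i hi hmi))
  have hmP : m ∈ s.P := Sys.mem_P.2 ⟨i, hi, hmi⟩
  have hmAB := disjoint_left.1 hd hmi
  simp only [mem_union, not_or] at hmAB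
  have hmA : m ∉ insert y A := by simp [hm, hmAB.1]
  have hyZ := hI.P_sub_Z hyP
  have hmZ := hI.P_sub_Z hmP
  have e1 : insert m B \ s.P = B \ s.P := insert_sdiff_of_mem _ hmP
  have e2 : insert y A ∪ s.P = A ∪ s.P := by
    rw [insert_union, insert_eq_of_mem (mem_union_right _ hyP)]
  have e3 : insert y A \ s.Z = A \ s.Z := insert_sdiff_of_mem _ hyZ
  have e4 : insert m B \ s.Z = B \ s.Z := insert_sdiff_of_mem _ hmZ
  have e5 : insert y A ∪ insert m B ∪ s.P = A ∪ B ∪ s.P := by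
    ext a; simp only [mem_union, mem_insert]
    constructor
    · rintro (((rfl | h) | (rfl | h)) | h)
      exacts [Or.inr hyP, Or.inl (Or.inl h), Or.inr hmP, Or.inl (Or.inr h), Or.inr h]
    · tauto
  constructor
  · intro hf
    rw [← hf, mem_union] at hmΩ
    exact absurd hmΩ (not_or.2 ⟨hmA, hmAB.2⟩)
  · intro _
    refine ⟨m, hmΩ, hmA, hmAB.2, Or.inl ⟨s, ⟨insert_subset hy hI.hA, insert_subset hmΩ hI.hB,
      disjoint_insert_right.2 ⟨hmA, disjoint_insert_left.2 ⟨hyB, hI.hAB⟩⟩, hI.hc,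
      hI.mem, hI.Fz_sub, hI.Fz_card, hI.pr_sub, hI.pr_card, ?_, ?_, hI.disj, hI.ord, ?_⟩,
      ?_, ?_, ?_⟩⟩
    · intro i hi
      exact (hI.cov i hi).trans (union_subset_union (subset_insert _ _) subset_rfl)
    · intro i hi; rw [e3]; exact hI.small i hi
    · intro j hj
      by_cases hij : i = j
      · subst hij
        right
        refine ⟨?_, not_disjoint_iff.2 ⟨m, hmi, mem_insert_self _ _⟩⟩
        rw [hpr]
        intro a ha
        simp only [mem_insert, mem_singleton, mem_union] at ha ⊢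
        tauto
      · have h7 := disjoint_left.1 (hI.disj i hi j hj hij)
        rcases hI.stat j hj with h6 | h6
        · left
          rw [union_insert, insert_union]
          exact disjoint_insert_right.2 ⟨h7 hmi, disjoint_insert_right.2 ⟨h7 hyi, h6⟩⟩
        · right
          exact ⟨h6.1.trans (union_subset_union (subset_insert _ _) (subset_insert _ _)),
            fun hd => h6.2 (hd.mono_right (subset_insert _ _))⟩
    · rw [e1, e2]; exact hT
    · intro R hR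
      have h1 := hu R ⟨hR.1, e1 ▸ hR.2.1, hR.2.2⟩
      unfold fr at h1 ⊢
      rw [e5]; exact h1
    · intro z hz
      rw [e5] at hz
      have h1 := hb z hz
      have e6 : insert z (insert y A) ∪ s.P = insert z A ∪ s.P := by
        rw [insert_union, e2, insert_union]
      have e7 : insert z (insert y A) \ s.Z = insert z A \ s.Z := by
        rw [Finset.insert_comm, insert_sdiff_of_mem _ hyZ]
      unfold bound Phi at h1 ⊢
      rw [e1, e4, e6, e7, card_insert_of_notMem hmAB.2]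
      have := G.hβ3
      push_cast
      linarith

theorem good_empty (G : Setup α ρ) [Inhabited ρ] : G.Good ∅ ∅ := by
  left
  set s : Sys α ρ := ⟨0, fun _ => default, fun _ => ∅, fun _ => ∅⟩ with hs
  have hP : s.P = ∅ := by simp [Sys.P, hs]
  have hZ : s.Z = ∅ := by simp [Sys.Z, hs]
  have hc : s.c = 0 := rfl
  refine ⟨s, ⟨empty_subset _, empty_subset _, by simp, by omega, ?_, ?_, ?_, ?_, ?_, ?_, ?_, ?_,
    ?_, ?_⟩, ?_, ?_, ?_⟩
  any_goals (intro i hi; omega)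
  · rw [hP]; simpa using G.T0
  · intro R hR
    unfold fr
    rw [hP]; simpa using G.hKl R hR.1
  · intro y hy
    unfold bound Phi
    rw [hP, hZ, hc]
    simpa using G.start y (mem_sdiff.1 hy).1

theorem good_full {A B : Finset α} (h : G.Good A B) (hf : A ∪ B = G.Ω) : G.Win B := by
  rcases h with ⟨s, hI, hT, hu, -⟩ | h
  · refine (hI.end hT hu ?_).win hf
    rw [sdiff_eq_empty_iff_subset, hf]; exact subset_union_left
  · exact h.win hf

theorem good_step {A B : Finset α} (h : G.Good A B) {y : α} (hy : y ∈ G.Ω) (hyA : y ∉ A)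
    (hyB : y ∉ B) : G.Reply G.Good (insert y A) B := by
  rcases h with ⟨s, h⟩ | h
  · by_cases hyP : y ∈ s.P
    · exact h.alice_pair hy hyA hyB hyP
    · exact h.alice_free hy hyA hyB hyP
  · exact (h.alice hy hyB).of_end

end Setup

end Pool.Agent.P.MP_8e94e3_co
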