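import Pool.Agent.P.MP_8e94e3_co.Maker
import Pool.Agent.P.MP_8e94e3_co.Play

set_option autoImplicit false

namespace Pool.Agent.P.MP_8e94e3_co

open Finset

noncomputable def Th2 (n r : ℕ) (o x : Finset (Sym2 (Fin n))) : ℝ :=
  ∑ R ∈ QS n r, ∑ R' ∈ (QS n r).filter (fun R' => 4 ≤ (R' ∩ R).card ∧ (R' ∩ R).card + 2 ≤ r),
    wt (KE R ∪ KE R') o x

def near {n : ℕ} (r : ℕ) (R : Finset (Fin n)) : Finset (Finset (Fin n)) :=
  (QS n r).filter (fun R' => (R' ∩ R).card + 1 = r)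

noncomputable def Th3 (n r : ℕ) (o x : Finset (Sym2 (Fin n))) : ℝ :=
  ∑ R ∈ QS n r, ∑ R' ∈ near r R, ∑ R'' ∈ (near r R).filter (fun R'' => R'' \ R ≠ R' \ R),
    wt (KE R ∪ KE R' ∪ KE R'') o x

def att {n : ℕ} (r : ℕ) (R : Finset (Fin n)) : Finset (Finset (Fin n)) :=
  (QS n r).filter (fun B => 2 ≤ (B ∩ R).card ∧ 2 * (B ∩ R).card ≤ r + 3)

noncomputable def Ch (n r m : ℕ) (o x : Finset (Sym2 (Fin n))) : ℝ :=
  ∑ R ∈ QS n r, chain (att r R) (fun a b => (a ∩ b).card ≤ 3) KE (KE R) m ∅ o x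

noncomputable def TH (n r μ M l D cm : ℕ) (o x : Finset (Sym2 (Fin n))) : ℝ :=
  (2 ^ D / cm) * TT n r o x + 2 ^ (2 * D) * Th2 n r o x + 2 ^ (3 * D) * Th3 n r o x +
    (∑ m ∈ Icc μ M, 2 ^ (l * (5 * m + 6) + m * D) * Ch n r m o x) +
    2 ^ (r.choose 2 + M * D) * Ch n r M o x

lemma isPot_Th2 (n r : ℕ) : IsPot (Th2 n r) :=
  isPot_sum _ _ fun _ _ => isPot_sum _ _ fun _ _ => isPot_wt _

lemma isPot_Th3 (n r : ℕ) : IsPot (Th3 n r) :=
  isPot_sum _ _ fun _ _ => isPot_sum _ _ fun _ _ => isPot_sum _ _ fun _ _ => isPot_wt _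

lemma isPot_Ch (n r m : ℕ) : IsPot (Ch n r m) := isPot_sum _ _ fun _ _ => isPot_chain _ _

lemma isPot_TH (n r μ M l D cm : ℕ) : IsPot (TH n r μ M l D cm) :=
  (((((isPot_TT n r).smul (by positivity)).add ((isPot_Th2 n r).smul (by positivity))).add
    ((isPot_Th3 n r).smul (by positivity))).add
    (isPot_sum _ _ fun m _ => (isPot_Ch n r m).smul (by positivity))).add
    ((isPot_Ch n r M).smul (by positivity))

lemma half_pow_le_of_mul_lt {d : ℕ} {y : ℝ} (h : 2 ^ d * y < 1) : y < (1 / 2 : ℝ) ^ d := by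
  rw [one_div, inv_pow, ← one_div, lt_div_iff₀ (by positivity), mul_comm]; exact h

section Witness

variable {n r D : ℕ} {s : Sys (Sym2 (Fin n)) (Finset (Fin n))} {O X : Finset (Sym2 (Fin n))}

/-- the structural facts about a record of emergencies -/
structure Em (r D : ℕ) (s : Sys (Sym2 (Fin n)) (Finset (Fin n))) (O X : Finset (Sym2 (Fin n))) :
    Prop where
  card : ∀ i < s.c, (s.R i).card = r
  Fz : ∀ i < s.c, s.Fz i ⊆ KE (s.R i)
  pr : ∀ i < s.c, s.pr i ⊆ KE (s.R i)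
  prc : ∀ i < s.c, (s.pr i).card = 2
  dis : ∀ i < s.c, Disjoint (KE (s.R i)) X
  small : ∀ i < s.c, (KE (s.R i) \ O).card ≤ D
  ord : ∀ i j, i < j → j < s.c → ¬ s.pr i ⊆ KE (s.R j)

lemma Em.inj (h : Em r D s O X) {i j : ℕ} (hi : i < s.c) (hj : j < s.c) (e : s.R i = s.R j) :
    i = j := by
  rcases lt_trichotomy i j with h1 | h1 | h1
  · exact absurd (e ▸ h.pr i hi) (h.ord i j h1 hj)
  · exact h1
  · exact absurd (e ▸ h.pr j hj) (h.ord j i h1 hi)

lemma Em.count (h : Em r D s O X) : s.c * (1 / 2 : ℝ) ^ D ≤ TT n r O X := by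
  have h1 : ((range s.c).image s.R).card = s.c := by
    rw [card_image_of_injOn fun i hi j hj e => h.inj (mem_range.1 hi) (mem_range.1 hj) e,
      card_range]
  have h2 := card_nsmul_le_sum ((range s.c).image s.R) (fun R => wt (KE R) O X) ((1 / 2 : ℝ) ^ D)
    (fun R hR => by
      obtain ⟨i, hi, rfl⟩ := mem_image.1 hR
      exact wt_ge (h.dis i (mem_range.1 hi)) (h.small i (mem_range.1 hi)))
  rw [h1, nsmul_eq_mul] at h2
  refine h2.trans (sum_le_sum_of_subset_of_nonneg ?_ fun _ _ _ => wt_nonneg _ _ _)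
  intro R hR
  obtain ⟨i, hi, rfl⟩ := mem_image.1 hR
  exact mem_QS.2 (h.card i (mem_range.1 hi))

lemma Em.no_mid (h : Em r D s O X) (h2 : Th2 n r O X < (1 / 2 : ℝ) ^ (2 * D)) {i j : ℕ}
    (hi : i < s.c) (hj : j < s.c) (h4 : 4 ≤ (s.R j ∩ s.R i).card) :
    r ≤ (s.R j ∩ s.R i).card + 1 := by
  by_contra hc
  refine absurd h2 (not_lt.2 ?_)
  have h5 : (1 / 2 : ℝ) ^ (2 * D) ≤ wt (KE (s.R i) ∪ KE (s.R j)) O X := by
    refine wt_ge (disjoint_union_left.2 ⟨h.dis i hi, h.dis j hj⟩) ?_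
    rw [union_sdiff_distrib]
    have := card_union_le (KE (s.R i) \ O) (KE (s.R j) \ O)
    have := h.small i hi
    have := h.small j hj
    omega
  have h6 : s.R j ∈ (QS n r).filter
      (fun R' => 4 ≤ (R' ∩ s.R i).card ∧ (R' ∩ s.R i).card + 2 ≤ r) :=
    mem_filter.2 ⟨mem_QS.2 (h.card j hj), h4, by omega⟩
  have h7 := single_le_sum (f := fun R' => wt (KE (s.R i) ∪ KE R') O X)
    (fun _ _ => wt_nonneg _ _ _) h6
  have h8 := single_le_sum (f := fun R => ∑ R' ∈ (QS n r).filter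
    (fun R' => 4 ≤ (R' ∩ R).card ∧ (R' ∩ R).card + 2 ≤ r), wt (KE R ∪ KE R') O X)
    (fun _ _ => sum_nonneg fun _ _ => wt_nonneg _ _ _) (mem_QS.2 (h.card i hi))
  exact h5.trans (h7.trans h8)

lemma Em.no_star (h : Em r D s O X) (h3 : Th3 n r O X < (1 / 2 : ℝ) ^ (3 * D)) {i j j' : ℕ}
    (hi : i < s.c) (hj : j < s.c) (hj' : j' < s.c) (h4 : (s.R j ∩ s.R i).card + 1 = r)
    (h4' : (s.R j' ∩ s.R i).card + 1 = r) : s.R j' \ s.R i = s.R j \ s.R i := by
  by_contra hc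
  refine absurd h3 (not_lt.2 ?_)
  have h5 : (1 / 2 : ℝ) ^ (3 * D) ≤ wt (KE (s.R i) ∪ KE (s.R j) ∪ KE (s.R j')) O X := by
    refine wt_ge (disjoint_union_left.2
      ⟨disjoint_union_left.2 ⟨h.dis i hi, h.dis j hj⟩, h.dis j' hj'⟩) ?_
    rw [union_sdiff_distrib, union_sdiff_distrib]
    have := card_union_le (KE (s.R i) \ O) (KE (s.R j) \ O)
    have := card_union_le (KE (s.R i) \ O ∪ KE (s.R j) \ O) (KE (s.R j') \ O)
    have := h.small i hi
    have := h.small j hj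
    have := h.small j' hj'
    omega
  refine h5.trans (le_trans ?_ (single_le_sum (f := fun R => ∑ R' ∈ near r R,
    ∑ R'' ∈ (near r R).filter (fun R'' => R'' \ R ≠ R' \ R), wt (KE R ∪ KE R' ∪ KE R'') O X)
    (fun _ _ => sum_nonneg fun _ _ => sum_nonneg fun _ _ => wt_nonneg _ _ _)
    (mem_QS.2 (h.card i hi))))
  refine le_trans ?_ (single_le_sum (f := fun R' => ∑ R'' ∈ (near r (s.R i)).filter
    (fun R'' => R'' \ s.R i ≠ R' \ s.R i), wt (KE (s.R i) ∪ KE R' ∪ KE R'') O X)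
    (fun _ _ => sum_nonneg fun _ _ => wt_nonneg _ _ _)
    (mem_filter.2 ⟨mem_QS.2 (h.card j hj), h4⟩ : s.R j ∈ near r (s.R i)))
  exact single_le_sum (f := fun R'' => wt (KE (s.R i) ∪ KE (s.R j) ∪ KE R'') O X)
    (fun _ _ => wt_nonneg _ _ _)
    (mem_filter.2 ⟨mem_filter.2 ⟨mem_QS.2 (h.card j' hj'), h4'⟩, hc⟩)

lemma card_verts_le {V : Type*} [DecidableEq V] (p : Finset (Sym2 V)) (hp : p.card = 2) :
    ∃ W : Finset V, W.card ≤ 4 ∧ ∀ e ∈ p, ∀ v ∈ e, v ∈ W := by
  obtain ⟨e, e', -, rfl⟩ := card_eq_two.1 hp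
  induction e using Sym2.ind with
  | h a b =>
    induction e' using Sym2.ind with
    | h c d =>
      refine ⟨{a, b, c, d}, card_le_four, ?_⟩
      intro e he v hv
      simp only [mem_insert, mem_singleton] at he ⊢
      rcases he with rfl | rfl <;> simp only [Sym2.mem_iff] at hv <;> tauto

lemma Em.cluster (h : Em r D s O X) (h2 : Th2 n r O X < (1 / 2 : ℝ) ^ (2 * D))
    (h3 : Th3 n r O X < (1 / 2 : ℝ) ^ (3 * D)) {i0 : ℕ} (hi0 : i0 < s.c) :
    ((range s.c).filter (fun i => 4 ≤ (s.R i ∩ s.R i0).card)).card ≤ 5 := by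
  set C := (range s.c).filter (fun i => 4 ≤ (s.R i ∩ s.R i0).card) with hC
  have hCm : ∀ i ∈ C, i < s.c ∧ (s.R i = s.R i0 ∨ (s.R i ∩ s.R i0).card + 1 = r) := by
    intro i hi
    obtain ⟨h4, h5⟩ := mem_filter.1 hi
    have h6 := mem_range.1 h4
    refine ⟨h6, ?_⟩
    have h7 := h.no_mid h2 hi0 h6 h5
    have h8 := card_le_card (inter_subset_left (s₁ := s.R i) (s₂ := s.R i0))
    rw [h.card i h6] at h8
    rcases h8.lt_or_eq with h9 | h9
    · right; omega
    · left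
      have e1 : s.R i ∩ s.R i0 = s.R i :=
        eq_of_subset_of_card_le inter_subset_left (by rw [h.card i h6, h9])
      exact eq_of_subset_of_card_le (inter_eq_left.1 e1) (by rw [h.card i h6, h.card i0 hi0])
  by_cases hall : ∀ i ∈ C, s.R i = s.R i0
  · have : C ⊆ {i0} := fun i hi => mem_singleton.2 (h.inj (hCm i hi).1 hi0 (hall i hi))
    have := card_le_card this
    simp at this; omega
  push Not at hall
  obtain ⟨i1, hi1, hne⟩ := hall
  have h1 := (hCm i1 hi1).2.resolve_left hne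
  set S := s.R i0 ∪ s.R i1 with hS
  have hSc : S.card = r + 1 := by
    have := card_union_add_card_inter (s.R i0) (s.R i1)
    rw [inter_comm, h.card i0 hi0, h.card i1 (hCm i1 hi1).1] at this
    change S.card + _ = _ at this
    omega
  have hsub : ∀ i ∈ C, s.R i ⊆ S := by
    intro i hi
    rcases (hCm i hi).2 with e | e
    · rw [e]; exact subset_union_left
    · have h5 := h.no_star h3 hi0 (hCm i1 hi1).1 (hCm i hi).1 h1 e
      intro v hv
      by_cases hv0 : v ∈ s.R i0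
      · exact mem_union_left _ hv0
      · have : v ∈ s.R i1 \ s.R i0 := h5 ▸ mem_sdiff.2 ⟨hv, hv0⟩
        exact mem_union_right _ (mem_sdiff.1 this).1
  have hCne : C.Nonempty := ⟨i1, hi1⟩
  set m := C.min' hCne
  have hm : m ∈ C := min'_mem _ _
  obtain ⟨W, hW4, hW⟩ := card_verts_le (s.pr m) (h.prc m (hCm m hm).1)
  have h5 : (C.erase m).card ≤ (W.image (fun v => S.erase v)).card := by
    refine card_le_card_of_injOn s.R ?_ ?_
    · intro i hi
      obtain ⟨him, hiC⟩ := mem_erase.1 (mem_coe.1 hi)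
      have hlt : m < i := lt_of_le_of_ne (min'_le _ _ hiC) (Ne.symm him)
      obtain ⟨e, he, he'⟩ := not_subset.1 (h.ord m i hlt (hCm i hiC).1)
      have h6 := mem_KE.1 (h.pr m (hCm m hm).1 he)
      have h7 : ∃ v ∈ e, v ∉ s.R i := by
        by_contra hc
        push Not at hc
        exact he' (mem_KE.2 ⟨hc, h6.2⟩)
      obtain ⟨v, hv, hv'⟩ := h7
      refine mem_coe.2 (mem_image.2 ⟨v, hW e he v hv, ?_⟩)
      symm
      refine eq_of_subset_of_card_le (subset_erase.2 ⟨hsub i hiC, hv'⟩) ?_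
      rw [card_erase_of_mem (hsub m hm (h6.1 v hv)), hSc, h.card i (hCm i hiC).1]
      omega
    · intro i hi j hj e
      exact h.inj (hCm i (mem_of_mem_erase (mem_coe.1 hi))).1
        (hCm j (mem_of_mem_erase (mem_coe.1 hj))).1 e
  have h6 := card_image_le (s := W) (f := fun v => S.erase v)
  have h7 := card_erase_add_one hm
  omega

lemma Em.family (h : Em r D s O X) (hr : 4 ≤ r) (h2 : Th2 n r O X < (1 / 2 : ℝ) ^ (2 * D))
    (h3 : Th3 n r O X < (1 / 2 : ℝ) ^ (3 * D)) (S : Finset (Fin n)) (hS : S.card = r) :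
    ∃ N ⊆ range s.c, s.j (KE S) ≤ 5 * N.card + 5 ∧ (∀ i ∈ N, s.R i ∈ att r S) ∧
      ∀ a ∈ N, ∀ b ∈ N, a ≠ b → (s.R a ∩ s.R b).card ≤ 3 := by
  set J := (range s.c).filter (fun i => ¬ Disjoint (s.Fz i) (KE S)) with hJ
  obtain ⟨N, hN, hmax⟩ := exists_max_image (J.powerset.filter
    (fun N => ∀ a ∈ N, ∀ b ∈ N, a ≠ b → (s.R a ∩ s.R b).card ≤ 3)) Finset.card ⟨∅, by simp⟩
  obtain ⟨hNJ, hNp⟩ := mem_filter.1 hN
  rw [mem_powerset] at hNJ
  have hJc : ∀ i ∈ J, i < s.c := fun i hi => mem_range.1 (mem_filter.1 hi).1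
  have h4 : J ⊆ N.biUnion (fun i0 => (range s.c).filter (fun i => 4 ≤ (s.R i ∩ s.R i0).card)) := by
    intro i hi
    rw [mem_biUnion]
    by_cases hiN : i ∈ N
    · exact ⟨i, hiN, mem_filter.2 ⟨(mem_filter.1 hi).1, by
        rw [inter_self, h.card i (hJc i hi)]; exact hr⟩⟩
    · by_contra hc
      push Not at hc
      have h5 : ∀ a ∈ N, (s.R i ∩ s.R a).card ≤ 3 := by
        intro a ha
        have := hc a ha
        rw [mem_filter, not_and] at this
        have := this (mem_filter.1 hi).1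
        omega
      have h6 := hmax (insert i N) (mem_filter.2 ⟨mem_powerset.2 (insert_subset hi hNJ), by
        intro a ha b hb hab
        rcases mem_insert.1 ha with ha' | ha' <;> rcases mem_insert.1 hb with hb' | hb'
        · exact absurd (ha'.trans hb'.symm) hab
        · rw [ha']; exact h5 b hb'
        · rw [inter_comm, hb']; exact h5 a ha'
        · exact hNp a ha' b hb' hab⟩)
      rw [card_insert_of_notMem hiN] at h6
      omega
  have h5 : J.card ≤ N.card * 5 := (card_le_card h4).trans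
    (card_biUnion_le_card_mul _ _ _ fun i0 hi0 => h.cluster h2 h3 (hJc i0 (hNJ hi0)))
  have h6 : (N.filter (fun i => ¬ 2 * (s.R i ∩ S).card ≤ r + 3)).card ≤ 1 := by
    rw [card_le_one]
    intro a ha b hb
    by_contra hab
    obtain ⟨ha1, ha2⟩ := mem_filter.1 ha
    obtain ⟨hb1, hb2⟩ := mem_filter.1 hb
    have h7 := hNp a ha1 b hb1 hab
    have h8 := card_union_add_card_inter (s.R a ∩ S) (s.R b ∩ S)
    have h9 : (s.R a ∩ S ∪ s.R b ∩ S).card ≤ r :=
      hS ▸ card_le_card (union_subset inter_subset_right inter_subset_right)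
    have h10 : (s.R a ∩ S ∩ (s.R b ∩ S)).card ≤ (s.R a ∩ s.R b).card :=
      card_le_card (inter_subset_inter inter_subset_left inter_subset_left)
    omega
  have h7 := card_filter_add_card_filter_not (s := N) (fun i => 2 * (s.R i ∩ S).card ≤ r + 3)
  refine ⟨N.filter (fun i => 2 * (s.R i ∩ S).card ≤ r + 3),
    (filter_subset _ _).trans (hNJ.trans (filter_subset _ _)), ?_, ?_, ?_⟩
  · change J.card ≤ _
    omega
  · intro i hi
    obtain ⟨hi1, hi2⟩ := mem_filter.1 hi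
    have hiJ := hNJ hi1
    refine mem_filter.2 ⟨mem_QS.2 (h.card i (hJc i hiJ)), ?_, hi2⟩
    obtain ⟨e, he1, he2⟩ := not_disjoint_iff.1 (mem_filter.1 hiJ).2
    refine two_le_card_of_mem_KE (e := e) ?_
    rw [KE_inter]
    exact mem_inter.2 ⟨h.Fz i (hJc i hiJ) he1, he2⟩
  · intro a ha b hb hab
    exact hNp a (mem_filter.1 ha).1 b (mem_filter.1 hb).1 hab

lemma Em.chain_ge (h : Em r D s O X) (S : Finset (Fin n)) (hS : S.card = r)
    (hSX : Disjoint (KE S) X) {d : ℕ} (hd : (KE S \ O).card ≤ d) (N : Finset ℕ)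
    (hN : N ⊆ range s.c) (h1 : ∀ i ∈ N, s.R i ∈ att r S)
    (h2 : ∀ a ∈ N, ∀ b ∈ N, a ≠ b → (s.R a ∩ s.R b).card ≤ 3) :
    (1 / 2 : ℝ) ^ (d + N.card * D) ≤ Ch n r N.card O X := by
  have hc : (N.image s.R).card = N.card :=
    card_image_of_injOn fun i hi j hj e => h.inj (mem_range.1 (hN hi)) (mem_range.1 (hN hj)) e
  have h3 := chain_ge_one (I := att r S) (rel := fun a b => (a ∩ b).card ≤ 3) (S := KE)
    (U := KE S) O X N.card ∅ (N.image s.R) hc
    (fun R hR => by obtain ⟨i, hi, rfl⟩ := mem_image.1 hR; exact h1 i hi)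
    (fun a ha b hb hab => by
      obtain ⟨i, hi, rfl⟩ := mem_image.1 ha
      obtain ⟨j, hj, rfl⟩ := mem_image.1 hb
      exact h2 i hi j hj fun e => hab (e ▸ rfl))
    (by simp)
  refine le_trans ?_ (h3.trans (single_le_sum (f := fun R => chain (att r R)
    (fun a b => (a ∩ b).card ≤ 3) KE (KE R) N.card ∅ O X)
    (fun R _ => (isPot_chain _ _).nonneg O X) (mem_QS.2 hS)))
  rw [empty_union]
  refine wt_ge (disjoint_union_left.2 ⟨hSX, ?_⟩) ?_
  · rw [disjoint_biUnion_left]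
    intro R hR
    obtain ⟨i, hi, rfl⟩ := mem_image.1 hR
    exact h.dis i (mem_range.1 (hN hi))
  · rw [union_sdiff_distrib]
    refine (card_union_le _ _).trans (add_le_add hd ?_)
    have h4 : (N.image s.R).biUnion KE \ O ⊆ (N.image s.R).biUnion (fun R => KE R \ O) := by
      intro e he
      obtain ⟨h5, h6⟩ := mem_sdiff.1 he
      obtain ⟨R, hR, h7⟩ := mem_biUnion.1 h5
      exact mem_biUnion.2 ⟨R, hR, mem_sdiff.2 ⟨h7, h6⟩⟩
    refine (card_le_card h4).trans ?_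
    rw [← hc]
    refine card_biUnion_le_card_mul _ _ _ fun R hR => ?_
    obtain ⟨i, hi, rfl⟩ := mem_image.1 hR
    exact h.small i (mem_range.1 (hN hi))

theorem Em.witness (h : Em r D s O X) (hr : 4 ≤ r) {μ M l cm : ℕ} (hcm : 0 < cm)
    (hθ : TH n r μ M l D cm O X < 1) :
    s.c < cm ∧ ∀ S ∈ QS n r, Disjoint (KE S) X → (KE S \ O).card ≤ l + l * s.j (KE S) →
      s.j (KE S) < 5 * (μ + 1) := by
  have a1 : 0 ≤ (2 ^ D / cm : ℝ) * TT n r O X :=
    mul_nonneg (by positivity) ((isPot_TT n r).nonneg O X)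
  have a2 : 0 ≤ (2 ^ (2 * D) : ℝ) * Th2 n r O X :=
    mul_nonneg (by positivity) ((isPot_Th2 n r).nonneg O X)
  have a3 : 0 ≤ (2 ^ (3 * D) : ℝ) * Th3 n r O X :=
    mul_nonneg (by positivity) ((isPot_Th3 n r).nonneg O X)
  have a4' : ∀ m, 0 ≤ (2 ^ (l * (5 * m + 6) + m * D) : ℝ) * Ch n r m O X := fun m =>
    mul_nonneg (by positivity) ((isPot_Ch n r m).nonneg O X)
  have a4 : 0 ≤ ∑ m ∈ Icc μ M, (2 ^ (l * (5 * m + 6) + m * D) : ℝ) * Ch n r m O X :=
    sum_nonneg fun m _ => a4' m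
  have a5 : 0 ≤ (2 ^ (r.choose 2 + M * D) : ℝ) * Ch n r M O X :=
    mul_nonneg (by positivity) ((isPot_Ch n r M).nonneg O X)
  unfold TH at hθ
  have h2 := half_pow_le_of_mul_lt (d := 2 * D) (y := Th2 n r O X) (by linarith)
  have h3 := half_pow_le_of_mul_lt (d := 3 * D) (y := Th3 n r O X) (by linarith)
  constructor
  · have h4 := mul_le_mul_of_nonneg_left h.count (show (0 : ℝ) ≤ 2 ^ D / cm by positivity)
    have hcm' : (0 : ℝ) < cm := by exact_mod_cast hcm
    have h5 : (2 ^ D / cm : ℝ) * (s.c * (1 / 2 : ℝ) ^ D) = s.c / cm := by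
      rw [one_div, inv_pow]; field_simp
    have h6 : (s.c : ℝ) / cm < 1 := by linarith
    rw [div_lt_one hcm'] at h6
    exact_mod_cast h6
  · intro S hS hSX hd
    by_contra hc
    obtain ⟨N, hN, hj, h4, h5⟩ := h.family hr h2 h3 S (mem_QS.1 hS)
    by_cases hM : N.card ≤ M
    · have h6 := h.chain_ge S (mem_QS.1 hS) hSX (d := l * (5 * N.card + 6))
        (hd.trans (by nlinarith)) N hN h4 h5
      have h7 := single_le_sum (f := fun m => (2 ^ (l * (5 * m + 6) + m * D) : ℝ) * Ch n r m O X)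
        (fun m _ => a4' m) (mem_Icc.2 ⟨(by omega : μ ≤ N.card), hM⟩)
      exact absurd (half_pow_le_of_mul_lt (by linarith)) (not_lt.2 h6)
    · obtain ⟨N', hN', hc'⟩ := exists_subset_card_eq (s := N) (n := M) (by omega)
      have h6 := h.chain_ge S (mem_QS.1 hS) hSX (d := r.choose 2)
        ((card_le_card sdiff_subset).trans (by rw [card_KE, mem_QS.1 hS])) N' (hN'.trans hN)
        (fun i hi => h4 i (hN' hi)) (fun a ha b hb => h5 a (hN' ha) b (hN' hb))
      rw [hc'] at h6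
      exact absurd (half_pow_le_of_mul_lt (by linarith)) (not_lt.2 h6)

end Witness

theorem Reg.Th2_le {n L r : ℕ} {x : ℝ} (h : Reg n L r x) :
    Th2 n r ∅ ∅ ≤ ff n r * ((r + 1) * (ff n r * EE n x 4 + EE n x 2)) := by
  nth_rewrite 1 [← sum_half_choose]
  rw [sum_mul]
  refine sum_le_sum fun Q hQ => ?_
  simp only [wt_union_empty]
  rw [← mul_sum, wt_empty]
  refine mul_le_mul_of_nonneg_left ?_ (by positivity)
  refine h.pair_sum Q (mem_QS.1 hQ) _ (by omega) (by omega) fun Q' hQ' => ?_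
  obtain ⟨h1, h2⟩ := mem_filter.1 hQ'
  exact ⟨mem_QS.1 h1, h2⟩

lemma Reg.near_le {n L r : ℕ} {x : ℝ} (h : Reg n L r x) (hr : 1 ≤ r) (R W : Finset (Fin n))
    (hR : R.card = r) (U : Finset (Sym2 (Fin n))) (hU : U ⊆ KE W) (QQ : Finset (Finset (Fin n)))
    (hQ : ∀ Q ∈ QQ, Q ∈ near r R ∧ Q ∩ W = Q ∩ R) :
    ∑ Q ∈ QQ, (1 / 2 : ℝ) ^ (KE Q \ U).card ≤ EE n x 1 := by
  refine (trace_sum (t := r) W U hU QQ (powersetCard (r - 1) R) fun Q hq => ?_).trans ?_
  · obtain ⟨h1, h2⟩ := mem_filter.1 (hQ Q hq).1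
    refine ⟨mem_QS.1 h1, ?_⟩
    rw [(hQ Q hq).2]
    exact mem_powersetCard.2 ⟨inter_subset_right, by omega⟩
  · rw [sum_congr rfl (g := fun _ => GG n r (r - 1))
      (fun Y hY => by rw [(mem_powersetCard.1 hY).2]), sum_const, card_powersetCard, hR,
      nsmul_eq_mul, Nat.choose_symm hr]
    exact high_le h.pos hr h.hx2

theorem Reg.Th3_le {n L r : ℕ} {x : ℝ} (h : Reg n L r x) (hr : 1 ≤ r) :
    Th3 n r ∅ ∅ ≤ ff n r * (EE n x 1 * EE n x 1) := by
  have hx0 : 0 ≤ x := by linarith [h.hx1]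
  rw [← sum_half_choose, sum_mul]
  refine sum_le_sum fun R hR => ?_
  have h1 : ∀ R' ∈ near r R, ∑ R'' ∈ (near r R).filter (fun R'' => R'' \ R ≠ R' \ R),
      wt (KE R ∪ KE R' ∪ KE R'') ∅ ∅ ≤
      (1 / 2 : ℝ) ^ (KE R).card * EE n x 1 * (1 / 2 : ℝ) ^ (KE R' \ KE R).card := by
    intro R' hR'
    simp only [wt_union_empty]
    rw [← mul_sum, wt_empty, mul_right_comm _ (EE n x 1)]
    refine mul_le_mul_of_nonneg_left ?_ (by positivity)
    refine h.near_le hr R (R ∪ R') (mem_QS.1 hR) _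
      (union_subset (KE_mono subset_union_left) (KE_mono subset_union_right)) _ fun Q hQ => ?_
    obtain ⟨h2, h3⟩ := mem_filter.1 hQ
    refine ⟨h2, ?_⟩
    have c1 : (Q \ R).card = 1 := by
      obtain ⟨h4, h5⟩ := mem_filter.1 h2
      have := card_sdiff_add_card_inter Q R
      rw [mem_QS.1 h4] at this; omega
    have c2 : (R' \ R).card = 1 := by
      obtain ⟨h4, h5⟩ := mem_filter.1 hR'
      have := card_sdiff_add_card_inter R' R
      rw [mem_QS.1 h4] at this; omega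
    obtain ⟨a, ha⟩ := card_eq_one.1 c1
    obtain ⟨b, hb⟩ := card_eq_one.1 c2
    ext v
    simp only [mem_inter, mem_union]
    refine ⟨fun hv => ⟨hv.1, ?_⟩, fun hv => ⟨hv.1, Or.inl hv.2⟩⟩
    by_contra hvR
    have h4 : v ∈ Q \ R := mem_sdiff.2 ⟨hv.1, hvR⟩
    have h5 : v ∈ R' \ R := mem_sdiff.2 ⟨hv.2.resolve_left hvR, hvR⟩
    rw [ha, mem_singleton] at h4
    rw [hb, mem_singleton] at h5
    exact h3 (by rw [ha, hb, ← h4, ← h5])
  refine (sum_le_sum h1).trans ?_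
  rw [← mul_sum, ← mul_assoc]
  refine mul_le_mul_of_nonneg_left ?_ (mul_nonneg (by positivity) (EE_nonneg _ hx0 _))
  exact h.near_le hr R R (mem_QS.1 hR) _ subset_rfl _ fun Q hQ => ⟨hQ, rfl⟩

lemma card_big_trace_le {n t a : ℕ} (W : Finset (Fin n)) (QQ : Finset (Finset (Fin n)))
    (h : ∀ Q ∈ QQ, Q.card = t ∧ a ≤ (Q ∩ W).card) :
    QQ.card ≤ W.card.choose a * n.choose (t - a) := by
  have h1 : QQ ⊆ (powersetCard a W).biUnion (fun Y => QQ.filter (fun Q => Y ⊆ Q)) := by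
    intro Q hQ
    obtain ⟨Y, hY, hYc⟩ := exists_subset_card_eq (h Q hQ).2
    exact mem_biUnion.2 ⟨Y, mem_powersetCard.2 ⟨hY.trans inter_subset_right, hYc⟩,
      mem_filter.2 ⟨hQ, hY.trans inter_subset_left⟩⟩
  refine (card_le_card h1).trans ?_
  rw [← card_powersetCard]
  refine card_biUnion_le_card_mul _ _ _ fun Y hY => ?_
  rw [← (mem_powersetCard.1 hY).2]
  exact card_supsets_le Y _ fun Q hQ => ⟨(h Q (mem_filter.1 hQ).1).1, (mem_filter.1 hQ).2⟩

theorem Reg.Ch_le {n L r M m : ℕ} {x : ℝ} (h : Reg n L r x) (hr : L + 1 ≤ r) (hm : m ≤ M)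
    (hx : 2 * r * (r * (M + 1) : ℝ) ≤ x) :
    Ch n r m ∅ ∅ ≤ ff n r * ((L + 1) * (ff n r * EE n x 2) +
      ff n r * EE n x (L + 1) * 2 ^ (2 * L + 3 + 3 * M)) ^ m := by
  classical
  have hx0 : 0 ≤ x := by linarith [h.hx1]
  have hA := mul_nonneg (ff_nonneg n r) (EE_nonneg n hx0 2)
  have hB := mul_nonneg (ff_nonneg n r) (EE_nonneg n hx0 (L + 1))
  nth_rewrite 1 [← sum_half_choose]
  rw [sum_mul]
  refine sum_le_sum fun R hR => ?_
  have h1 := chain_le (I := att r R) (rel := fun a b => (a ∩ b).card ≤ 3) (S := KE)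
    (U := KE R) (m0 := M) (σ := (L + 1) * (ff n r * EE n x 2) +
      ff n r * EE n x (L + 1) * 2 ^ (2 * L + 3 + 3 * M))
    (by positivity) ?_ m ∅ (empty_subset _) (by simpa using hm)
  · rw [biUnion_empty, union_empty, wt_empty, mul_comm] at h1
    exact h1
  intro s hs hsM
  set W := R ∪ s.biUnion id with hW
  have hsq : ∀ b ∈ s, b.card = r := fun b hb => mem_QS.1 (mem_filter.1 (hs hb)).1
  have hWc : W.card ≤ r * (M + 1) := by
    refine (card_union_le _ _).trans ?_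
    have := (card_biUnion_le_card_mul s id r fun b hb => (hsq b hb).le).trans
      (Nat.mul_le_mul_right _ hsM.le)
    rw [mem_QS.1 hR]
    nlinarith
  have hWc' : (W.card : ℝ) ≤ r * (M + 1) := by exact_mod_cast hWc
  have hWx : 2 * r * (W.card : ℝ) ≤ x := le_trans (by gcongr) hx
  have hU : KE R ∪ s.biUnion KE ⊆ KE W :=
    union_subset (KE_mono subset_union_left)
      ((biUnion_KE_subset s).trans (KE_mono subset_union_right))
  set U := KE R ∪ s.biUnion KE with hUdef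
  set J := (att r R).filter (fun b => ∀ b' ∈ s, (b ∩ b').card ≤ 3) with hJ
  have h2 : ∑ b ∈ J, (1 / 2 : ℝ) ^ (KE b \ U).card ≤ (L + 1) * (ff n r * EE n x 2) +
      ff n r * EE n x (L + 1) * 2 ^ (2 * L + 3 + 3 * M) := by
    rw [← sum_filter_add_sum_filter_not J (fun b => (b ∩ W).card ≤ L)]
    refine add_le_add ?_ ?_
    · refine h.low_sum W U hU hWx _ (by omega) fun Q hQ => ?_
      obtain ⟨h3, h4⟩ := mem_filter.1 hQ
      obtain ⟨h5, h6⟩ := mem_filter.1 (mem_filter.1 h3).1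
      exact ⟨mem_QS.1 h5,
        h6.1.trans (card_le_card (inter_subset_inter subset_rfl subset_union_left)), h4⟩
    · have h3 : ∀ b ∈ J.filter (fun b => ¬ (b ∩ W).card ≤ L), (1 / 2 : ℝ) ^ (KE b \ U).card ≤
          2 ^ ((L + 1).choose 2 + (2 * L + 3 + 3 * M)) / 2 ^ (r.choose 2) := by
        intro b hb
        obtain ⟨h4, h5⟩ := mem_filter.1 (mem_filter.1 hb).1
        obtain ⟨h6, h7⟩ := mem_filter.1 h4
        apply half_pow_le
        have h8 := card_sdiff_add_card_inter (KE b) U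
        rw [card_KE, mem_QS.1 h6] at h8
        have h9 : (KE b ∩ U).card ≤ (L + 3).choose 2 + s.card * 3 := by
          rw [hUdef, inter_union_distrib_left]
          refine (card_union_le _ _).trans (add_le_add ?_ ?_)
          · rw [← KE_inter, card_KE]
            exact Nat.choose_le_choose _ (by have := h.htL; omega)
          · rw [inter_biUnion]
            refine card_biUnion_le_card_mul _ _ _ fun b' hb' => ?_
            rw [← KE_inter, card_KE]
            exact Nat.choose_le_choose 2 (h5 b' hb')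
        have h10 := choose_two_add (L + 1) 2
        change 2 * (L + 3).choose 2 + 2 = _ at h10
        omega
      refine (sum_le_card_nsmul _ _ _ h3).trans ?_
      rw [nsmul_eq_mul]
      have h4 := card_big_trace_le (t := r) (a := L + 1) W (J.filter (fun b => ¬ (b ∩ W).card ≤ L))
        fun Q hQ => ⟨mem_QS.1 (mem_filter.1 (mem_filter.1 (mem_filter.1 hQ).1).1).1,
          by have := (mem_filter.1 hQ).2; omega⟩
      have h5 : ((J.filter (fun b => ¬ (b ∩ W).card ≤ L)).card : ℝ) ≤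
          W.card.choose (L + 1) * n.choose (r - (L + 1)) := by exact_mod_cast h4
      have h6 := low_le (w := W.card) h.pos h.h2t hr hWx
      calc _ ≤ (W.card.choose (L + 1) * n.choose (r - (L + 1)) : ℝ) *
            (2 ^ ((L + 1).choose 2 + (2 * L + 3 + 3 * M)) / 2 ^ (r.choose 2)) := by gcongr
        _ = (W.card.choose (L + 1) * GG n r (L + 1)) * 2 ^ (2 * L + 3 + 3 * M) := by
            unfold GG; rw [pow_add (2 : ℝ) ((L + 1).choose 2)]; ring
        _ ≤ _ := by gcongr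
  refine le_trans (le_of_eq (sum_congr ?_ fun _ _ => rfl)) h2
  ext b; simp only [mem_filter, hJ]

end Pool.Agent.P.MP_8e94e3_co
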