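import Mathlib

set_option autoImplicit false

namespace Pool.Agent.P.MP_8e94e3_co

open Finset

variable {α : Type*} [DecidableEq α]

/-- weight of a set `S` for a builder owning `o` against an opponent owning `x` -/
noncomputable def wt (S o x : Finset α) : ℝ :=
  if Disjoint S x then (1 / 2 : ℝ) ^ (S \ o).card else 0

lemma wt_nonneg (S o x : Finset α) : 0 ≤ wt S o x := by
  unfold wt; split_ifs <;> positivity

lemma wt_le_one (S o x : Finset α) : wt S o x ≤ 1 := by
  unfold wt; split_ifs
  · exact pow_le_one₀ (by norm_num) (by norm_num)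
  · norm_num

lemma wt_insert_opp (S o x : Finset α) (z : α) :
    wt S o (insert z x) = if z ∈ S then 0 else wt S o x := by
  unfold wt
  by_cases hz : z ∈ S
  · simp [hz]
  · simp [hz]

lemma wt_insert_own (S o x : Finset α) (z : α) (hz : z ∉ o) :
    wt S (insert z o) x = if z ∈ S then 2 * wt S o x else wt S o x := by
  unfold wt
  by_cases hd : Disjoint S x
  · simp only [hd, if_true]
    by_cases hzS : z ∈ S
    · simp only [hzS, if_true]
      have h1 : S \ insert z o = (S \ o).erase z := by
        ext a; simp only [mem_sdiff, mem_insert, mem_erase]; tauto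
      have h2 : z ∈ S \ o := mem_sdiff.2 ⟨hzS, hz⟩
      rw [h1, ← card_erase_add_one h2, pow_succ]; ring
    · simp only [hzS, if_false]
      have h1 : S \ insert z o = S \ o := by
        ext a; simp only [mem_sdiff, mem_insert]
        constructor
        · tauto
        · rintro ⟨h1, h2⟩; refine ⟨h1, ?_⟩; rintro (rfl | h); exacts [hzS h1, h2 h]
      rw [h1]
  · simp [hd]

lemma wt_empty (S : Finset α) : wt S ∅ ∅ = (1 / 2 : ℝ) ^ S.card := by
  simp [wt]

lemma wt_union_empty (U S : Finset α) :
    wt (U ∪ S) ∅ ∅ = wt U ∅ ∅ * (1 / 2 : ℝ) ^ (S \ U).card := by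
  rw [wt_empty, wt_empty, ← pow_add, add_comm, card_sdiff_add_card, union_comm]

lemma wt_ge {S o x : Finset α} {d : ℕ} (hd : Disjoint S x) (hc : (S \ o).card ≤ d) :
    (1 / 2 : ℝ) ^ d ≤ wt S o x := by
  unfold wt; rw [if_pos hd]
  exact pow_le_pow_of_le_one (by norm_num) (by norm_num) hc

lemma wt_mul_le (S S' o x : Finset α) : wt S o x * wt S' o x ≤ wt (S ∪ S') o x := by
  by_cases h1 : Disjoint S x
  · by_cases h2 : Disjoint S' x
    · have h3 : Disjoint (S ∪ S') x := disjoint_union_left.2 ⟨h1, h2⟩
      unfold wt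
      rw [if_pos h1, if_pos h2, if_pos h3, ← pow_add]
      apply pow_le_pow_of_le_one (by norm_num) (by norm_num)
      rw [union_sdiff_distrib]; exact card_union_le _ _
    · have : wt S' o x = 0 := by simp [wt, h2]
      rw [this, mul_zero]; exact wt_nonneg _ _ _
  · have : wt S o x = 0 := by simp [wt, h1]
    rw [this, zero_mul]; exact wt_nonneg _ _ _

lemma disjoint_of_wt_pos {S o x : Finset α} (h : 0 < wt S o x) : Disjoint S x := by
  by_contra hd; simp [wt, hd] at h

/-- the properties of a nonnegative combination of weights that the strategy uses -/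
structure IsPot (F : Finset α → Finset α → ℝ) : Prop where
  nonneg : ∀ o x, 0 ≤ F o x
  anti : ∀ o x z, F o (insert z x) ≤ F o x
  mono : ∀ o x z, z ∉ o → F o x ≤ F (insert z o) x
  up : ∀ o x z, z ∉ o → F (insert z o) x ≤ F o x + (F o x - F o (insert z x))
  step : ∀ o x y z, y ∉ o →
    F (insert y o) (insert z x) ≤ F o x + (F o x - F o (insert y x)) - (F o x - F o (insert z x))
  sub : ∀ o x y z, F o x - (F o x - F o (insert y x)) - (F o x - F o (insert z x)) ≤
    F o (insert y (insert z x))

lemma isPot_wt (S : Finset α) : IsPot (wt S) where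
  nonneg := wt_nonneg S
  anti := fun o x z => by
    rw [wt_insert_opp]; split_ifs
    · exact wt_nonneg _ _ _
    · exact le_rfl
  mono := fun o x z hz => by
    rw [wt_insert_own _ _ _ _ hz]; have := wt_nonneg S o x; split_ifs <;> linarith
  up := fun o x z hz => by
    rw [wt_insert_own _ _ _ _ hz, wt_insert_opp]
    have := wt_nonneg S o x; split_ifs <;> linarith
  step := fun o x y z hy => by
    rw [wt_insert_own _ _ _ _ hy]; simp only [wt_insert_opp]
    have := wt_nonneg S o x; split_ifs <;> linarith
  sub := fun o x y z => by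
    simp only [wt_insert_opp]
    have := wt_nonneg S o x; split_ifs <;> linarith

lemma IsPot.add {F G : Finset α → Finset α → ℝ} (hF : IsPot F) (hG : IsPot G) :
    IsPot (fun o x => F o x + G o x) where
  nonneg := fun o x => add_nonneg (hF.nonneg o x) (hG.nonneg o x)
  anti := fun o x z => add_le_add (hF.anti o x z) (hG.anti o x z)
  mono := fun o x z hz => add_le_add (hF.mono o x z hz) (hG.mono o x z hz)
  up := fun o x z hz => by have := hF.up o x z hz; have := hG.up o x z hz; linarith
  step := fun o x y z hy => by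
    have := hF.step o x y z hy; have := hG.step o x y z hy; linarith
  sub := fun o x y z => by have := hF.sub o x y z; have := hG.sub o x y z; linarith

lemma IsPot.smul {F : Finset α → Finset α → ℝ} (hF : IsPot F) {c : ℝ} (hc : 0 ≤ c) :
    IsPot (fun o x => c * F o x) where
  nonneg := fun o x => mul_nonneg hc (hF.nonneg o x)
  anti := fun o x z => mul_le_mul_of_nonneg_left (hF.anti o x z) hc
  mono := fun o x z hz => mul_le_mul_of_nonneg_left (hF.mono o x z hz) hc
  up := fun o x z hz => by have := mul_le_mul_of_nonneg_left (hF.up o x z hz) hc; linarith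
  step := fun o x y z hy => by
    have := mul_le_mul_of_nonneg_left (hF.step o x y z hy) hc; linarith
  sub := fun o x y z => by have := mul_le_mul_of_nonneg_left (hF.sub o x y z) hc; linarith

lemma isPot_zero : IsPot (fun (_ _ : Finset α) => (0 : ℝ)) where
  nonneg := fun _ _ => le_rfl
  anti := fun _ _ _ => le_rfl
  mono := fun _ _ _ _ => le_rfl
  up := fun _ _ _ _ => by norm_num
  step := fun _ _ _ _ _ => by norm_num
  sub := fun _ _ _ _ => by norm_num

lemma isPot_sum {ι : Type*} (I : Finset ι) (F : ι → Finset α → Finset α → ℝ)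
    (h : ∀ i ∈ I, IsPot (F i)) : IsPot (fun o x => ∑ i ∈ I, F i o x) := by
  classical
  induction I using Finset.induction_on with
  | empty => simpa using isPot_zero
  | insert a s ha ih =>
    simp only [sum_insert ha]
    exact (h a (mem_insert_self _ _)).add (ih fun i hi => h i (mem_insert_of_mem hi))

section Chain

variable {β : Type*} [DecidableEq β]

open Classical in
/-- total weight of the ordered extensions of the family `s` by `m` further members of `I`,
each related to all earlier ones -/
noncomputable def chain (I : Finset β) (rel : β → β → Prop) (S : β → Finset α) (U : Finset α) :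
    ℕ → Finset β → Finset α → Finset α → ℝ
  | 0, s => wt (U ∪ s.biUnion S)
  | m + 1, s => fun o x =>
      ∑ b ∈ I.filter (fun b => ∀ b' ∈ s, rel b b'), chain I rel S U m (insert b s) o x

variable {I : Finset β} {rel : β → β → Prop} {S : β → Finset α} {U : Finset α}

lemma isPot_chain (m : ℕ) : ∀ s : Finset β, IsPot (chain I rel S U m s) := by
  induction m with
  | zero => intro s; exact isPot_wt _
  | succ m ih => intro s; exact isPot_sum _ _ fun b _ => ih _

open Classical in
lemma chain_le {m0 : ℕ} {σ : ℝ} (hσ : 0 ≤ σ)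
    (h : ∀ s ⊆ I, s.card < m0 → ∑ b ∈ I.filter (fun b => ∀ b' ∈ s, rel b b'),
      (1 / 2 : ℝ) ^ (S b \ (U ∪ s.biUnion S)).card ≤ σ) (m : ℕ) :
    ∀ s ⊆ I, s.card + m ≤ m0 → chain I rel S U m s ∅ ∅ ≤ σ ^ m * wt (U ∪ s.biUnion S) ∅ ∅ := by
  induction m with
  | zero => intro s _ _; simp [chain]
  | succ m ih =>
    intro s hs hc
    have h1 : ∀ b ∈ I.filter (fun b => ∀ b' ∈ s, rel b b'),
        chain I rel S U m (insert b s) ∅ ∅ ≤ σ ^ m * wt (U ∪ s.biUnion S) ∅ ∅ *
          (1 / 2 : ℝ) ^ (S b \ (U ∪ s.biUnion S)).card := by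
      intro b hb
      have hbI := (mem_filter.1 hb).1
      have h2 := ih (insert b s) (insert_subset hbI hs)
        (by have := card_insert_le b s; omega)
      have h3 : U ∪ (insert b s).biUnion S = (U ∪ s.biUnion S) ∪ S b := by
        rw [biUnion_insert]; ext a; simp only [mem_union]; tauto
      rw [h3, wt_union_empty] at h2
      rw [mul_assoc]; exact h2
    calc chain I rel S U (m + 1) s ∅ ∅
        = ∑ b ∈ I.filter (fun b => ∀ b' ∈ s, rel b b'), chain I rel S U m (insert b s) ∅ ∅ := rfl
      _ ≤ _ := sum_le_sum h1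
      _ = σ ^ m * wt (U ∪ s.biUnion S) ∅ ∅ * ∑ b ∈ I.filter (fun b => ∀ b' ∈ s, rel b b'),
          (1 / 2 : ℝ) ^ (S b \ (U ∪ s.biUnion S)).card := by rw [mul_sum]
      _ ≤ σ ^ m * wt (U ∪ s.biUnion S) ∅ ∅ * σ :=
          mul_le_mul_of_nonneg_left (h s hs (by omega))
            (mul_nonneg (pow_nonneg hσ _) (wt_nonneg _ _ _))
      _ = _ := by ring

lemma chain_ge_one (o x : Finset α) (m : ℕ) :
    ∀ s f : Finset β, f.card = m → f ⊆ I → (∀ a ∈ f, ∀ b ∈ f, a ≠ b → rel a b) →
      (∀ a ∈ f, ∀ b ∈ s, rel a b) → wt (U ∪ (s ∪ f).biUnion S) o x ≤ chain I rel S U m s o x := by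
  classical
  induction m with
  | zero => intro s f hf _ _ _; rw [card_eq_zero.1 hf, union_empty]; exact le_rfl
  | succ m ih =>
    intro s f hf hI hp hs
    obtain ⟨b, hb⟩ : f.Nonempty := card_pos.1 (by omega)
    have h1 := ih (insert b s) (f.erase b) (by rw [card_erase_of_mem hb]; omega)
      ((erase_subset _ _).trans hI)
      (fun a ha c hc hac => hp a (mem_of_mem_erase ha) c (mem_of_mem_erase hc) hac)
      (fun a ha c hc => by
        rcases mem_insert.1 hc with rfl | hc
        · exact hp a (mem_of_mem_erase ha) c hb (ne_of_mem_erase ha)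
        · exact hs a (mem_of_mem_erase ha) c hc)
    have h2 : insert b s ∪ f.erase b = s ∪ f := by
      ext a; simp only [mem_union, mem_insert, mem_erase]
      constructor
      · rintro ((rfl | h) | h)
        · exact Or.inr hb
        · exact Or.inl h
        · exact Or.inr h.2
      · rintro (h | h)
        · exact Or.inl (Or.inr h)
        · by_cases hab : a = b
          · exact Or.inl (Or.inl hab)
          · exact Or.inr ⟨hab, h⟩
    rw [h2] at h1
    refine h1.trans ?_
    have hmem : b ∈ I.filter (fun b => ∀ b' ∈ s, rel b b') := by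
      simp only [mem_filter]; exact ⟨hI hb, hs b hb⟩
    have h3 := single_le_sum (f := fun b => chain I rel S U m (insert b s) o x)
      (fun b _ => (isPot_chain m _).nonneg o x) hmem
    simp only [chain]
    convert h3

open Classical in
lemma chain_ge_pow (o x : Finset α) {I' : Finset β} (hI : I' ⊆ I) {p : ℕ} {σ : ℝ} (hσ : 0 ≤ σ)
    (h : ∀ s ⊆ I', s.card < p →
      σ ≤ ∑ b ∈ I'.filter (fun b => ∀ b' ∈ s, rel b b'), wt (S b) o x) (m : ℕ) :
    ∀ s ⊆ I', s.card + m ≤ p → σ ^ m * wt (U ∪ s.biUnion S) o x ≤ chain I rel S U m s o x := by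
  induction m with
  | zero => intro s _ _; simp [chain]
  | succ m ih =>
    intro s hs hc
    have h1 : ∀ b ∈ I'.filter (fun b => ∀ b' ∈ s, rel b b'),
        σ ^ m * wt (U ∪ s.biUnion S) o x * wt (S b) o x ≤ chain I rel S U m (insert b s) o x := by
      intro b hb
      have hbI := (mem_filter.1 hb).1
      have h2 := ih (insert b s) (insert_subset hbI hs)
        (by have := card_insert_le b s; omega)
      have h3 : U ∪ (insert b s).biUnion S = (U ∪ s.biUnion S) ∪ S b := by
        rw [biUnion_insert]; ext a; simp only [mem_union]; tauto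
      rw [h3] at h2
      refine le_trans ?_ h2
      rw [mul_assoc]
      exact mul_le_mul_of_nonneg_left (wt_mul_le _ _ _ _) (pow_nonneg hσ _)
    calc σ ^ (m + 1) * wt (U ∪ s.biUnion S) o x
        = σ ^ m * wt (U ∪ s.biUnion S) o x * σ := by ring
      _ ≤ σ ^ m * wt (U ∪ s.biUnion S) o x *
          ∑ b ∈ I'.filter (fun b => ∀ b' ∈ s, rel b b'), wt (S b) o x :=
          mul_le_mul_of_nonneg_left (h s hs (by omega))
            (mul_nonneg (pow_nonneg hσ _) (wt_nonneg _ _ _))
      _ = ∑ b ∈ I'.filter (fun b => ∀ b' ∈ s, rel b b'),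
          σ ^ m * wt (U ∪ s.biUnion S) o x * wt (S b) o x := by rw [mul_sum]
      _ ≤ ∑ b ∈ I'.filter (fun b => ∀ b' ∈ s, rel b b'), chain I rel S U m (insert b s) o x :=
          sum_le_sum h1
      _ ≤ ∑ b ∈ I.filter (fun b => ∀ b' ∈ s, rel b b'), chain I rel S U m (insert b s) o x :=
          sum_le_sum_of_subset_of_nonneg (filter_subset_filter _ hI)
            (fun b _ _ => (isPot_chain m _).nonneg o x)
      _ = chain I rel S U (m + 1) s o x := rfl

end Chain

end Pool.Agent.P.MP_8e94e3_co
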