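import Pool.Agent.P.MP_8e94e3_co.Defs
import Pool.Agent.P.MP_8e94e3_co.Pot

set_option autoImplicit false

namespace Pool.Agent.P.MP_8e94e3_co

open Finset

/-- weight of the `t`-sets with a given trace of size `a` -/
noncomputable def GG (n t a : ℕ) : ℝ := (n.choose (t - a) : ℝ) * 2 ^ (a.choose 2) / 2 ^ (t.choose 2)

noncomputable def EE (n : ℕ) (x : ℝ) (a : ℕ) : ℝ := (x / n) ^ a * 2 ^ ((a + 1).choose 2)

lemma GG_nonneg (n t a : ℕ) : 0 ≤ GG n t a := by unfold GG; positivity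

lemma ff_nonneg (n t : ℕ) : 0 ≤ ff n t := by unfold ff; positivity

lemma EE_nonneg (n : ℕ) {x : ℝ} (hx : 0 ≤ x) (a : ℕ) : 0 ≤ EE n x a := by unfold EE; positivity

lemma half_pow_le {s c t : ℕ} (h : t ≤ s + c) : (1 / 2 : ℝ) ^ s ≤ 2 ^ c / 2 ^ t := by
  rw [one_div, inv_pow, le_div_iff₀ (by positivity), inv_mul_le_iff₀ (by positivity), ← pow_add]
  exact pow_le_pow_right₀ (by norm_num) h

lemma card_supsets_le {n t : ℕ} (Y : Finset (Fin n)) (QQ : Finset (Finset (Fin n)))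
    (h : ∀ Q ∈ QQ, Q.card = t ∧ Y ⊆ Q) : QQ.card ≤ n.choose (t - Y.card) := by
  have h1 : n.choose (t - Y.card) = (powersetCard (t - Y.card) (univ : Finset (Fin n))).card := by
    simp
  rw [h1]
  refine card_le_card_of_injOn (fun Q => Q \ Y) ?_ ?_
  · intro Q hQ
    have := h Q hQ
    simp only [mem_coe, mem_powersetCard, subset_univ, true_and]
    rw [card_sdiff_of_subset this.2, this.1]
  · intro Q hQ Q' hQ' hh
    have e1 := sdiff_union_of_subset (h Q hQ).2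
    have e2 := sdiff_union_of_subset (h Q' hQ').2
    simp only at hh
    rw [← e1, ← e2, hh]

lemma trace_sum {n t : ℕ} (W : Finset (Fin n)) (U : Finset (Sym2 (Fin n))) (hU : U ⊆ KE W)
    (QQ YY : Finset (Finset (Fin n))) (h : ∀ Q ∈ QQ, Q.card = t ∧ Q ∩ W ∈ YY) :
    ∑ Q ∈ QQ, (1 / 2 : ℝ) ^ (KE Q \ U).card ≤ ∑ Y ∈ YY, GG n t Y.card := by
  rw [← sum_fiberwise_of_maps_to (s := QQ) (t := YY) (g := fun Q => Q ∩ W) (fun Q hQ => (h Q hQ).2)]
  refine sum_le_sum fun Y _ => ?_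
  have h1 : ∀ Q ∈ QQ.filter (fun Q => Q ∩ W = Y),
      (1 / 2 : ℝ) ^ (KE Q \ U).card ≤ 2 ^ (Y.card.choose 2) / 2 ^ (t.choose 2) := by
    intro Q hQ
    obtain ⟨hQ, hY⟩ := mem_filter.1 hQ
    apply half_pow_le
    rw [← (h Q hQ).1, ← card_KE, ← card_KE, ← hY, KE_inter, ← card_sdiff_add_card_inter (KE Q) U]
    exact Nat.add_le_add_left (card_le_card (inter_subset_inter subset_rfl hU)) _
  refine (sum_le_card_nsmul _ _ _ h1).trans ?_
  rw [nsmul_eq_mul, GG, mul_div_assoc]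
  refine mul_le_mul_of_nonneg_right ?_ (by positivity)
  have h2 := card_supsets_le (t := t) Y (QQ.filter (fun Q => Q ∩ W = Y)) fun Q hQ =>
    ⟨(h Q (mem_filter.1 hQ).1).1, (mem_filter.1 hQ).2 ▸ inter_subset_left⟩
  exact_mod_cast h2

lemma trace_sum_size {n t : ℕ} (W : Finset (Fin n)) (U : Finset (Sym2 (Fin n))) (hU : U ⊆ KE W)
    (QQ : Finset (Finset (Fin n))) (I : Finset ℕ)
    (h : ∀ Q ∈ QQ, Q.card = t ∧ (Q ∩ W).card ∈ I) :
    ∑ Q ∈ QQ, (1 / 2 : ℝ) ^ (KE Q \ U).card ≤ ∑ a ∈ I, (W.card.choose a : ℝ) * GG n t a := by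
  refine (trace_sum W U hU QQ (W.powerset.filter (fun Y => Y.card ∈ I)) fun Q hQ =>
    ⟨(h Q hQ).1, mem_filter.2 ⟨mem_powerset.2 inter_subset_right, (h Q hQ).2⟩⟩).trans ?_
  rw [← sum_fiberwise_of_maps_to (s := W.powerset.filter (fun Y => Y.card ∈ I)) (t := I)
    (g := fun Y => Y.card) (fun Y hY => (mem_filter.1 hY).2)]
  refine sum_le_sum fun a _ => ?_
  have h1 : ∀ Y ∈ (W.powerset.filter (fun Y => Y.card ∈ I)).filter (fun Y => Y.card = a),
      GG n t Y.card ≤ GG n t a := by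
    intro Y hY; rw [(mem_filter.1 hY).2]
  refine (sum_le_card_nsmul _ _ _ h1).trans ?_
  rw [nsmul_eq_mul]
  refine mul_le_mul_of_nonneg_right ?_ (GG_nonneg _ _ _)
  rw [← card_powersetCard]
  norm_cast
  refine card_le_card fun Y hY => ?_
  simp only [mem_filter, mem_powerset] at hY
  exact mem_powersetCard.2 ⟨hY.1.1, hY.2⟩

lemma sum_half_choose (n t : ℕ) :
    ∑ Q ∈ powersetCard t (univ : Finset (Fin n)), (1 / 2 : ℝ) ^ (KE Q).card = ff n t := by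
  rw [sum_congr rfl (g := fun _ => (1 / 2 : ℝ) ^ t.choose 2)
    (fun Q hQ => by rw [card_KE, (mem_powersetCard.1 hQ).2])]
  simp [ff, div_eq_mul_inv]

lemma choose_sub_le {n t : ℕ} (hn : 0 < n) (ht : 2 * t ≤ n) :
    ∀ a ≤ t, (n.choose (t - a) : ℝ) ≤ n.choose t * (2 * t / n) ^ a := by
  intro a
  induction a with
  | zero => intro _; simp
  | succ a ih =>
    intro ha
    have h1 := ih (by omega)
    have h2 : n.choose (t - a) * (t - a) = n.choose (t - (a + 1)) * (n - (t - (a + 1))) := by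
      have := Nat.choose_succ_right_eq n (t - (a + 1))
      rwa [show t - (a + 1) + 1 = t - a by omega] at this
    have h3 : n.choose (t - (a + 1)) * n ≤ n.choose (t - a) * (2 * t) := by
      calc n.choose (t - (a + 1)) * n ≤ n.choose (t - (a + 1)) * (2 * (n - (t - (a + 1)))) :=
            Nat.mul_le_mul_left _ (by omega)
        _ = 2 * (n.choose (t - a) * (t - a)) := by rw [h2]; ring
        _ ≤ 2 * (n.choose (t - a) * t) :=
            Nat.mul_le_mul_left _ (Nat.mul_le_mul_left _ (by omega))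
        _ = _ := by ring
    have hn' : (0 : ℝ) < n := by exact_mod_cast hn
    have h4 : (n.choose (t - (a + 1)) : ℝ) ≤ n.choose (t - a) * (2 * t / n) := by
      rw [← mul_div_assoc, le_div_iff₀ hn']; exact_mod_cast h3
    calc _ ≤ _ := h4
      _ ≤ n.choose t * (2 * t / n) ^ a * (2 * t / n) :=
          mul_le_mul_of_nonneg_right h1 (by positivity)
      _ = _ := by ring

lemma choose_le_pow' (w a : ℕ) : (w.choose a : ℝ) ≤ (w : ℝ) ^ a := by
  exact_mod_cast Nat.choose_le_pow w a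

lemma low_le {n t w a : ℕ} {x : ℝ} (hn : 0 < n) (ht : 2 * t ≤ n) (ha : a ≤ t)
    (hx : 2 * t * (w : ℝ) ≤ x) : (w.choose a : ℝ) * GG n t a ≤ ff n t * EE n x a := by
  have hn' : (0 : ℝ) < n := by exact_mod_cast hn
  have h1 := choose_sub_le hn ht a ha
  have h2 : (2 : ℝ) ^ a.choose 2 ≤ 2 ^ (a + 1).choose 2 :=
    pow_le_pow_right₀ (by norm_num) (Nat.choose_le_choose _ (by omega))
  have h3 : ((w : ℝ) * (2 * t / n)) ^ a ≤ (x / n) ^ a := by
    apply pow_le_pow_left₀ (by positivity)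
    rw [← mul_div_assoc]
    exact div_le_div_of_nonneg_right (by linarith) hn'.le
  unfold GG ff EE
  calc (w.choose a : ℝ) * ((n.choose (t - a) : ℝ) * 2 ^ (a.choose 2) / 2 ^ (t.choose 2))
      ≤ (w : ℝ) ^ a * ((n.choose t * (2 * t / n) ^ a) * 2 ^ ((a + 1).choose 2) /
          2 ^ (t.choose 2)) := by
        gcongr
        exact choose_le_pow' w a
    _ = (n.choose t : ℝ) / 2 ^ (t.choose 2) *
          (((w : ℝ) * (2 * t / n)) ^ a * 2 ^ ((a + 1).choose 2)) := by rw [mul_pow]; ring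
    _ ≤ _ := by gcongr

lemma choose_two_add (b d : ℕ) : 2 * (b + d).choose 2 + d = 2 * b.choose 2 + d * (2 * b + d) := by
  induction d with
  | zero => simp
  | succ d ih =>
    have h : (b + (d + 1)).choose 2 = (b + d) + (b + d).choose 2 := by
      rw [← add_assoc, Nat.choose_succ_succ' (b + d) 1, Nat.choose_one_right]
    rw [h]
    nlinarith

lemma choose_two_succ (w : ℕ) : 2 * (w + 1).choose 2 = w * (w + 1) := by
  have := choose_two_add 1 w
  rw [add_comm 1 w] at this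
  simp at this
  nlinarith

lemma high_le {n t w : ℕ} {x : ℝ} (hn : 0 < n) (hw : w ≤ t)
    (hx : (t : ℝ) * n ^ 2 ≤ x * 2 ^ t) : (t.choose w : ℝ) * GG n t (t - w) ≤ EE n x w := by
  have hn' : (0 : ℝ) < n := by exact_mod_cast hn
  obtain ⟨b, rfl⟩ := Nat.exists_eq_add_of_le' hw
  have h1 : (b + w).choose 2 + (w + 1).choose 2 = b.choose 2 + (b + w) * w := by
    have := choose_two_add b w
    have := choose_two_succ w
    nlinarith
  have h2 : (2 : ℝ) ^ b.choose 2 / 2 ^ (b + w).choose 2 =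
      2 ^ (w + 1).choose 2 / (2 ^ (b + w)) ^ w := by
    rw [div_eq_div_iff (by positivity) (by positivity), ← pow_mul, ← pow_add, ← pow_add, ← h1,
      add_comm]
  have h3 : ((b + w : ℕ) : ℝ) * n / 2 ^ (b + w) ≤ x / n := by
    rw [div_le_div_iff₀ (by positivity) hn']; nlinarith
  unfold GG EE
  rw [Nat.add_sub_cancel, show b + w - b = w by omega, mul_div_assoc, h2]
  calc ((b + w).choose w : ℝ) * ((n.choose w : ℝ) * (2 ^ (w + 1).choose 2 / (2 ^ (b + w)) ^ w))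
      ≤ ((b + w : ℕ) : ℝ) ^ w * ((n : ℝ) ^ w * (2 ^ (w + 1).choose 2 / (2 ^ (b + w)) ^ w)) := by
        gcongr
        · exact choose_le_pow' _ _
        · exact choose_le_pow' _ _
    _ = (((b + w : ℕ) : ℝ) * n / 2 ^ (b + w)) ^ w * 2 ^ (w + 1).choose 2 := by
        rw [div_pow, mul_pow]; ring
    _ ≤ _ := by gcongr

lemma EE_anti {n L a b : ℕ} {x : ℝ} (hx0 : 0 ≤ x) (hL : 2 ^ L ≤ n) (hx : x ^ 2 * 2 ^ 13 ≤ n)
    (hb : b ≤ 8) (hba : b ≤ a) (ha : a ≤ L + 4) : EE n x a ≤ EE n x b := by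
  have hn : 0 < n := lt_of_lt_of_le (by positivity) hL
  have hn' : (0 : ℝ) < n := by exact_mod_cast hn
  have hL' : (2 : ℝ) ^ L ≤ n := by exact_mod_cast hL
  obtain ⟨d, rfl⟩ := Nat.exists_eq_add_of_le hba
  have h1 : 2 * (b + d + 1).choose 2 = 2 * (b + 1).choose 2 + d * (2 * b + d + 1) := by
    have := choose_two_succ (b + d)
    have := choose_two_succ b
    nlinarith
  refine (pow_le_pow_iff_left₀ (EE_nonneg n hx0 _) (EE_nonneg n hx0 _) two_ne_zero).1 ?_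
  have h2 : EE n x (b + d) ^ 2 = EE n x b ^ 2 * ((x / n) ^ 2 * 2 ^ (2 * b + d + 1)) ^ d := by
    unfold EE
    rw [mul_pow, mul_pow, mul_pow, ← pow_mul (2 : ℝ), ← pow_mul (2 : ℝ), ← pow_mul (2 : ℝ),
      mul_comm ((b + d + 1).choose 2) 2, h1, pow_add (2 : ℝ), mul_comm d, mul_comm _ 2]
    ring
  have h3 : (x / n) ^ 2 * 2 ^ (2 * b + d + 1) ≤ 1 := by
    have h4 : (2 : ℝ) ^ (2 * b + d + 1) ≤ 2 ^ 13 * 2 ^ L := by
      rw [← pow_add]; exact pow_le_pow_right₀ (by norm_num) (by omega)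
    rw [div_pow, div_mul_eq_mul_div, div_le_one (by positivity)]
    calc x ^ 2 * 2 ^ (2 * b + d + 1) ≤ x ^ 2 * (2 ^ 13 * 2 ^ L) := by gcongr
      _ = (x ^ 2 * 2 ^ 13) * 2 ^ L := by ring
      _ ≤ n * n := by gcongr
      _ = _ := by ring
  rw [h2]
  exact mul_le_of_le_one_right (by positivity) (pow_le_one₀ (by positivity) h3)

lemma EE_top {n L g : ℕ} {x : ℝ} (hx0 : 0 ≤ x) (hL : 2 ^ L ≤ n) (hx : 16 * x ^ 4 ≤ n)
    (hg : 4 * g ≤ L + 1) : EE n x (L + 1) * (n : ℝ) ^ g ≤ 1 := by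
  have hn : 0 < n := lt_of_lt_of_le (by positivity) hL
  have hn' : (0 : ℝ) < n := by exact_mod_cast hn
  have hn1 : (1 : ℝ) ≤ n := by exact_mod_cast hn
  have hL' : (2 : ℝ) ^ L ≤ n := by exact_mod_cast hL
  have h0 : 0 ≤ EE n x (L + 1) * (n : ℝ) ^ g := mul_nonneg (EE_nonneg n hx0 _) (by positivity)
  refine (pow_le_one_iff_of_nonneg h0 (n := 4) (by norm_num)).1 ?_
  have h1 : (L + 1 + 1).choose 2 * 4 = (2 * L + 4) * (L + 1) := by
    have := choose_two_succ (L + 1); nlinarith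
  have h2 : EE n x (L + 1) ^ 4 = ((x / n) ^ 4 * 2 ^ (2 * L + 4)) ^ (L + 1) := by
    unfold EE
    rw [mul_pow, mul_pow, ← pow_mul (2 : ℝ), ← pow_mul (2 : ℝ), h1, ← pow_mul, ← pow_mul,
      mul_comm 4]
  have h3 : (x / n) ^ 4 * 2 ^ (2 * L + 4) * n ≤ 1 := by
    rw [div_pow, div_mul_eq_mul_div, div_mul_eq_mul_div, div_le_one (by positivity)]
    calc x ^ 4 * 2 ^ (2 * L + 4) * (n : ℝ) = (16 * x ^ 4) * (2 ^ L * 2 ^ L) * (n : ℝ) := by ring
      _ ≤ (n : ℝ) * (n * n) * n := by gcongr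
      _ = _ := by ring
  calc (EE n x (L + 1) * (n : ℝ) ^ g) ^ 4 = EE n x (L + 1) ^ 4 * (n : ℝ) ^ (4 * g) := by ring
    _ ≤ EE n x (L + 1) ^ 4 * (n : ℝ) ^ (L + 1) := by
        gcongr
    _ = ((x / n) ^ 4 * 2 ^ (2 * L + 4) * n) ^ (L + 1) := by rw [h2, ← mul_pow]
    _ ≤ 1 := pow_le_one₀ (by positivity) h3

/-- the range of parameters in which the counting estimates hold -/
structure Reg (n L t : ℕ) (x : ℝ) : Prop where
  hL : 2 ^ L ≤ n
  h2t : 2 * t ≤ n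
  hLt : L ≤ t
  htL : t ≤ 2 * L + 4
  hx1 : 1 ≤ x
  hxt : 2 * (t : ℝ) * t ≤ x
  hx2 : (t : ℝ) * n ^ 2 ≤ x * 2 ^ t
  hxn : x ^ 2 * 2 ^ 13 ≤ n

lemma Reg.pos {n L t : ℕ} {x : ℝ} (h : Reg n L t x) : 0 < n := lt_of_lt_of_le (by positivity) h.hL

lemma Reg.low_sum {n L t : ℕ} {x : ℝ} (h : Reg n L t x) (W : Finset (Fin n))
    (U : Finset (Sym2 (Fin n))) (hU : U ⊆ KE W) (hW : 2 * t * (W.card : ℝ) ≤ x)
    (QQ : Finset (Finset (Fin n))) {b : ℕ} (hb : b ≤ 8)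
    (hQ : ∀ Q ∈ QQ, Q.card = t ∧ b ≤ (Q ∩ W).card ∧ (Q ∩ W).card ≤ L) :
    ∑ Q ∈ QQ, (1 / 2 : ℝ) ^ (KE Q \ U).card ≤ (L + 1) * (ff n t * EE n x b) := by
  have hx0 : 0 ≤ x := by linarith [h.hx1]
  refine (trace_sum_size W U hU QQ (Icc b L) fun Q hq =>
    ⟨(hQ Q hq).1, mem_Icc.2 (hQ Q hq).2⟩).trans ?_
  have h1 : ∀ a ∈ Icc b L, (W.card.choose a : ℝ) * GG n t a ≤ ff n t * EE n x b := by
    intro a ha
    obtain ⟨h2, h3⟩ := mem_Icc.1 ha
    refine (low_le h.pos h.h2t (h3.trans h.hLt) hW).trans ?_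
    exact mul_le_mul_of_nonneg_left (EE_anti hx0 h.hL h.hxn hb h2 (by omega)) (ff_nonneg _ _)
  refine (sum_le_card_nsmul _ _ _ h1).trans ?_
  rw [nsmul_eq_mul]
  refine mul_le_mul_of_nonneg_right ?_ (mul_nonneg (ff_nonneg _ _) (EE_nonneg _ hx0 _))
  rw [Nat.card_Icc]
  exact_mod_cast Nat.sub_le _ _

lemma Reg.pair_sum {n L t : ℕ} {x : ℝ} (h : Reg n L t x) (Q : Finset (Fin n)) (hQ : Q.card = t)
    (QQ : Finset (Finset (Fin n))) {lo hi : ℕ} (hlo : lo ≤ 8) (hhi : hi ≤ 8)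
    (hQQ : ∀ Q' ∈ QQ, Q'.card = t ∧ lo ≤ (Q' ∩ Q).card ∧ (Q' ∩ Q).card + hi ≤ t) :
    ∑ Q' ∈ QQ, (1 / 2 : ℝ) ^ (KE Q' \ KE Q).card ≤
      (t + 1) * (ff n t * EE n x lo + EE n x hi) := by
  have hx0 : 0 ≤ x := by linarith [h.hx1]
  refine (trace_sum_size Q (KE Q) subset_rfl QQ ((range (t + 1)).filter (fun a => lo ≤ a ∧ a + hi ≤ t))
    fun Q' hq => ⟨(hQQ Q' hq).1, mem_filter.2 ⟨mem_range.2 (by have := hQQ Q' hq; omega),
      (hQQ Q' hq).2⟩⟩).trans ?_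
  have hA := mul_nonneg (ff_nonneg n t) (EE_nonneg n hx0 lo)
  have hB := EE_nonneg n hx0 hi
  have h1 : ∀ a ∈ (range (t + 1)).filter (fun a => lo ≤ a ∧ a + hi ≤ t),
      (Q.card.choose a : ℝ) * GG n t a ≤ ff n t * EE n x lo + EE n x hi := by
    intro a ha
    obtain ⟨h2, h3⟩ := (mem_filter.1 ha).2
    rw [hQ]
    by_cases haL : a ≤ L
    · have h4 := low_le (w := t) h.pos h.h2t (show a ≤ t by omega) h.hxt
      have h5 := mul_le_mul_of_nonneg_left (EE_anti hx0 h.hL h.hxn hlo h2 (by omega))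
        (ff_nonneg n t)
      linarith
    · have h4 := high_le (w := t - a) h.pos (Nat.sub_le t a) h.hx2
      rw [Nat.choose_symm (by omega), show t - (t - a) = a by omega] at h4
      have h5 := EE_anti hx0 h.hL h.hxn hhi (show hi ≤ t - a by omega)
        (by have := h.htL; omega)
      linarith
  refine (sum_le_card_nsmul _ _ _ h1).trans ?_
  rw [nsmul_eq_mul]
  refine mul_le_mul_of_nonneg_right ?_ (add_nonneg hA hB)
  exact_mod_cast (card_filter_le _ _).trans (card_range _).le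

end Pool.Agent.P.MP_8e94e3_co
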