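import Mathlib

set_option autoImplicit false

namespace Pool.Agent.P.MP_8e94e3_co

open Finset

/-- The second player has a winning strategy in the clique-building game on `K_n`: positions are
lists of claimed edges, the first player claims the edges at even places and the second player
those at odd places. -/
def BobWins (n : ℕ) : Prop :=
  ∃ σ : List (Sym2 (Fin n)) → Sym2 (Fin n),
    (∀ l : List (Sym2 (Fin n)),
      l.Nodup → (∀ e ∈ l, ¬ e.IsDiag) →
      (∀ i (h : i < l.length), i % 2 = 1 → l[i]'h = σ (l.take i)) →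
      l.length % 2 = 1 → l.length < n.choose 2 →
      ¬ (σ l).IsDiag ∧ σ l ∉ l) ∧
    (∀ l : List (Sym2 (Fin n)),
      l.Nodup → (∀ e ∈ l, ¬ e.IsDiag) →
      (∀ i (h : i < l.length), i % 2 = 1 → l[i]'h = σ (l.take i)) →
      l.length = n.choose 2 →
      ∀ k : ℕ,
        (SimpleGraph.fromEdgeSet
            {e : Sym2 (Fin n) | ∃ i, ∃ h : i < l.length, i % 2 = 1 ∧ l[i]'h = e}).CliqueFree k →
        (SimpleGraph.fromEdgeSet
            {e : Sym2 (Fin n) | ∃ i, ∃ h : i < l.length, i % 2 = 0 ∧ l[i]'h = e}).CliqueFree k)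

/-- the edges with both ends in `S` -/
def KE {V : Type*} [DecidableEq V] (S : Finset V) : Finset (Sym2 V) :=
  S.sym2.filter (fun e => ¬ e.IsDiag)

/-- expected number of `t`-cliques in `G(n,1/2)` -/
noncomputable def ff (n t : ℕ) : ℝ := (n.choose t : ℝ) / 2 ^ (t.choose 2)

variable {V : Type*} [DecidableEq V]

lemma mk_mem_KE {S : Finset V} {a b : V} : s(a, b) ∈ KE S ↔ a ∈ S ∧ b ∈ S ∧ a ≠ b := by
  simp [KE, and_assoc]

lemma mem_KE {S : Finset V} {e : Sym2 V} : e ∈ KE S ↔ (∀ a ∈ e, a ∈ S) ∧ ¬ e.IsDiag := by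
  simp [KE, mem_sym2_iff]

lemma card_KE (S : Finset V) : (KE S).card = S.card.choose 2 := by
  rw [← Sym2.card_image_offDiag]
  congr 1
  ext e
  induction e using Sym2.ind with
  | h a b =>
    rw [mk_mem_KE]
    simp only [mem_image, mem_offDiag, Prod.exists, Function.uncurry]
    constructor
    · rintro ⟨h1, h2, h3⟩; exact ⟨a, b, ⟨h1, h2, h3⟩, rfl⟩
    · rintro ⟨c, d, ⟨h1, h2, h3⟩, h⟩
      rcases Sym2.eq_iff.1 h with ⟨rfl, rfl⟩ | ⟨rfl, rfl⟩
      · exact ⟨h1, h2, h3⟩
      · exact ⟨h2, h1, h3.symm⟩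

lemma KE_inter (S T : Finset V) : KE (S ∩ T) = KE S ∩ KE T := by
  ext e
  induction e using Sym2.ind with
  | h a b => simp only [mem_inter, mk_mem_KE]; tauto

lemma KE_mono {S T : Finset V} (h : S ⊆ T) : KE S ⊆ KE T := by
  intro e he
  rw [mem_KE] at he ⊢
  exact ⟨fun a ha => h (he.1 a ha), he.2⟩

lemma mem_KE_univ [Fintype V] {e : Sym2 V} : e ∈ KE (univ : Finset V) ↔ ¬ e.IsDiag := by
  simp [mem_KE]

lemma two_le_card_of_mem_KE {S : Finset V} {e : Sym2 V} (h : e ∈ KE S) : 2 ≤ S.card := by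
  by_contra hc
  have : (KE S).card = 0 := by rw [card_KE]; exact Nat.choose_eq_zero_of_lt (by omega)
  rw [card_eq_zero] at this
  simp [this] at h

end Pool.Agent.P.MP_8e94e3_co
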