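import Pool.Agent.P.MP_8e94e3_co.Defs

set_option autoImplicit false

namespace Pool.Agent.P.MP_8e94e3_co

open Finset

/-- the scale of `n` at which the expected number of `r`-cliques is of order one -/
noncomputable def bb (r : ℕ) : ℝ := r * √2 ^ (r - 1)

lemma sqrt_two_ge : (4 / 3 : ℝ) ≤ √2 := Real.le_sqrt_of_sq_le (by norm_num)

lemma le_bb (r : ℕ) : (r : ℝ) ≤ bb r :=
  le_mul_of_one_le_right (Nat.cast_nonneg r) (one_le_pow₀ (by linarith [sqrt_two_ge]))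

lemma bb_nonneg (r : ℕ) : 0 ≤ bb r := (Nat.cast_nonneg r).trans (le_bb r)

lemma bb_succ (r : ℕ) : 4 * bb r ≤ 3 * bb (r + 1) := by
  rcases r with _ | r
  · simp [bb]
  · simp only [bb, Nat.add_sub_cancel, pow_succ]
    push_cast
    have h1 : (0 : ℝ) < √2 ^ r := by positivity
    have h2 : (0 : ℝ) ≤ r := by positivity
    have h3 := mul_le_mul_of_nonneg_left sqrt_two_ge (mul_nonneg (by linarith : (0 : ℝ) ≤ r + 1) h1.le)
    have h4 : (0 : ℝ) ≤ √2 ^ r * √2 := by positivity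
    nlinarith

lemma sum_bb (R : ℕ) : ∑ r ∈ range (R + 1), bb r ≤ 4 * bb R := by
  induction R with
  | zero => simp [bb]
  | succ R ih =>
    rw [sum_range_succ]
    linarith [bb_succ R]

lemma sum_bb_filter (X : ℝ) (hX : 0 ≤ X) (M : ℕ) :
    ∑ r ∈ (range M).filter (fun r => bb r ≤ X), bb r ≤ 4 * X := by
  induction M with
  | zero => simpa using hX
  | succ M ih =>
    by_cases h : bb M ≤ X
    · exact (sum_le_sum_of_subset_of_nonneg (filter_subset _ _) fun r _ _ => bb_nonneg r).trans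
        ((sum_bb M).trans (by linarith))
    · rwa [range_add_one, filter_insert, if_neg h]

lemma two_pow_choose (r : ℕ) : (2 : ℝ) ^ r.choose 2 = (√2 ^ (r - 1)) ^ r := by
  have h : (r - 1) * r = 2 * r.choose 2 := by
    rw [Nat.choose_two_right, Nat.mul_div_cancel' (Nat.even_mul_pred_self r).two_dvd, mul_comm]
  rw [← pow_mul, h, pow_mul, Real.sq_sqrt zero_le_two]

lemma ff_nonneg (n r : ℕ) : 0 ≤ ff n r := by unfold ff; positivity

lemma ff_lower {n r : ℕ} (hr : 0 < r) {c : ℝ} (hc : 1 ≤ c) (h : ff n r < c ^ r) :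
    n < 2 * c * bb r := by
  have h0 : (0 : ℝ) < r := by exact_mod_cast hr
  have h1 := le_bb r
  rcases Nat.lt_or_ge n (2 * r) with h2 | h2
  · have : (n : ℝ) < 2 * r := by exact_mod_cast h2
    nlinarith
  · have h3 : ((n + 1 - r : ℕ) : ℝ) ^ r / r.factorial ≤ n.choose r := Nat.pow_le_choose r n
    have h4 : (n : ℝ) / 2 ≤ (n + 1 - r : ℕ) := by
      have : n ≤ 2 * (n + 1 - r) := by omega
      have : (n : ℝ) ≤ 2 * (n + 1 - r : ℕ) := by exact_mod_cast this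
      linarith
    have h5 : (r.factorial : ℝ) ≤ r ^ r := by exact_mod_cast r.factorial_le_pow
    have h6 : ((n : ℝ) / 2) ^ r / r ^ r ≤ n.choose r := le_trans (by gcongr) h3
    have h7 : ((n : ℝ) / (2 * bb r)) ^ r ≤ ff n r := by
      rw [ff, two_pow_choose, le_div_iff₀ (by positivity), ← mul_pow]
      refine le_trans (le_of_eq ?_) h6
      rw [← div_pow, bb]
      congr 1
      field_simp
    have h8 := lt_of_pow_lt_pow_left₀ r (by linarith) (h7.trans_lt h)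
    rw [div_lt_iff₀ (by linarith)] at h8
    linarith

lemma ff_upper {n r : ℕ} (hr : 0 < r) (h : 1 ≤ ff n r) : bb r ≤ 3 * n := by
  have h0 : (0 : ℝ) < r := by exact_mod_cast hr
  have h1 := le_bb r
  have h3 : (n.choose r : ℝ) ≤ (n : ℝ) ^ r / r.factorial := Nat.choose_le_pow_div r n
  have h4 : (r : ℝ) ^ r / r.factorial ≤ 3 ^ r := by
    refine (Real.pow_div_factorial_le_exp r h0.le r).trans ?_
    rw [← Real.exp_one_pow]
    exact pow_le_pow_left₀ (Real.exp_pos 1).le (by linarith [Real.exp_one_lt_d9]) r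
  have h5 : (n.choose r : ℝ) ≤ (3 * n / r) ^ r := by
    refine h3.trans ?_
    calc (n : ℝ) ^ r / r.factorial = (n / r) ^ r * ((r : ℝ) ^ r / r.factorial) := by
          rw [div_pow]; field_simp
      _ ≤ (n / r) ^ r * 3 ^ r := by gcongr
      _ = _ := by rw [← mul_pow]; congr 1; ring
  have h7 : ff n r ≤ (3 * n / bb r) ^ r := by
    rw [ff, two_pow_choose, div_le_iff₀ (by positivity), ← mul_pow]
    refine h5.trans (le_of_eq ?_)
    rw [bb]
    congr 1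
    field_simp
  have h8 := (one_le_pow_iff_of_nonneg (by have := bb_nonneg r; positivity) hr.ne').1 (h.trans h7)
  rwa [one_le_div (by linarith)] at h8

lemma choose_ratio {n n' : ℕ} (h : n ≤ n') (r : ℕ) : n.choose r * n' ^ r ≤ n'.choose r * n ^ r := by
  have key : n.descFactorial r * n' ^ r ≤ n'.descFactorial r * n ^ r := by
    induction r with
    | zero => simp
    | succ r ih =>
      have h1 : (n - r) * n' ≤ (n' - r) * n := by
        rw [Nat.sub_mul, Nat.sub_mul, mul_comm n' n]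
        exact Nat.sub_le_sub_left (Nat.mul_le_mul_left _ h) _
      calc _ = ((n - r) * n') * (n.descFactorial r * n' ^ r) := by
            rw [Nat.descFactorial_succ]; ring
        _ ≤ ((n' - r) * n) * (n'.descFactorial r * n ^ r) := Nat.mul_le_mul h1 ih
        _ = _ := by rw [Nat.descFactorial_succ]; ring
  rw [Nat.descFactorial_eq_factorial_mul_choose, Nat.descFactorial_eq_factorial_mul_choose,
    mul_assoc, mul_assoc] at key
  exact Nat.le_of_mul_le_mul_left key r.factorial_pos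

/-- the window of `n` in which the expected number of `r`-cliques is close to `n ^ 2` -/
def Win (μ r n : ℕ) : Prop := 0 < n ∧ 4 ≤ r ∧ n ≤ 2 ^ r ∧
  (n : ℝ) ^ (2 * μ) < ff n r ^ μ * (n : ℝ) ^ 8 ∧ ff n r ^ μ < (n : ℝ) ^ (2 * μ + 8)

lemma Win.ratio {μ r n n' : ℕ} (hμ : 0 < μ) (h : Win μ r n) (h' : Win μ r n') (hn : n ≤ n') :
    (n' : ℝ) ≤ n + 2 ^ 32 / μ * n := by
  obtain ⟨h0, h1, h2, h3, -⟩ := h
  obtain ⟨-, -, h2', -, h4⟩ := h'
  have n0 : (0 : ℝ) < n := by exact_mod_cast h0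
  obtain ⟨ρ, hρ⟩ : ∃ ρ : ℝ, (n' : ℝ) = ρ * n := ⟨n' / n, by field_simp⟩
  have r1 : 1 ≤ ρ := by
    have : (n : ℝ) ≤ n' := by exact_mod_cast hn
    nlinarith
  have a1 : ff n r * ρ ^ r ≤ ff n' r := by
    have a0 : (n.choose r : ℝ) * (n' : ℝ) ^ r ≤ n'.choose r * (n : ℝ) ^ r := by
      exact_mod_cast choose_ratio hn r
    rw [hρ, mul_pow, ← mul_assoc] at a0
    have := le_of_mul_le_mul_right a0 (by positivity)
    rw [ff, ff, div_mul_eq_mul_div]
    gcongr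
  have a2 : ff n r ^ μ * (ρ ^ μ) ^ r ≤ (n' : ℝ) ^ (2 * μ + 8) := by
    rw [← pow_mul, mul_comm μ r, pow_mul, ← mul_pow]
    exact (pow_le_pow_left₀ (mul_nonneg (ff_nonneg _ _) (by positivity)) a1 μ).trans h4.le
  have a3 : (n' : ℝ) ^ (2 * μ + 8) = (ρ ^ μ) ^ 2 * n ^ (2 * μ) * (n' : ℝ) ^ 8 := by
    rw [pow_add, ← pow_mul, mul_comm μ 2, ← mul_pow, ← hρ]
  have r2 : 1 ≤ ρ ^ μ := one_le_pow₀ r1
  have b1 : 1 + μ * (ρ - 1) ≤ ρ ^ μ := by
    simpa using one_add_mul_le_pow (show -2 ≤ ρ - 1 by linarith) μ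
  generalize ρ ^ μ = x at a2 a3 r2 b1
  obtain ⟨k, rfl⟩ : ∃ k, r = k + 2 := ⟨r - 2, by omega⟩
  have c1 : (n : ℝ) ≤ 2 ^ (k + 2) := by exact_mod_cast h2
  have c2 : (n' : ℝ) ≤ 2 ^ (k + 2) := by exact_mod_cast h2'
  have a4 : (x ^ 2 * n ^ (2 * μ)) * x ^ k ≤ (x ^ 2 * n ^ (2 * μ)) * (2 ^ 32) ^ k :=
    calc (x ^ 2 * n ^ (2 * μ)) * x ^ k = n ^ (2 * μ) * x ^ (k + 2) := by ring
      _ ≤ ff n (k + 2) ^ μ * (n : ℝ) ^ 8 * x ^ (k + 2) := by gcongr
      _ = ff n (k + 2) ^ μ * x ^ (k + 2) * (n : ℝ) ^ 8 := by ring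
      _ ≤ x ^ 2 * n ^ (2 * μ) * (n' : ℝ) ^ 8 * (n : ℝ) ^ 8 := by rw [← a3]; gcongr
      _ ≤ x ^ 2 * n ^ (2 * μ) * (2 ^ (k + 2)) ^ 8 * (2 ^ (k + 2)) ^ 8 := by gcongr
      _ = x ^ 2 * n ^ (2 * μ) * 2 ^ ((k + 2) * 8 + (k + 2) * 8) := by
          rw [mul_assoc, ← pow_mul, ← pow_add]
      _ ≤ _ := by
          rw [← pow_mul]
          gcongr
          · exact one_le_two
          · omega
  have a5 := le_of_mul_le_mul_left a4 (by positivity)
  have a6 : x ≤ 2 ^ 32 := le_of_pow_le_pow_left₀ (by omega) (by positivity) a5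
  have m0 : (0 : ℝ) < μ := by exact_mod_cast hμ
  have a7 : ρ - 1 ≤ 2 ^ 32 / μ := by
    rw [le_div_iff₀ m0]
    linarith
  rw [hρ]
  nlinarith

lemma Win.bounds {μ r n : ℕ} (hμ : 8 ≤ μ) (h : Win μ r n) : bb r ≤ 3 * n ∧ n ≤ 16 * bb r := by
  obtain ⟨h0, h1, h2, h3, h4⟩ := h
  have n0 : (1 : ℝ) ≤ n := by exact_mod_cast h0
  constructor
  · refine ff_upper (by omega) ?_
    by_contra h5
    have h6 : ff n r ^ μ ≤ 1 := pow_le_one₀ (ff_nonneg _ _) (not_le.1 h5).le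
    have h7 : (n : ℝ) ^ 8 ≤ n ^ (2 * μ) := pow_le_pow_right₀ n0 (by omega)
    have : ff n r ^ μ * (n : ℝ) ^ 8 ≤ 1 * (n : ℝ) ^ 8 := by gcongr
    linarith
  · have h5 : ff n r ^ μ < ((n : ℝ) ^ 3) ^ μ :=
      h4.trans_le (by rw [← pow_mul]; exact pow_le_pow_right₀ n0 (by omega))
    have h6 := lt_of_pow_lt_pow_left₀ μ (by positivity) h5
    have c1 : (n : ℝ) ≤ 2 ^ r := by exact_mod_cast h2
    have h7 : (n : ℝ) ^ 3 ≤ 8 ^ r := by
      calc (n : ℝ) ^ 3 ≤ (2 ^ r) ^ 3 := by gcongr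
        _ = _ := by rw [← pow_mul, mul_comm, pow_mul]; norm_num
    have := ff_lower (by omega) (by norm_num) (h6.trans_le h7)
    linarith

open Classical in
lemma card_win {μ : ℕ} (hμ : 8 ≤ μ) {η : ℝ} (hη : η = 2 ^ 32 / μ) (r : ℕ) (s : Finset ℕ)
    (hs : ∀ n ∈ s, Win μ r n ∧ 16 ≤ η * n) : (s.card : ℝ) ≤ 17 * η * bb r := by
  have e0 : 0 ≤ η := by rw [hη]; positivity
  rcases s.eq_empty_or_nonempty with rfl | hne
  · have := bb_nonneg r
    simp only [card_empty, Nat.cast_zero]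
    positivity
  · obtain ⟨h1, h2⟩ := hs _ (s.min'_mem hne)
    obtain ⟨h3, -⟩ := hs _ (s.max'_mem hne)
    have h4 := h1.ratio (by omega) h3 (s.min'_le_max' hne)
    have h5 : s.card ≤ s.max' hne + 1 - s.min' hne := by
      rw [← Nat.card_Icc]
      exact card_le_card fun n hn => mem_Icc.2 ⟨s.min'_le n hn, s.le_max' n hn⟩
    have h6 : s.card + s.min' hne ≤ s.max' hne + 1 := by
      have := s.min'_le_max' hne
      omega
    have h7 : (s.card : ℝ) + s.min' hne ≤ s.max' hne + 1 := by exact_mod_cast h6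
    have h8 := mul_le_mul_of_nonneg_left (h1.bounds hμ).2 e0
    rw [← hη] at h4
    linarith

lemma ff_log {n : ℕ} (hn : 2 ^ 24 ≤ n) : (n : ℝ) ^ 3 ≤ ff n (Nat.log 2 n) := by
  have h1 : 24 ≤ Nat.log 2 n := Nat.le_log_of_pow_le one_lt_two hn
  have h2 : 2 ^ Nat.log 2 n ≤ n := Nat.pow_log_le_self 2 (by omega)
  have h3 : n < 2 ^ (Nat.log 2 n + 1) := Nat.lt_pow_succ_log_self one_lt_two n
  generalize Nat.log 2 n = L at h1 h2 h3
  by_contra h
  have h4 : (n : ℝ) ^ 3 ≤ 16 ^ L := by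
    have : n ^ 3 ≤ 16 ^ L :=
      calc n ^ 3 ≤ (2 ^ (L + 1)) ^ 3 := by gcongr
        _ ≤ (2 ^ 4) ^ L := by
          rw [← pow_mul, ← pow_mul]
          exact Nat.pow_le_pow_right two_pos (by omega)
    exact_mod_cast this
  have h5 := ff_lower (by omega) (by norm_num) ((not_le.1 h).trans_le h4)
  have h6 : 1024 * L ^ 2 ≤ 2 ^ (L + 1) := by
    clear h5 h4 h h2 h3
    induction L, h1 using Nat.le_induction with
    | base => norm_num
    | succ L hL ih => rw [pow_succ 2 (L + 1)]; nlinarith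
  obtain ⟨k, rfl⟩ : ∃ k, L = k + 1 := ⟨L - 1, by omega⟩
  have h7 : (2 : ℝ) ^ (k + 1) ≤ n := by exact_mod_cast h2
  have h8 : 1024 * ((k + 1 : ℕ) : ℝ) ^ 2 ≤ 2 ^ (k + 1 + 1) := by exact_mod_cast h6
  have h9 : (√2 ^ k) ^ 2 = 2 ^ k := by rw [← pow_mul, mul_comm, pow_mul, Real.sq_sqrt zero_le_two]
  rw [bb, Nat.add_sub_cancel] at h5
  rw [pow_succ, ← h9] at h7
  rw [pow_succ 2, pow_succ 2, ← h9] at h8
  have y0 : (0 : ℝ) < √2 ^ k := by positivity
  generalize √2 ^ k = y at h5 h7 h8 y0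
  have k0 : (0 : ℝ) ≤ ((k + 1 : ℕ) : ℝ) := by positivity
  generalize ((k + 1 : ℕ) : ℝ) = z at h5 h8 k0
  have h10 : y < 16 * z := by nlinarith
  nlinarith

lemma exists_win {μ n : ℕ} (hμ : 8 ≤ μ) (hn : 2 ^ 24 ≤ n)
    (h : ∀ q : ℕ, Nat.log 2 n ≤ q → (n : ℝ) ^ (2 * μ + 8) ≤ ff n q ^ μ →
      ¬ ff n (q + 1) ^ μ * (n : ℝ) ^ 8 ≤ (n : ℝ) ^ (2 * μ)) : ∃ r, r ≤ n ∧ Win μ r n := by
  have n0 : (1 : ℝ) ≤ n := by exact_mod_cast (show 1 ≤ n by omega)
  have h1 : 24 ≤ Nat.log 2 n := Nat.le_log_of_pow_le one_lt_two hn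
  have h3 : n < 2 ^ (Nat.log 2 n + 1) := Nat.lt_pow_succ_log_self one_lt_two n
  have z : ∀ t, n < t → ff n t ^ μ = 0 := fun t ht => by
    rw [ff, Nat.choose_eq_zero_of_lt ht]
    simp [show μ ≠ 0 by omega]
  have ex : ∃ j, ff n (Nat.log 2 n + j + 1) ^ μ < (n : ℝ) ^ (2 * μ + 8) :=
    ⟨n, by rw [z _ (by omega)]; positivity⟩
  have h4 : (n : ℝ) ^ (2 * μ + 8) ≤ ff n (Nat.log 2 n + Nat.find ex) ^ μ := by
    rcases hj : Nat.find ex with _ | j
    · refine le_trans ?_ (pow_le_pow_left₀ (by positivity) (ff_log hn) μ)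
      rw [← pow_mul]
      exact pow_le_pow_right₀ n0 (by omega)
    · exact not_lt.1 (Nat.find_min ex (by omega))
  have h5 := not_le.1 (h _ (Nat.le_add_right _ _) h4)
  refine ⟨_, ?_, by omega, by omega, h3.le.trans (Nat.pow_le_pow_right two_pos (by omega)), h5,
    Nat.find_spec ex⟩
  by_contra h6
  rw [z _ (not_le.1 h6), zero_mul] at h5
  exact absurd h5 (not_lt.2 (by positivity))

theorem density (P : ℕ → Prop)
    (h : ∀ μ : ℕ, 8 ≤ μ → ∃ n0 : ℕ, ∀ n ≥ n0, ∀ q : ℕ, Nat.log 2 n ≤ q →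
      (n : ℝ) ^ (2 * μ + 8) ≤ ff n q ^ μ → ff n (q + 1) ^ μ * (n : ℝ) ^ 8 ≤ (n : ℝ) ^ (2 * μ) → P n) :
    Filter.Tendsto (fun N : ℕ => (({n | n < N ∧ P n} : Set ℕ).ncard : ℝ) / N) Filter.atTop (nhds 1) := by
  classical
  have hc : ∀ N, ({n | n < N ∧ P n} : Set ℕ).ncard = ((range N).filter P).card := fun N => by
    rw [← Set.ncard_coe_finset]
    congr 1
    ext n
    simp
  refine tendsto_order.2 ⟨fun a ha => ?_, fun a ha => Filter.Eventually.of_forall fun N => ?_⟩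
  · obtain ⟨μ, hμ⟩ := exists_nat_ge (max 8 (408 * 2 ^ 32 / (1 - a)))
    have hμ8 : 8 ≤ μ := by exact_mod_cast (le_max_left _ _).trans hμ
    have m0 : (0 : ℝ) < μ := by exact_mod_cast (show 0 < μ by omega)
    obtain ⟨η, hη⟩ : ∃ η : ℝ, η = 2 ^ 32 / μ := ⟨_, rfl⟩
    have e0 : 0 < η := by rw [hη]; positivity
    have e1 : 408 * η ≤ 1 - a := by
      have := (le_max_right _ _).trans hμ
      rw [div_le_iff₀ (by linarith)] at this
      rw [hη, ← mul_div_assoc, div_le_iff₀ m0]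
      linarith
    obtain ⟨n0, h0⟩ := h μ hμ8
    obtain ⟨n1, h1⟩ := exists_nat_ge (16 / η)
    obtain ⟨n2, h2⟩ : ∃ n2, n2 = n0 + n1 + 2 ^ 24 := ⟨_, rfl⟩
    obtain ⟨n3, h3⟩ := exists_nat_gt (2 * n2 / (1 - a))
    refine Filter.eventually_atTop.2 ⟨n3 + 1, fun N hN => ?_⟩
    have N0 : (0 : ℝ) < N := by exact_mod_cast (show 0 < N by omega)
    have N1 : 2 * (n2 : ℝ) < N * (1 - a) := by
      have : (n3 : ℝ) ≤ N := by exact_mod_cast (show n3 ≤ N by omega)
      rw [← div_lt_iff₀ (by linarith)]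
      linarith
    let w : ℕ → Finset ℕ := fun r => (range N).filter fun n => Win μ r n ∧ 16 ≤ η * n
    let R := (range N).filter fun r => bb r ≤ 3 * N
    have s1 : (range N).filter (fun n => ¬ P n) ⊆ range n2 ∪ R.biUnion w := fun n hn => by
      obtain ⟨k1, k2⟩ := mem_filter.1 hn
      rw [mem_union, mem_range, or_iff_not_imp_left]
      intro k3
      obtain ⟨r, k4, k5⟩ := exists_win hμ8 (n := n) (by omega)
        fun q a1 a2 a3 => k2 (h0 n (by omega) q a1 a2 a3)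
      have k6 := mem_range.1 k1
      have k7 : (n : ℝ) ≤ N := by exact_mod_cast k6.le
      have k8 : (n1 : ℝ) ≤ n := by exact_mod_cast (show n1 ≤ n by omega)
      refine mem_biUnion.2 ⟨r, mem_filter.2 ⟨mem_range.2 (by omega), ?_⟩,
        mem_filter.2 ⟨k1, k5, ?_⟩⟩
      · linarith [(k5.bounds hμ8).1]
      · rw [div_le_iff₀ e0] at h1
        nlinarith
    have s2 : (((range N).filter fun n => ¬ P n).card : ℝ) ≤ n2 + ∑ r ∈ R, ((w r).card : ℝ) := by
      have := (card_le_card s1).trans ((card_union_le _ _).trans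
        (Nat.add_le_add_left card_biUnion_le _))
      rw [card_range] at this
      exact_mod_cast this
    have s3 : ∑ r ∈ R, ((w r).card : ℝ) ≤ 17 * η * (4 * (3 * N)) := by
      refine (sum_le_sum fun r _ => card_win hμ8 hη r _ fun n hn => (mem_filter.1 hn).2).trans ?_
      rw [← mul_sum]
      exact mul_le_mul_of_nonneg_left (sum_bb_filter _ (by positivity) N) (by positivity)
    have s4 : (((range N).filter P).card : ℝ) + ((range N).filter fun n => ¬ P n).card = N := by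
      rw [← Nat.cast_add, card_filter_add_card_filter_not, card_range]
    rw [hc, lt_div_iff₀ N0]
    nlinarith
  · refine lt_of_le_of_lt (div_le_one_of_le₀ ?_ (Nat.cast_nonneg N)) ha
    rw [hc]
    exact_mod_cast (card_filter_le _ _).trans (card_range N).le

end Pool.Agent.P.MP_8e94e3_co
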