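import Pool.Agent.P.MP_8e94e3_co.Num
import Pool.Agent.P.MP_8e94e3_co.Breaker

set_option autoImplicit false
set_option linter.unusedSectionVars false

namespace Pool.Agent.P.MP_8e94e3_co

open Finset

lemma EE_eq (n : ℕ) (x : ℝ) (a : ℕ) : EE n x a = 2 ^ ((a + 1).choose 2) * x ^ a / (n : ℝ) ^ a := by
  unfold EE; rw [div_pow]; ring

namespace Par

variable {n μ L q : ℕ} {u : ℝ} (h : Par n μ L q u)
include h

lemma tau_ge : 1 ≤ ff n q / (n : ℝ) ^ 2 := by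
  rw [one_le_div (by have := h.npos'; positivity)]; exact h.F_ge

lemma high_part : (pp μ : ℝ) * (9 * (xx μ L : ℝ) ^ 8) ≤ u / 4 := by
  have h1 := h.big 6 9 (by omega) (by omega)
  have h2 := h.p_le_x
  have h3 : (pp μ : ℝ) ≤ xx μ L := by
    have : (0 : ℝ) ≤ pp μ := by positivity
    linarith
  have h4 := h.x1
  calc (pp μ : ℝ) * (9 * (xx μ L : ℝ) ^ 8) ≤ xx μ L * (9 * (xx μ L : ℝ) ^ 8) := by gcongr
    _ = 9 * (xx μ L : ℝ) ^ 9 := by ring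
    _ ≤ _ := by
      have : (0 : ℝ) ≤ (xx μ L : ℝ) ^ 9 := by positivity
      linarith

lemma MM2_le (X : Finset (Fin n)) (hX : X ∈ QS n 2) :
    MM q (pp μ) X ∅ ∅ ≤ (u * (ff n q / (n : ℝ) ^ 2) / 2) ^ pp μ := by
  have hq1 : 1 ≤ q := by have := h.hq; have := h.hL; have := h.hμ; omega
  have hx := h.x1
  have hF := ff_nonneg n q
  refine ((h.reg q le_rfl (by omega)).MM_le hq1
    (by have := h.hL; have := h.hμ; unfold pp; omega) h.x_maker X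
    (by rw [mem_QS.1 hX]; norm_num)).trans ?_
  rw [mem_QS.1 hX]
  refine pow_le_pow_left₀ (by have := EE_nonneg n (x := xx μ L) (by positivity) 2; positivity) ?_ _
  have h1 := h.high_part
  have h2 := h.tau_ge
  have h3 : ((L : ℝ) + 1) * (ff n q * EE n (xx μ L) 2) ≤ u / 4 * (ff n q / (n : ℝ) ^ 2) := by
    rw [EE_eq]
    have h4 := h.big 5 3 (by omega) (by omega)
    have h5 := h.L_le_x
    calc ((L : ℝ) + 1) * (ff n q * (2 ^ ((2 + 1).choose 2) * (xx μ L : ℝ) ^ 2 / (n : ℝ) ^ 2))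
        = (((L : ℝ) + 1) * (8 * (xx μ L : ℝ) ^ 2)) * (ff n q / (n : ℝ) ^ 2) := by
          norm_num [Nat.choose]; ring
      _ ≤ ((xx μ L : ℝ) * (8 * (xx μ L : ℝ) ^ 2)) * (ff n q / (n : ℝ) ^ 2) := by gcongr
      _ ≤ _ := by gcongr; linarith
  have h4 : u / 4 ≤ u / 4 * (ff n q / (n : ℝ) ^ 2) :=
    le_mul_of_one_le_right (by have := h.hu; positivity) h2
  linarith

lemma MM3_le (X : Finset (Fin n)) (hX : X ∈ QS n 3) : MM q (pp μ) X ∅ ∅ ≤ (u / 2) ^ pp μ := by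
  have hq1 : 1 ≤ q := by have := h.hq; have := h.hL; have := h.hμ; omega
  have hx := h.x1
  have hF := ff_nonneg n q
  have hn := h.npos'
  refine ((h.reg q le_rfl (by omega)).MM_le hq1
    (by have := h.hL; have := h.hμ; unfold pp; omega) h.x_maker X
    (by rw [mem_QS.1 hX])).trans ?_
  rw [mem_QS.1 hX]
  refine pow_le_pow_left₀ (by have := EE_nonneg n (x := xx μ L) (by positivity) 3; positivity) ?_ _
  have h1 := h.high_part
  have h2 : ff n q / (n : ℝ) ^ 3 ≤ 1 := by rw [div_le_one (by positivity)]; exact h.F_le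
  have h3 : ((L : ℝ) + 1) * (ff n q * EE n (xx μ L) 3) ≤ u / 4 := by
    rw [EE_eq]
    have h4 := h.big 8 4 (by omega) (by omega)
    have h5 := h.L_le_x
    calc ((L : ℝ) + 1) * (ff n q * (2 ^ ((3 + 1).choose 2) * (xx μ L : ℝ) ^ 3 / (n : ℝ) ^ 3))
        = (((L : ℝ) + 1) * (64 * (xx μ L : ℝ) ^ 3)) * (ff n q / (n : ℝ) ^ 3) := by
          norm_num [Nat.choose]; ring
      _ ≤ ((xx μ L : ℝ) * (64 * (xx μ L : ℝ) ^ 3)) * 1 := by gcongr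
      _ ≤ _ := by linarith
  linarith

lemma BB_le : BB n q ∅ ∅ ≤ 1 / (4 * u ^ 3) := by
  have hx := h.x1
  have hF := ff_nonneg n q
  have hn := h.npos'
  have hu := h.hu
  have hu1 := h.u1
  refine (h.reg q le_rfl (by omega)).BB_le.trans ?_
  rw [EE_eq, EE_eq]
  have h1 : (q : ℝ) + 1 ≤ xx μ L := by have := h.r_le_x; push_cast at this; linarith
  have h2 := h.F_le
  have h3 := h.big 37 9 (by omega) (by omega)
  have h4 : (2 : ℝ) ^ 15 * (xx μ L : ℝ) ^ 5 ≤ 2 ^ 36 * (xx μ L : ℝ) ^ 8 := by gcongr <;> norm_num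
  have h5 : 4 * u ^ 4 ≤ (n : ℝ) ^ 2 := by
    have h6 : 4 * u ^ 4 ≤ u ^ 8 := by
      have : (4 : ℝ) ≤ u ^ 4 := le_trans (by have := h.u_ge; linarith)
        (le_self_pow₀ hu1 (by norm_num))
      nlinarith [pow_pos hu 4]
    exact h6.trans (h.u8.trans (le_self_pow₀ h.n1 (by norm_num)))
  calc ff n q * (((q : ℝ) + 1) * (ff n q * (2 ^ ((8 + 1).choose 2) * (xx μ L : ℝ) ^ 8 / (n : ℝ) ^ 8)
        + 2 ^ ((5 + 1).choose 2) * (xx μ L : ℝ) ^ 5 / (n : ℝ) ^ 5))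
      ≤ (n : ℝ) ^ 3 * ((xx μ L : ℝ) * ((n : ℝ) ^ 3 * (2 ^ ((8 + 1).choose 2) * (xx μ L : ℝ) ^ 8 /
          (n : ℝ) ^ 8) + 2 ^ ((5 + 1).choose 2) * (xx μ L : ℝ) ^ 5 / (n : ℝ) ^ 5)) := by gcongr
    _ = (xx μ L : ℝ) * (2 ^ 36 * (xx μ L : ℝ) ^ 8 + 2 ^ 15 * (xx μ L : ℝ) ^ 5) / (n : ℝ) ^ 2 := by
        norm_num [Nat.choose]; field_simp
    _ ≤ (xx μ L : ℝ) * (2 ^ 36 * (xx μ L : ℝ) ^ 8 + 2 ^ 36 * (xx μ L : ℝ) ^ 8) / (4 * u ^ 4) := by
        gcongr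
    _ = 2 ^ 37 * (xx μ L : ℝ) ^ 9 / (4 * u ^ 4) := by ring
    _ ≤ u / (4 * u ^ 4) := by gcongr
    _ = _ := by field_simp

lemma PS_le : PS n q (pp μ) (u ^ 2 * (ff n q / (n : ℝ) ^ 2)) (u ^ 3) ∅ ∅ ≤ 3 * (ff n q / u) := by
  have hn := h.npos'
  have hu := h.hu
  have hu1 := h.u1
  have hτ := h.tau_ge
  set τ := ff n q / (n : ℝ) ^ 2 with hτdef
  have hFτ : ff n q = τ * n ^ 2 := by rw [hτdef]; field_simp
  have hτ0 : 0 < τ := by linarith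
  have h1 : ∑ X ∈ QS n 2, MM q (pp μ) X ∅ ∅ ≤ (n : ℝ) ^ 2 * (u * τ / 2) ^ pp μ := by
    refine (sum_le_card_nsmul _ _ _ fun X hX => h.MM2_le X hX).trans ?_
    rw [nsmul_eq_mul, card_QS]
    exact mul_le_mul_of_nonneg_right (choose_le_pow' _ _) (by positivity)
  have h2 : ∑ X ∈ QS n 3, MM q (pp μ) X ∅ ∅ ≤ (n : ℝ) ^ 3 * (u / 2) ^ pp μ := by
    refine (sum_le_card_nsmul _ _ _ fun X hX => h.MM3_le X hX).trans ?_
    rw [nsmul_eq_mul, card_QS]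
    exact mul_le_mul_of_nonneg_right (choose_le_pow' _ _) (by positivity)
  have h3 := h.BB_le
  have e1 : (2 ^ pp μ * (n : ℝ) ^ 2 / (u ^ 2 * τ) ^ (pp μ - 1)) *
      ((n : ℝ) ^ 2 * (u * τ / 2) ^ pp μ) = τ * n ^ 2 / u := by
    rw [show pp μ - 1 = 2 * μ + 2 by unfold pp; omega, ← h.hun]
    unfold pp
    rw [div_pow, mul_pow, mul_pow]
    field_simp
    ring
  have e2 : (2 * 2 ^ pp μ * (n : ℝ) ^ 2 * (u ^ 2 * τ) / (u ^ 3) ^ pp μ) *
      ((n : ℝ) ^ 3 * (u / 2) ^ pp μ) = (τ * n ^ 2 / u) * (2 / (n * u ^ 3)) := by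
    rw [← h.hun]
    unfold pp
    rw [div_pow]
    field_simp
    ring
  have e3 : 2 / ((n : ℝ) * u ^ 3) ≤ 1 := by
    rw [div_le_one (by positivity)]
    have := h.u_ge
    have := h.un
    have := one_le_pow₀ (n := 3) hu1
    nlinarith
  have e4 : (4 * (n : ℝ) ^ 2 * (u ^ 2 * τ)) * (1 / (4 * u ^ 3)) = τ * n ^ 2 / u := by field_simp
  have a1 := mul_le_mul_of_nonneg_left h1
    (show 0 ≤ 2 ^ pp μ * (n : ℝ) ^ 2 / (u ^ 2 * τ) ^ (pp μ - 1) by positivity)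
  have a2 := mul_le_mul_of_nonneg_left h2
    (show 0 ≤ 2 * 2 ^ pp μ * (n : ℝ) ^ 2 * (u ^ 2 * τ) / (u ^ 3) ^ pp μ by positivity)
  have a3 := mul_le_mul_of_nonneg_left h3 (show 0 ≤ 4 * (n : ℝ) ^ 2 * (u ^ 2 * τ) by positivity)
  have a4 := mul_le_mul_of_nonneg_left e3 (show 0 ≤ τ * n ^ 2 / u by positivity)
  unfold PS
  rw [hFτ]
  linarith

lemma f_div : ff n (q + 1) / (n : ℝ) ^ 2 ≤ 1 / u ^ 8 := by
  have hn := h.npos'
  have hu := h.hu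
  rw [div_le_div_iff₀ (by positivity) (by positivity), one_mul]; exact h.hf

lemma inv_le (a b : ℕ) (hab : a + 1 ≤ b) : u * (1 / u ^ b) ≤ 1 / u ^ a := by
  have hu := h.hu
  rw [mul_one_div, div_le_div_iff₀ (by positivity) (by positivity), one_mul, ← pow_succ']
  exact pow_le_pow_right₀ h.u1 hab

lemma T1_le : (2 ^ DD μ / (⌈(n : ℝ) ^ 2 / u ^ 3⌉₊ : ℝ)) * TT n (q + 1) ∅ ∅ ≤ 1 / u ^ 4 := by
  have hn := h.npos'
  have hu := h.hu
  have hf := ff_nonneg n (q + 1)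
  have h1 := Nat.le_ceil ((n : ℝ) ^ 2 / u ^ 3)
  have h2 : (2 : ℝ) ^ DD μ ≤ u := by simpa using h.big (DD μ) 0 (by omega) (by omega)
  rw [TT_empty]
  calc (2 ^ DD μ / (⌈(n : ℝ) ^ 2 / u ^ 3⌉₊ : ℝ)) * ff n (q + 1)
      ≤ (u / ((n : ℝ) ^ 2 / u ^ 3)) * ff n (q + 1) := by gcongr
    _ = u ^ 4 * (ff n (q + 1) / (n : ℝ) ^ 2) := by field_simp
    _ ≤ u ^ 4 * (1 / u ^ 8) := mul_le_mul_of_nonneg_left h.f_div (by positivity)
    _ = _ := by field_simp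

lemma T2_le : 2 ^ (2 * DD μ) * Th2 n (q + 1) ∅ ∅ ≤ 1 / u ^ 4 := by
  have hn := h.npos'
  have hu := h.hu
  have hx := h.x1
  have hf := ff_nonneg n (q + 1)
  have h1 := (h.reg (q + 1) (by omega) le_rfl).Th2_le
  rw [EE_eq, EE_eq] at h1
  have h2 := h.f_div
  have h3 : ff n (q + 1) / (n : ℝ) ^ 2 ≤ 1 := by
    rw [div_le_one (by positivity)]; exact h.f_le
  have h4 := h.r_le_x
  have h5 := h.big (2 * DD μ + 11) 5 (by omega) (by omega)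
  have h6 : (8 : ℝ) * (xx μ L : ℝ) ^ 2 ≤ 2 ^ 10 * (xx μ L : ℝ) ^ 4 := by gcongr <;> norm_num
  calc 2 ^ (2 * DD μ) * Th2 n (q + 1) ∅ ∅ ≤ _ := mul_le_mul_of_nonneg_left h1 (by positivity)
    _ = 2 ^ (2 * DD μ) * ((((q + 1 : ℕ) : ℝ) + 1) * ((ff n (q + 1) / (n : ℝ) ^ 2) *
          (2 ^ 10 * (xx μ L : ℝ) ^ 4) + 8 * (xx μ L : ℝ) ^ 2)) * (ff n (q + 1) / (n : ℝ) ^ 2) := by
        norm_num [Nat.choose]; field_simp
    _ ≤ 2 ^ (2 * DD μ) * ((xx μ L : ℝ) * (1 * (2 ^ 10 * (xx μ L : ℝ) ^ 4) +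
          2 ^ 10 * (xx μ L : ℝ) ^ 4)) * (1 / u ^ 8) := by gcongr
    _ = (2 ^ (2 * DD μ + 11) * (xx μ L : ℝ) ^ 5) * (1 / u ^ 8) := by ring
    _ ≤ u * (1 / u ^ 8) := by gcongr
    _ ≤ _ := h.inv_le 4 8 (by norm_num)

lemma T3_le : 2 ^ (3 * DD μ) * Th3 n (q + 1) ∅ ∅ ≤ 1 / u ^ 4 := by
  have hn := h.npos'
  have hu := h.hu
  have hx := h.x1
  have hf := ff_nonneg n (q + 1)
  have h1 := (h.reg (q + 1) (by omega) le_rfl).Th3_le (by omega)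
  rw [EE_eq] at h1
  have h2 := h.f_div
  have h5 := h.big (3 * DD μ + 2) 2 (by unfold DD ll kk; omega) (by omega)
  calc 2 ^ (3 * DD μ) * Th3 n (q + 1) ∅ ∅ ≤ _ := mul_le_mul_of_nonneg_left h1 (by positivity)
    _ = (2 ^ (3 * DD μ + 2) * (xx μ L : ℝ) ^ 2) * (ff n (q + 1) / (n : ℝ) ^ 2) := by
        norm_num [Nat.choose]; field_simp; ring
    _ ≤ u * (1 / u ^ 8) := by gcongr
    _ ≤ _ := h.inv_le 4 8 (by norm_num)

lemma Ch_le {m : ℕ} (hm : m ≤ μ * (2 * L + 10)) :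
    Ch n (q + 1) m ∅ ∅ ≤ u ^ (2 * μ) * (1 / u ^ 6) ^ m := by
  have hn := h.npos'
  have hn1 := h.n1
  have hu := h.hu
  have hx := h.x1
  have hf := ff_nonneg n (q + 1)
  have hE := EE_nonneg n (x := xx μ L) (by positivity) (L + 1)
  have hE2 := EE_nonneg n (x := xx μ L) (by positivity) 2
  refine ((h.reg (q + 1) (by omega) le_rfl).Ch_le (by have := h.hq; omega) hm h.x_breaker).trans ?_
  have h1 : ff n (q + 1) ≤ u ^ (2 * μ) := by
    rw [mul_comm, pow_mul, h.hun]; exact h.f_le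
  have h2 : ((L : ℝ) + 1) * (ff n (q + 1) * EE n (xx μ L) 2) ≤ 1 / u ^ 6 / 2 := by
    rw [EE_eq]
    have h4 := h.big 4 3 (by omega) (by omega)
    have h5 := h.L_le_x
    have h6 := h.f_div
    have h7 := h.inv_le 6 8 (by norm_num)
    calc ((L : ℝ) + 1) * (ff n (q + 1) * (2 ^ ((2 + 1).choose 2) * (xx μ L : ℝ) ^ 2 / (n : ℝ) ^ 2))
        = (((L : ℝ) + 1) * (8 * (xx μ L : ℝ) ^ 2)) * (ff n (q + 1) / (n : ℝ) ^ 2) := by
          norm_num [Nat.choose]; ring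
      _ ≤ ((xx μ L : ℝ) * (8 * (xx μ L : ℝ) ^ 2)) * (1 / u ^ 8) := by gcongr
      _ ≤ (u / 2) * (1 / u ^ 8) := by gcongr; linarith
      _ ≤ _ := by linarith
  have h3 : ff n (q + 1) * EE n (xx μ L) (L + 1) * 2 ^ (2 * L + 3 + 3 * (μ * (2 * L + 10))) ≤
      1 / u ^ 6 / 2 := by
    have hL' : (2 : ℝ) ^ L ≤ n := by exact_mod_cast h.hL1
    have h4 := EE_top (g := 6 * μ + 7) (x := xx μ L) (by positivity) h.hL1
      (by have := h.big 4 4 (by omega) (by omega); have := h.un; linarith)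
      (by have := h.hL; have := h.hμ; omega)
    have h5 : (2 : ℝ) ^ (2 * L + 3 + 3 * (μ * (2 * L + 10))) ≤ 8 * (n : ℝ) ^ (6 * μ + 3) := by
      calc (2 : ℝ) ^ (2 * L + 3 + 3 * (μ * (2 * L + 10))) ≤ 2 ^ (3 + L * (6 * μ + 3)) :=
            pow_le_pow_right₀ (by norm_num) (by have := h.hL; nlinarith)
        _ = 8 * (2 ^ L) ^ (6 * μ + 3) := by rw [pow_add, pow_mul]; norm_num
        _ ≤ _ := by gcongr
    have h6 : 16 * u ^ 6 ≤ (n : ℝ) ^ 2 := by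
      have h7 : (16 : ℝ) ≤ u ^ 2 := le_trans (by have := h.u_ge; linarith)
        (le_self_pow₀ h.u1 (by norm_num))
      have h8 : 16 * u ^ 6 ≤ u ^ 8 := by nlinarith [pow_pos hu 6]
      exact h8.trans (h.u8.trans (le_self_pow₀ h.n1 (by norm_num)))
    calc ff n (q + 1) * EE n (xx μ L) (L + 1) * 2 ^ (2 * L + 3 + 3 * (μ * (2 * L + 10)))
        ≤ (n : ℝ) ^ 2 * EE n (xx μ L) (L + 1) * (8 * (n : ℝ) ^ (6 * μ + 3)) := by
          gcongr; exact h.f_le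
      _ = (EE n (xx μ L) (L + 1) * (n : ℝ) ^ (6 * μ + 7)) * (8 / (n : ℝ) ^ 2) := by
          field_simp; ring
      _ ≤ 1 * (8 / (16 * u ^ 6)) := by gcongr
      _ = _ := by field_simp; norm_num
  gcongr
  linarith

lemma T4_le : ∑ m ∈ Icc μ (μ * (2 * L + 10)),
    2 ^ (ll μ * (5 * m + 6) + m * DD μ) * Ch n (q + 1) m ∅ ∅ ≤ 1 / u ^ 4 := by
  have hu := h.hu
  have hu1 := h.u1
  have hD : 6 * ll μ ≤ DD μ := by unfold DD kk; nlinarith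
  have h1 : (2 : ℝ) ^ (6 * ll μ) ≤ u := by simpa using h.big (6 * ll μ) 0 (by omega) (by omega)
  have h2 : (2 : ℝ) ^ (5 * ll μ + DD μ) ≤ u := by
    simpa using h.big (5 * ll μ + DD μ) 0 (by omega) (by omega)
  have h3 : ∀ m ∈ Icc μ (μ * (2 * L + 10)),
      2 ^ (ll μ * (5 * m + 6) + m * DD μ) * Ch n (q + 1) m ∅ ∅ ≤ 1 / u ^ 5 := by
    intro m hm
    obtain ⟨h4, h5⟩ := mem_Icc.1 hm
    have h6 := h.Ch_le h5
    have h7 := (isPot_Ch n (q + 1) m).nonneg ∅ ∅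
    calc 2 ^ (ll μ * (5 * m + 6) + m * DD μ) * Ch n (q + 1) m ∅ ∅
        = (2 ^ (6 * ll μ) * (2 ^ (5 * ll μ + DD μ)) ^ m) * Ch n (q + 1) m ∅ ∅ := by
          rw [← pow_mul, ← pow_add]; congr 2; ring
      _ ≤ (u * u ^ m) * (u ^ (2 * μ) * (1 / u ^ 6) ^ m) := by gcongr
      _ = u ^ (1 + m + 2 * μ) / u ^ (6 * m) := by
          rw [one_div, inv_pow, ← pow_mul]; field_simp; ring
      _ ≤ _ := by
          rw [div_le_div_iff₀ (by positivity) (by positivity), one_mul, ← pow_add]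
          exact pow_le_pow_right₀ hu1 (by have := h.hμ; omega)
  refine (sum_le_card_nsmul _ _ _ h3).trans ?_
  rw [nsmul_eq_mul]
  refine le_trans ?_ (h.inv_le 4 5 le_rfl)
  refine mul_le_mul_of_nonneg_right (le_trans ?_ h.x_le_u) (by positivity)
  have h4 := h.x_ge
  have h5 := h.hμ
  rw [Nat.card_Icc]
  have : μ * (2 * L + 10) + 1 - μ ≤ xx μ L := by
    have : μ * (2 * L + 10) ≤ 256 * μ * (2 * L + 10) := by nlinarith
    omega
  exact_mod_cast this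

lemma T5_le : 2 ^ ((q + 1).choose 2 + μ * (2 * L + 10) * DD μ) *
    Ch n (q + 1) (μ * (2 * L + 10)) ∅ ∅ ≤ 1 / u ^ 4 := by
  have hu := h.hu
  have hu1 := h.u1
  set M := μ * (2 * L + 10) with hM
  have hμM : μ ≤ M := by rw [hM]; nlinarith
  have h1 : (2 : ℝ) ^ DD μ ≤ u := by simpa using h.big (DD μ) 0 (by omega) (by omega)
  have h2 : (2 : ℝ) ^ (q + 1).choose 2 ≤ u ^ M := by
    have hL' : (2 : ℝ) ^ L ≤ n := by exact_mod_cast h.hL1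
    have h3 : (q + 1).choose 2 ≤ L * (2 * L + 10) := by
      have h4 := choose_two_succ q
      have h5 := h.q_le
      have h6 := h.hL
      have h7 := h.hμ
      have h8 : q * (q + 1) ≤ (2 * L + 3) * (2 * L + 4) := Nat.mul_le_mul h5 (by omega)
      nlinarith
    calc (2 : ℝ) ^ (q + 1).choose 2 ≤ 2 ^ (L * (2 * L + 10)) := pow_le_pow_right₀ (by norm_num) h3
      _ ≤ (n : ℝ) ^ (2 * L + 10) := by rw [pow_mul]; gcongr
      _ = _ := by rw [hM, pow_mul, h.hun]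
  have h6 := h.Ch_le (m := M) le_rfl
  have h7 := (isPot_Ch n (q + 1) M).nonneg ∅ ∅
  calc 2 ^ ((q + 1).choose 2 + M * DD μ) * Ch n (q + 1) M ∅ ∅
      = (2 ^ ((q + 1).choose 2) * (2 ^ DD μ) ^ M) * Ch n (q + 1) M ∅ ∅ := by
        rw [← pow_mul, ← pow_add, mul_comm M]
    _ ≤ (u ^ M * u ^ M) * (u ^ (2 * μ) * (1 / u ^ 6) ^ M) := by gcongr
    _ = u ^ (M + M + 2 * μ) / u ^ (6 * M) := by
        rw [one_div, inv_pow, ← pow_mul]; field_simp; ring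
    _ ≤ _ := by
        rw [div_le_div_iff₀ (by positivity) (by positivity), one_mul, ← pow_add]
        exact pow_le_pow_right₀ hu1 (by have := h.hμ; omega)

lemma TH_le : TH n (q + 1) μ (μ * (2 * L + 10)) (ll μ) (DD μ) ⌈(n : ℝ) ^ 2 / u ^ 3⌉₊ ∅ ∅ ≤
    5 * (1 / u ^ 4) := by
  have := h.T1_le; have := h.T2_le; have := h.T3_le; have := h.T4_le; have := h.T5_le
  unfold TH; linarith

end Par

end Pool.Agent.P.MP_8e94e3_co
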