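import Pool.Agent.P.MP_8e94e3_co.Defs

set_option autoImplicit false

namespace Pool.Agent.P.MP_8e94e3_co

open Finset

section Places

variable {α : Type*} [Fintype α] [DecidableEq α]

open Classical in
/-- the entries of `l` at places of parity `p` -/
noncomputable def EP (p : ℕ) (l : List α) : Finset α :=
  univ.filter (fun e => ∃ i, ∃ h : i < l.length, i % 2 = p ∧ l[i]'h = e)

lemma mem_EP {p : ℕ} {l : List α} {e : α} :
    e ∈ EP p l ↔ ∃ i, ∃ h : i < l.length, i % 2 = p ∧ l[i]'h = e := by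
  simp [EP]

lemma EP_nil (p : ℕ) : EP p ([] : List α) = ∅ := by
  ext e; simp [mem_EP]

lemma mem_of_mem_EP {p : ℕ} {l : List α} {e : α} (h : e ∈ EP p l) : e ∈ l := by
  obtain ⟨i, hi, -, rfl⟩ := mem_EP.1 h
  exact List.getElem_mem hi

lemma EP_union (l : List α) : EP 0 l ∪ EP 1 l = l.toFinset := by
  ext e
  rw [mem_union, List.mem_toFinset]
  constructor
  · rintro (h | h) <;> exact mem_of_mem_EP h
  · intro h
    obtain ⟨i, hi, rfl⟩ := List.getElem_of_mem h
    rcases Nat.mod_two_eq_zero_or_one i with h2 | h2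
    · exact Or.inl (mem_EP.2 ⟨i, hi, h2, rfl⟩)
    · exact Or.inr (mem_EP.2 ⟨i, hi, h2, rfl⟩)

lemma EP_disjoint {l : List α} (hl : l.Nodup) : Disjoint (EP 0 l) (EP 1 l) := by
  rw [Finset.disjoint_left]
  intro e h0 h1
  obtain ⟨i, hi, hi2, rfl⟩ := mem_EP.1 h0
  obtain ⟨j, hj, hj2, hij⟩ := mem_EP.1 h1
  have := (List.Nodup.getElem_inj_iff hl).1 hij
  omega

lemma EP_take_succ_eq {p : ℕ} {l : List α} {j : ℕ} (hj : j < l.length) (hp : j % 2 = p) :
    EP p (l.take (j + 1)) = insert (l[j]'hj) (EP p (l.take j)) := by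
  ext e
  simp only [mem_insert, mem_EP, List.length_take, List.getElem_take]
  constructor
  · rintro ⟨i, hi, h2, rfl⟩
    by_cases hij : i = j
    · subst hij; exact Or.inl rfl
    · exact Or.inr ⟨i, by omega, h2, rfl⟩
  · rintro (rfl | ⟨i, hi, h2, rfl⟩)
    · exact ⟨j, by omega, hp, rfl⟩
    · exact ⟨i, by omega, h2, rfl⟩

lemma EP_take_succ_ne {p : ℕ} {l : List α} {j : ℕ} (hj : j < l.length) (hp : j % 2 ≠ p) :
    EP p (l.take (j + 1)) = EP p (l.take j) := by
  ext e
  simp only [mem_EP, List.length_take, List.getElem_take]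
  constructor
  · rintro ⟨i, hi, h2, rfl⟩
    have hij : i ≠ j := by rintro rfl; exact hp h2
    exact ⟨i, by omega, h2, rfl⟩
  · rintro ⟨i, hi, h2, rfl⟩
    exact ⟨i, by omega, h2, rfl⟩

lemma getElem_not_mem_take {l : List α} (hl : l.Nodup) {j : ℕ} (hj : j < l.length) :
    l[j]'hj ∉ l.take j := by
  intro h
  obtain ⟨i, hi, hij⟩ := List.getElem_of_mem h
  rw [List.getElem_take] at hij
  have := (List.Nodup.getElem_inj_iff hl).1 hij
  rw [List.length_take] at hi
  omega

end Places

theorem bobWins_of_good (n q : ℕ) (hn : 0 < n)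
    (Good : Finset (Sym2 (Fin n)) → Finset (Sym2 (Fin n)) → Prop)
    (W : Finset (Sym2 (Fin n)) → Prop)
    (hW : ∀ B, W B → (∃ Q : Finset (Fin n), Q.card = q ∧ KE Q ⊆ B) ∧
      ∀ R : Finset (Fin n), R.card = q + 1 → ¬ Disjoint (KE R) B)
    (h0 : Good ∅ ∅)
    (hfin : ∀ A B, Good A B → A ∪ B = KE Finset.univ → W B)
    (hstep : ∀ A B y, Good A B → y ∈ KE Finset.univ → y ∉ A → y ∉ B →
      (insert y A ∪ B = KE Finset.univ → W B) ∧
      (insert y A ∪ B ≠ KE Finset.univ →
        ∃ x ∈ KE Finset.univ, x ∉ insert y A ∧ x ∉ B ∧ Good (insert y A) (insert x B))) :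
    BobWins n := by
  classical
  let z : Fin n := ⟨0, hn⟩
  let P : List (Sym2 (Fin n)) → Sym2 (Fin n) → Prop := fun l x =>
    x ∈ KE (univ : Finset (Fin n)) ∧ x ∉ EP 0 l ∧ x ∉ EP 1 l ∧ Good (EP 0 l) (insert x (EP 1 l))
  let σ : List (Sym2 (Fin n)) → Sym2 (Fin n) := fun l =>
    if h : ∃ x, P l x then h.choose else s(z, z)
  have hσ : ∀ l, (∃ x, P l x) → P l (σ l) := by
    intro l h
    have : σ l = h.choose := dif_pos h
    rw [this]; exact h.choose_spec
  have hcard : (KE (univ : Finset (Fin n))).card = n.choose 2 := by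
    rw [card_KE, card_univ, Fintype.card_fin]
  -- one move of the first player from a good position
  have hmove : ∀ l : List (Sym2 (Fin n)), l.Nodup → (∀ e ∈ l, ¬ e.IsDiag) → ∀ k,
      2 * k < l.length → Good (EP 0 (l.take (2 * k))) (EP 1 (l.take (2 * k))) →
      ((l.take (2 * k + 1)).toFinset = KE univ → W (EP 1 (l.take (2 * k + 1)))) ∧
      ((l.take (2 * k + 1)).toFinset ≠ KE univ → ∃ x, P (l.take (2 * k + 1)) x) := by
    intro l hl hd k hk hg
    have hA : EP 0 (l.take (2 * k + 1)) = insert (l[2 * k]'hk) (EP 0 (l.take (2 * k))) :=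
      EP_take_succ_eq hk (by omega)
    have hB : EP 1 (l.take (2 * k + 1)) = EP 1 (l.take (2 * k)) :=
      EP_take_succ_ne hk (by omega)
    have hy := getElem_not_mem_take hl hk
    have := hstep _ _ (l[2 * k]'hk) hg (mem_KE_univ.2 (hd _ (List.getElem_mem hk)))
      (fun h => hy (mem_of_mem_EP h)) (fun h => hy (mem_of_mem_EP h))
    rw [← hA, ← hB, EP_union] at this
    refine ⟨this.1, fun hne => ?_⟩
    obtain ⟨x, hx1, hx2, hx3, hx4⟩ := this.2 hne
    exact ⟨x, hx1, hx2, hx3, hx4⟩
  have hinv : ∀ l : List (Sym2 (Fin n)), l.Nodup → (∀ e ∈ l, ¬ e.IsDiag) →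
      (∀ i (h : i < l.length), i % 2 = 1 → l[i]'h = σ (l.take i)) → ∀ k, 2 * k ≤ l.length →
      Good (EP 0 (l.take (2 * k))) (EP 1 (l.take (2 * k))) := by
    intro l hl hd hc k
    induction k with
    | zero => intro _; simpa [EP_nil] using h0
    | succ k ih =>
      intro hk
      have hk1 : 2 * k + 1 < l.length := by omega
      have hne : (l.take (2 * k + 1)).toFinset ≠ KE univ := by
        intro h
        have h1 : l[2 * k + 1]'hk1 ∈ KE (univ : Finset (Fin n)) :=
          mem_KE_univ.2 (hd _ (List.getElem_mem hk1))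
        rw [← h, List.mem_toFinset] at h1
        exact getElem_not_mem_take hl hk1 h1
      have hp := hσ _ ((hmove l hl hd k (by omega) (ih (by omega))).2 hne)
      have hA : EP 0 (l.take (2 * k + 1 + 1)) = EP 0 (l.take (2 * k + 1)) :=
        EP_take_succ_ne hk1 (by omega)
      have hB : EP 1 (l.take (2 * k + 1 + 1)) =
          insert (l[2 * k + 1]'hk1) (EP 1 (l.take (2 * k + 1))) :=
        EP_take_succ_eq hk1 (by omega)
      have e : 2 * (k + 1) = 2 * k + 1 + 1 := by ring
      rw [e, hA, hB, hc _ hk1 (by omega)]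
      exact hp.2.2.2
  refine ⟨σ, ?_, ?_⟩
  · intro l hl hd hc hodd hlt
    obtain ⟨k, hk⟩ : ∃ k, l.length = 2 * k + 1 := ⟨l.length / 2, by omega⟩
    have ht : l.take (2 * k + 1) = l := by rw [← hk]; exact List.take_length
    have hm := (hmove l hl hd k (by omega) (hinv l hl hd hc k (by omega))).2
    rw [ht] at hm
    have hne : l.toFinset ≠ KE univ := by
      intro h
      have := List.toFinset_card_of_nodup hl
      rw [h, hcard] at this
      omega
    have hp := hσ _ (hm hne)
    refine ⟨mem_KE_univ.1 hp.1, fun h => ?_⟩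
    have h2 : σ l ∈ EP 0 l ∪ EP 1 l := by rw [EP_union, List.mem_toFinset]; exact h
    rcases mem_union.1 h2 with h3 | h3
    · exact hp.2.1 h3
    · exact hp.2.2.1 h3
  · intro l hl hd hc hlen k hB
    have hall : l.toFinset = KE univ := by
      apply eq_of_subset_of_card_le
      · intro e he
        exact mem_KE_univ.2 (hd e (List.mem_toFinset.1 he))
      · rw [hcard, List.toFinset_card_of_nodup hl, hlen]
    have hw : W (EP 1 l) := by
      rcases Nat.mod_two_eq_zero_or_one l.length with h2 | h2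
      · obtain ⟨j, hj⟩ : ∃ j, l.length = 2 * j := ⟨l.length / 2, by omega⟩
        have ht : l.take (2 * j) = l := by rw [← hj]; exact List.take_length
        have hg := hinv l hl hd hc j (by omega)
        rw [ht] at hg
        exact hfin _ _ hg (by rw [EP_union, hall])
      · obtain ⟨j, hj⟩ : ∃ j, l.length = 2 * j + 1 := ⟨l.length / 2, by omega⟩
        have ht : l.take (2 * j + 1) = l := by rw [← hj]; exact List.take_length
        have hm := (hmove l hl hd j (by omega) (hinv l hl hd hc j (by omega))).1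
        rw [ht] at hm
        exact hm hall
    obtain ⟨⟨Q, hQ, hQB⟩, hR⟩ := hW _ hw
    have hqk : q + 1 ≤ k := by
      by_contra hlt
      have hfree := hB.mono (show k ≤ q by omega)
      refine hfree Q ⟨?_, hQ⟩
      intro a ha b hb hab
      rw [SimpleGraph.fromEdgeSet_adj]
      refine ⟨?_, hab⟩
      exact mem_EP.1 (hQB (mk_mem_KE.2 ⟨ha, hb, hab⟩))
    refine SimpleGraph.CliqueFree.mono hqk ?_
    intro R hRc
    refine hR R hRc.2 ?_
    refine Disjoint.mono_left ?_ (EP_disjoint hl)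
    intro e he
    induction e using Sym2.ind with
    | h a b =>
      obtain ⟨ha, hb, hab⟩ := mk_mem_KE.1 he
      have := hRc.1 ha hb hab
      rw [SimpleGraph.fromEdgeSet_adj] at this
      exact mem_EP.2 this.1

end Pool.Agent.P.MP_8e94e3_co
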