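import Pool.Agent.P.MP_8e94e3_co.Est
import Pool.Agent.P.MP_8e94e3_co.Game
import Pool.Agent.P.MP_8e94e3_co.Dens

set_option autoImplicit false
set_option linter.unusedSectionVars false

namespace Pool.Agent.P.MP_8e94e3_co

open Finset

namespace Par

variable {n μ L q : ℕ} {u : ℝ} (h : Par n μ L q u)
include h

lemma q2 : 2 ≤ q := by have := h.hq; have := h.hL; have := h.hμ; omega

lemma n2 : 2 ≤ n := by have := h.two_r; omega

lemma beta2_ge : 4 * (pp μ : ℝ) ≤ u ^ 2 * (ff n q / (n : ℝ) ^ 2) := by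
  have h1 := h.p_le_x
  have h2 := h.x_le_u
  have h3 := le_self_pow₀ h.u1 (show 2 ≠ 0 by norm_num)
  have h4 := le_mul_of_one_le_right (show 0 ≤ u ^ 2 by positivity) h.tau_ge
  linarith

lemma beta3_ge : 2 * ((pp μ : ℝ) + 1) ≤ u ^ 3 := by
  have h1 := h.p_le_x
  have h2 := h.x_le_u
  have h3 := le_self_pow₀ h.u1 (show 3 ≠ 0 by norm_num)
  have : (0 : ℝ) ≤ pp μ := by positivity
  linarith

lemma beta2_le : u ^ 2 * (ff n q / (n : ℝ) ^ 2) ≤ ff n q / u := by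
  have hu := h.hu
  have hn := h.npos'
  have hF := ff_nonneg n q
  have h1 : u ^ 3 ≤ (n : ℝ) ^ 2 :=
    (pow_le_pow_right₀ h.u1 (by norm_num)).trans (h.u8.trans (le_self_pow₀ h.n1 (by norm_num)))
  calc u ^ 2 * (ff n q / (n : ℝ) ^ 2) ≤ u ^ 2 * (ff n q / u ^ 3) := by gcongr
    _ = _ := by field_simp

lemma F_pos : 0 < ff n q := lt_of_lt_of_le (by have := h.npos'; positivity) h.F_ge

lemma F_div : 20 * (ff n q / u) ≤ ff n q := by
  have h1 := h.u_ge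
  have h2 := h.F_pos
  rw [← mul_div_assoc, div_le_iff₀ h.hu]
  nlinarith

/-- the data for the strategy -/
noncomputable def setup : Setup (Sym2 (Fin n)) (Finset (Fin n)) where
  Ω := KE univ
  RR := QS n (q + 1)
  K := KE
  T := TT n q
  Ψ := PS n q (pp μ) (u ^ 2 * (ff n q / (n : ℝ) ^ 2)) (u ^ 3)
  Θ := TH n (q + 1) μ (μ * (2 * L + 10)) (ll μ) (DD μ) ⌈(n : ℝ) ^ 2 / u ^ 3⌉₊
  BW := fun B => ∃ Q : Finset (Fin n), Q.card = q ∧ KE Q ⊆ B
  l := ll μ
  k := kk μ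
  D := DD μ
  cm := ⌈(n : ℝ) ^ 2 / u ^ 3⌉₊
  β2 := u ^ 2 * (ff n q / (n : ℝ) ^ 2)
  β3 := u ^ 3
  ν := 2 * (n : ℝ) ^ 2 * (u ^ 2 * (ff n q / (n : ℝ) ^ 2))
  Φ1 := ff n q - 5 * (ff n q / u)
  hK := fun R _ => KE_mono (subset_univ _)
  hKl := fun R hR => by
    rw [card_KE, mem_QS.1 hR]
    have h1 := choose_two_succ q
    have h2 := h.hq
    have h3 := h.hL
    have h4 := h.hμ
    unfold ll kk
    nlinarith
  hl := le_rfl
  hD := le_rfl
  hT := isPot_TT n q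
  hΨ := isPot_PS n q _ (by have := h.F_pos; positivity) (by have := h.hu; positivity)
  hΘ := isPot_TH _ _ _ _ _ _ _
  hβ2 := by have := h.F_pos; positivity
  hβ3 := by have := h.hu; positivity
  hν := by have := h.F_pos; have := h.hu; have := h.npos'; positivity
  BW_mono := fun B B' hB ⟨Q, h1, h2⟩ => ⟨Q, h1, h2.trans hB⟩
  T_pos := fun o x hT => by
    obtain ⟨Q, h1, h2⟩ := TT_pos hT
    exact ⟨KE Q, KE_mono (subset_univ _), h2, Q, h1, subset_rfl⟩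
  T_ctl := TT_ctl h.q2 h.n2 (by unfold pp; omega) h.beta2_ge h.beta3_ge
  wit := fun s O X h1 h2 hθ => by
    have hE : Em (q + 1) (DD μ) s O X :=
      ⟨fun i hi => mem_QS.1 (h1 i hi).1, fun i hi => (h1 i hi).2.1,
        fun i hi => (h1 i hi).2.2.1.trans (h1 i hi).2.1, fun i hi => (h1 i hi).2.2.2.1,
        fun i hi => (h1 i hi).2.2.2.2.1, fun i hi => (h1 i hi).2.2.2.2.2, h2⟩
    refine hE.witness (by have := h.hq; have := h.hL; have := h.hμ; omega) ?_ hθ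
    have := h.hu; have := h.npos'
    exact Nat.ceil_pos.2 (by positivity)
  T0 := by rw [TT_empty]; exact h.F_pos
  start := fun y hy => by
    have hu := h.hu
    have hn := h.npos'
    have hF := h.F_pos
    have hFu : 0 < ff n q / u := by positivity
    have h1 := h.PS_le
    have h2 := h.F_div
    have h3 := (TT_ctl h.q2 h.n2 (by unfold pp; omega) h.beta2_ge h.beta3_ge ∅ ∅
      (by rw [TT_empty]; linarith)).2.1 y hy
    have h4 := h.beta2_le
    have h5 := (isPot_PS n q (pp μ) (β2 := u ^ 2 * (ff n q / (n : ℝ) ^ 2)) (β3 := u ^ 3)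
      (by positivity) (by positivity)).anti ∅ ∅ y
    have hθ := isPot_TH n (q + 1) μ (μ * (2 * L + 10)) (ll μ) (DD μ) ⌈(n : ℝ) ^ 2 / u ^ 3⌉₊
    have h6 := hθ.up ∅ ∅ y (by simp)
    have h7 := hθ.nonneg ∅ (insert y ∅)
    have h8 := h.TH_le
    rw [TT_empty] at h3
    simp only [insert_empty_eq] at h3 h5 h6 h7
    have h9 : TH n (q + 1) μ (μ * (2 * L + 10)) (ll μ) (DD μ) ⌈(n : ℝ) ^ 2 / u ^ 3⌉₊ {y} ∅ ≤
        10 * (1 / u ^ 4) := by linarith
    have h10 := mul_le_mul_of_nonneg_left h9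
      (show 0 ≤ 2 * (n : ℝ) ^ 2 * (u ^ 2 * (ff n q / (n : ℝ) ^ 2)) by positivity)
    have h11 : 2 * (n : ℝ) ^ 2 * (u ^ 2 * (ff n q / (n : ℝ) ^ 2)) * (10 * (1 / u ^ 4)) =
        (20 * (ff n q / u)) / u / u * u := by field_simp; ring
    have h12 : (20 * (ff n q / u)) / u / u * u ≤ ff n q / u := by
      rw [div_mul_cancel₀ _ hu.ne', div_le_iff₀ hu]
      have := h.u_ge
      nlinarith
    linarith
  pos := by
    have hu := h.hu
    have hn := h.npos'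
    have hF := h.F_pos
    have hFu : 0 < ff n q / u := by positivity
    have h1 : ((KE (univ : Finset (Fin n))).card : ℝ) ≤ (n : ℝ) ^ 2 := by
      rw [card_KE, card_univ, Fintype.card_fin]; exact choose_le_pow' _ _
    have h2 : (n : ℝ) ^ 2 * u ^ 3 ≤ ff n q / u := by
      rw [le_div_iff₀ hu]
      refine le_trans ?_ h.hF
      rw [mul_assoc, ← pow_succ]
      exact mul_le_mul_of_nonneg_left (pow_le_pow_right₀ h.u1 (by norm_num)) (by positivity)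
    have h3 := (Nat.ceil_lt_add_one (show 0 ≤ (n : ℝ) ^ 2 / u ^ 3 by positivity)).le
    have h4 := mul_le_mul_of_nonneg_right h3
      (show 0 ≤ u ^ 2 * (ff n q / (n : ℝ) ^ 2) by positivity)
    have h5 : (n : ℝ) ^ 2 / u ^ 3 * (u ^ 2 * (ff n q / (n : ℝ) ^ 2)) = ff n q / u := by field_simp
    have h6 := h.beta2_le
    have h7 := h.F_div
    have h8 := mul_le_mul_of_nonneg_right h1 (show 0 ≤ u ^ 3 by positivity)
    nlinarith

theorem bobWins : BobWins n := by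
  refine bobWins_of_good n q h.npos h.setup.Good h.setup.Win ?_ h.setup.good_empty ?_ ?_
  · intro B hB
    exact ⟨hB.1, fun R hR => hB.2 R (mem_QS.2 hR)⟩
  · intro A B hG hf
    exact Setup.good_full hG hf
  · intro A B y hG hy hyA hyB
    exact Setup.good_step hG hy hyA hyB

end Par

lemma eventually_big (μ : ℕ) : ∃ L0 : ℕ, ∀ L ≥ L0,
    ((2 : ℝ) ^ (4 * DD μ + 60) * (xx μ L : ℝ) ^ 9) ^ μ ≤ 2 ^ L := by
  set C : ℝ := ((2 : ℝ) ^ (4 * DD μ + 60) * (256 * μ * 12 ^ 3) ^ 9) ^ μ with hC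
  have h1 := (tendsto_pow_const_div_const_pow_of_one_lt (27 * μ) (r := 2) (by norm_num)).const_mul C
  rw [mul_zero] at h1
  obtain ⟨L0, hL0⟩ := Filter.eventually_atTop.1 (h1.eventually (ge_mem_nhds (zero_lt_one' ℝ)))
  refine ⟨max L0 1, fun L hL => ?_⟩
  have h2 := hL0 L (le_trans (le_max_left _ _) hL)
  have h3 : 1 ≤ L := le_trans (le_max_right _ _) hL
  rw [← mul_div_assoc, div_le_one (by positivity)] at h2
  refine le_trans ?_ h2
  have h4 : (xx μ L : ℝ) ≤ 256 * μ * 12 ^ 3 * (L : ℝ) ^ 3 := by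
    have : xx μ L ≤ 256 * μ * 12 ^ 3 * L ^ 3 := by
      unfold xx
      rw [mul_assoc (256 * μ), ← mul_pow]
      gcongr
      omega
    exact_mod_cast this
  calc ((2 : ℝ) ^ (4 * DD μ + 60) * (xx μ L : ℝ) ^ 9) ^ μ
      ≤ ((2 : ℝ) ^ (4 * DD μ + 60) * (256 * μ * 12 ^ 3 * (L : ℝ) ^ 3) ^ 9) ^ μ := by gcongr
    _ = C * (L : ℝ) ^ (27 * μ) := by
        rw [hC, mul_pow _ ((L : ℝ) ^ 3), ← mul_assoc, mul_pow _ _ μ, ← pow_mul, ← pow_mul,
          show 3 * (9 * μ) = 27 * μ by ring]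

theorem bobWins_window (μ : ℕ) (hμ : 8 ≤ μ) : ∃ n0 : ℕ, ∀ n ≥ n0, ∀ q : ℕ, Nat.log 2 n ≤ q →
    (n : ℝ) ^ (2 * μ + 8) ≤ ff n q ^ μ → ff n (q + 1) ^ μ * (n : ℝ) ^ 8 ≤ (n : ℝ) ^ (2 * μ) →
    BobWins n := by
  obtain ⟨L0, hL0⟩ := eventually_big μ
  refine ⟨2 ^ (max L0 (100 * μ)), fun n hn q hq h1 h2 => ?_⟩
  have hn0 : 0 < n := lt_of_lt_of_le (by positivity) hn
  have hn' : (0 : ℝ) < n := by exact_mod_cast hn0
  have hL : max L0 (100 * μ) ≤ Nat.log 2 n := Nat.le_log_of_pow_le (by norm_num) hn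
  set u : ℝ := (n : ℝ) ^ ((μ : ℝ)⁻¹) with hu
  have hμ0 : μ ≠ 0 := by omega
  have hun : u ^ μ = n := Real.rpow_inv_natCast_pow hn'.le hμ0
  have hu0 : 0 < u := Real.rpow_pos_of_pos hn' _
  have hL1 : 2 ^ Nat.log 2 n ≤ n := Nat.pow_log_le_self 2 hn0.ne'
  have hu8 : (u ^ 8) ^ μ = (n : ℝ) ^ 8 := by rw [← pow_mul, mul_comm, pow_mul, hun]
  refine Par.bobWins (μ := μ) (L := Nat.log 2 n) (q := q) (u := u)
    ⟨hμ, hu0, hun, hL1, Nat.lt_pow_succ_log_self (by norm_num) n, hq, ?_, ?_, ?_,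
      le_trans (le_max_right _ _) hL⟩
  · refine (pow_le_pow_iff_left₀ (by positivity) (ff_nonneg _ _) hμ0).1 ?_
    rw [mul_pow, hu8, ← pow_mul, ← pow_add]; exact h1
  · refine (pow_le_pow_iff_left₀ (mul_nonneg (ff_nonneg _ _) (by positivity)) (by positivity)
      hμ0).1 ?_
    rw [mul_pow, hu8, ← pow_mul]; exact h2
  · refine (pow_le_pow_iff_left₀ (by positivity) hu0.le hμ0).1 ?_
    rw [hun]
    refine (hL0 _ (le_trans (le_max_left _ _) hL)).trans ?_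
    exact_mod_cast hL1

theorem density_one :
    Filter.Tendsto (fun N : ℕ => (({n | n < N ∧ BobWins n} : Set ℕ).ncard : ℝ) / N)
      Filter.atTop (nhds 1) :=
  density BobWins bobWins_window

end Pool.Agent.P.MP_8e94e3_co
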