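import Pool.Agent.P.MP_8e94e3_co.Count

set_option autoImplicit false

namespace Pool.Agent.P.MP_8e94e3_co

open Finset

lemma sum_le_sum_cover {ι β : Type*} [DecidableEq β] (A : Finset β) (s : Finset ι)
    (t : ι → Finset β) (f : β → ℝ) (hf : ∀ b, 0 ≤ f b) (h : ∀ b ∈ A, ∃ i ∈ s, b ∈ t i) :
    ∑ b ∈ A, f b ≤ ∑ i ∈ s, ∑ b ∈ t i, f b := by
  calc ∑ b ∈ A, f b ≤ ∑ b ∈ A, ∑ i ∈ s, if b ∈ t i then f b else 0 := by
        refine sum_le_sum fun b hb => ?_
        obtain ⟨i, hi, hbi⟩ := h b hb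
        have := single_le_sum (f := fun i => if b ∈ t i then f b else 0)
          (fun i _ => by split_ifs; exacts [hf b, le_rfl]) hi
        simpa [hbi] using this
    _ = ∑ i ∈ s, ∑ b ∈ A, if b ∈ t i then f b else 0 := sum_comm
    _ ≤ _ := by
        refine sum_le_sum fun i _ => ?_
        rw [← sum_filter]
        exact sum_le_sum_of_subset_of_nonneg (fun b hb => (mem_filter.1 hb).2) fun b _ _ => hf b

/-- all `t`-subsets of the vertex set -/
def QS (n t : ℕ) : Finset (Finset (Fin n)) := powersetCard t univ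

lemma mem_QS {n t : ℕ} {Q : Finset (Fin n)} : Q ∈ QS n t ↔ Q.card = t := by simp [QS]

lemma card_QS (n t : ℕ) : (QS n t).card = n.choose t := by simp [QS]

noncomputable def TT (n q : ℕ) (o x : Finset (Sym2 (Fin n))) : ℝ := ∑ Q ∈ QS n q, wt (KE Q) o x

noncomputable def TX {n : ℕ} (q : ℕ) (X : Finset (Fin n)) (o x : Finset (Sym2 (Fin n))) : ℝ :=
  ∑ Q ∈ (QS n q).filter (fun Q => X ⊆ Q), wt (KE Q) o x

def goodRel {n : ℕ} (q : ℕ) (Q Q' : Finset (Fin n)) : Prop :=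
  (Q ∩ Q').card ≤ 7 ∨ q ≤ (Q ∩ Q').card + 4

instance {n : ℕ} (q : ℕ) (Q Q' : Finset (Fin n)) : Decidable (goodRel q Q Q') := by
  unfold goodRel; infer_instance

noncomputable def MM {n : ℕ} (q p : ℕ) (X : Finset (Fin n)) :
    Finset (Sym2 (Fin n)) → Finset (Sym2 (Fin n)) → ℝ :=
  chain ((QS n q).filter (fun Q => X ⊆ Q)) (goodRel q) KE ∅ p ∅

noncomputable def BB (n q : ℕ) (o x : Finset (Sym2 (Fin n))) : ℝ :=
  ∑ Q ∈ QS n q, ∑ Q' ∈ (QS n q).filter (fun Q' => ¬ goodRel q Q' Q), wt (KE Q ∪ KE Q') o x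

noncomputable def PS (n q p : ℕ) (β2 β3 : ℝ) (o x : Finset (Sym2 (Fin n))) : ℝ :=
  (2 ^ p * n ^ 2 / β2 ^ (p - 1)) * (∑ X ∈ QS n 2, MM q p X o x) +
    (2 * 2 ^ p * n ^ 2 * β2 / β3 ^ p) * (∑ X ∈ QS n 3, MM q p X o x) +
    (4 * n ^ 2 * β2) * BB n q o x

lemma isPot_TT (n q : ℕ) : IsPot (TT n q) := isPot_sum _ _ fun _ _ => isPot_wt _

lemma isPot_MM {n : ℕ} (q p : ℕ) (X : Finset (Fin n)) : IsPot (MM q p X) := isPot_chain _ _

lemma isPot_BB (n q : ℕ) : IsPot (BB n q) :=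
  isPot_sum _ _ fun _ _ => isPot_sum _ _ fun _ _ => isPot_wt _

lemma isPot_PS (n q p : ℕ) {β2 β3 : ℝ} (h2 : 0 ≤ β2) (h3 : 0 ≤ β3) : IsPot (PS n q p β2 β3) :=
  (((isPot_sum _ _ fun X _ => isPot_MM q p X).smul (by positivity)).add
    ((isPot_sum _ _ fun X _ => isPot_MM q p X).smul (by positivity))).add
    ((isPot_BB n q).smul (by positivity))

lemma TX_nonneg {n : ℕ} (q : ℕ) (X : Finset (Fin n)) (o x : Finset (Sym2 (Fin n))) :
    0 ≤ TX q X o x := sum_nonneg fun _ _ => wt_nonneg _ _ _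

lemma MM_ge {n q p : ℕ} (X : Finset (Fin n)) (o x : Finset (Sym2 (Fin n))) {σ : ℝ} (hσ : 0 ≤ σ)
    (h : σ ≤ TX q X o x - BB n q o x - p) : σ ^ p ≤ MM q p X o x := by
  classical
  set I := (QS n q).filter (fun Q => X ⊆ Q) with hI
  set bad : Finset (Fin n) → ℝ := fun Q =>
    ∑ Q' ∈ (QS n q).filter (fun Q' => ¬ goodRel q Q' Q), wt (KE Q') o x with hbad
  set I' := I.filter (fun Q => bad Q ≤ 1) with hI'
  have h1 : TX q X o x - BB n q o x ≤ ∑ Q ∈ I', wt (KE Q) o x := by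
    have h2 : TX q X o x = ∑ Q ∈ I', wt (KE Q) o x +
        ∑ Q ∈ I.filter (fun Q => ¬ bad Q ≤ 1), wt (KE Q) o x :=
      (sum_filter_add_sum_filter_not I _ _).symm
    have h3 : ∑ Q ∈ I.filter (fun Q => ¬ bad Q ≤ 1), wt (KE Q) o x ≤ BB n q o x := by
      calc ∑ Q ∈ I.filter (fun Q => ¬ bad Q ≤ 1), wt (KE Q) o x
          ≤ ∑ Q ∈ I.filter (fun Q => ¬ bad Q ≤ 1), ∑ Q' ∈ (QS n q).filter
              (fun Q' => ¬ goodRel q Q' Q), wt (KE Q ∪ KE Q') o x := by
            refine sum_le_sum fun Q hQ => ?_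
            have h4 := (not_le.1 (mem_filter.1 hQ).2).le
            calc wt (KE Q) o x ≤ wt (KE Q) o x * bad Q :=
                  le_mul_of_one_le_right (wt_nonneg _ _ _) h4
              _ = ∑ Q' ∈ (QS n q).filter (fun Q' => ¬ goodRel q Q' Q),
                    wt (KE Q) o x * wt (KE Q') o x := by rw [hbad, mul_sum]
              _ ≤ _ := sum_le_sum fun Q' _ => wt_mul_le _ _ _ _
        _ ≤ BB n q o x :=
            sum_le_sum_of_subset_of_nonneg ((filter_subset _ _).trans (filter_subset _ _))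
              fun _ _ _ => sum_nonneg fun _ _ => wt_nonneg _ _ _
    linarith
  have h5 := chain_ge_pow (I := I) (rel := goodRel q) (S := KE) (U := ∅) o x
    (filter_subset (fun Q => bad Q ≤ 1) I) (p := p) hσ ?_ p ∅ (empty_subset _) (by simp)
  · simpa [wt, MM] using h5
  · intro s hs hsp
    have h6 : ∑ Q ∈ I', wt (KE Q) o x =
        ∑ b ∈ I'.filter (fun b => ∀ b' ∈ s, goodRel q b b'), wt (KE b) o x +
        ∑ b ∈ I'.filter (fun b => ¬ ∀ b' ∈ s, goodRel q b b'), wt (KE b) o x :=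
      (sum_filter_add_sum_filter_not I' _ _).symm
    have h7 : ∑ b ∈ I'.filter (fun b => ¬ ∀ b' ∈ s, goodRel q b b'), wt (KE b) o x ≤
        ∑ b' ∈ s, bad b' := by
      refine sum_le_sum_cover _ s (fun b' => (QS n q).filter (fun Q' => ¬ goodRel q Q' b'))
        (fun b => wt (KE b) o x) (fun _ => wt_nonneg _ _ _) ?_
      intro b hb
      obtain ⟨hb1, hb2⟩ := mem_filter.1 hb
      push Not at hb2
      obtain ⟨b', hb3, hb4⟩ := hb2
      exact ⟨b', hb3, mem_filter.2 ⟨(mem_filter.1 (mem_filter.1 hb1).1).1, hb4⟩⟩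
    have h8 : ∑ b' ∈ s, bad b' ≤ p := by
      have := sum_le_card_nsmul s bad 1 fun b hb => (mem_filter.1 (hs hb)).2
      rw [nsmul_eq_mul, mul_one] at this
      exact this.trans (by exact_mod_cast hsp.le)
    have h9 : σ ≤ ∑ b ∈ I'.filter (fun b => ∀ b' ∈ s, goodRel q b b'), wt (KE b) o x := by
      linarith
    refine h9.trans (le_of_eq (sum_congr ?_ fun _ _ => rfl))
    ext b; simp only [mem_filter, hI']

lemma TT_le_sum {n q : ℕ} (hq : 2 ≤ q) (o x : Finset (Sym2 (Fin n))) :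
    TT n q o x ≤ ∑ X ∈ QS n 2, TX q X o x := by
  refine sum_le_sum_cover _ _ (fun X => (QS n q).filter (fun Q => X ⊆ Q))
    (fun Q => wt (KE Q) o x) (fun _ => wt_nonneg _ _ _) ?_
  intro Q hQ
  obtain ⟨X, hX, hX2⟩ := exists_subset_card_eq (s := Q) (n := 2) (by rw [mem_QS.1 hQ]; exact hq)
  exact ⟨X, mem_QS.2 hX2, mem_filter.2 ⟨hQ, hX⟩⟩

lemma TX_bounds {n q p : ℕ} {β2 β3 : ℝ} (hq : 2 ≤ q) (hn : 2 ≤ n) (hp : 2 ≤ p)
    (h2 : 4 * (p : ℝ) ≤ β2) (h3 : 2 * ((p : ℝ) + 1) ≤ β3) (o x : Finset (Sym2 (Fin n)))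
    (h : PS n q p β2 β3 o x ≤ TT n q o x) :
    TT n q o x ≤ n ^ 2 * β2 ∧ (∀ X ∈ QS n 2, TX q X o x ≤ β2) ∧ ∀ X ∈ QS n 3, TX q X o x ≤ β3 := by
  have hp' : (2 : ℝ) ≤ p := by exact_mod_cast hp
  have hn' : (2 : ℝ) ≤ n := by exact_mod_cast hn
  have hβ2 : 0 < β2 := by linarith
  have hβ3 : 0 < β3 := by linarith
  have hne : (QS n 2).Nonempty := by
    rw [← card_pos, card_QS]; exact Nat.choose_pos hn
  obtain ⟨X0, hX0, hmax⟩ := exists_max_image _ (fun X => TX q X o x) hne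
  set t := TX q X0 o x with ht
  have ht0 : 0 ≤ t := TX_nonneg _ _ _ _
  have hT : TT n q o x ≤ n ^ 2 * t := by
    refine (TT_le_sum hq o x).trans ((sum_le_card_nsmul _ _ _ hmax).trans ?_)
    rw [nsmul_eq_mul, card_QS]
    exact mul_le_mul_of_nonneg_right (choose_le_pow' n 2) ht0
  have hM2 : 0 ≤ ∑ X ∈ QS n 2, MM q p X o x := sum_nonneg fun X _ => (isPot_MM q p X).nonneg o x
  have hM3 : 0 ≤ ∑ X ∈ QS n 3, MM q p X o x := sum_nonneg fun X _ => (isPot_MM q p X).nonneg o x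
  have hB : 0 ≤ BB n q o x := (isPot_BB n q).nonneg o x
  have hA1 : 0 ≤ (2 ^ p * n ^ 2 / β2 ^ (p - 1)) * (∑ X ∈ QS n 2, MM q p X o x) := by positivity
  have hA2 : 0 ≤ (2 * 2 ^ p * n ^ 2 * β2 / β3 ^ p) * (∑ X ∈ QS n 3, MM q p X o x) := by
    positivity
  have hA3 : 0 ≤ (4 * n ^ 2 * β2) * BB n q o x := by positivity
  unfold PS at h
  have hn2 : (0 : ℝ) < (n : ℝ) ^ 2 := by positivity
  have hBt : 4 * β2 * BB n q o x ≤ t := by
    have : (n : ℝ) ^ 2 * (4 * β2 * BB n q o x) ≤ n ^ 2 * t := by linarith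
    exact le_of_mul_le_mul_left this hn2
  have htβ : t ≤ β2 := by
    by_contra hc
    push Not at hc
    have h4 : 4 * BB n q o x ≤ t := by nlinarith
    have h5 := MM_ge (p := p) (q := q) X0 o x (σ := t / 2) (by linarith) (by linarith)
    have h6 : MM q p X0 o x ≤ ∑ X ∈ QS n 2, MM q p X o x :=
      single_le_sum (f := fun X => MM q p X o x) (fun X _ => (isPot_MM q p X).nonneg o x) hX0
    have h7 : (2 ^ p * n ^ 2 / β2 ^ (p - 1)) * (t / 2) ^ p ≤ n ^ 2 * t := by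
      refine le_trans (mul_le_mul_of_nonneg_left (h5.trans h6) (by positivity)) ?_
      linarith
    obtain ⟨p', rfl⟩ : ∃ p', p = p' + 1 := ⟨p - 1, by omega⟩
    rw [Nat.add_sub_cancel] at h7
    have h8 : (2 ^ (p' + 1) * n ^ 2 / β2 ^ p') * (t / 2) ^ (p' + 1) =
        (n ^ 2 * t) * (t ^ p' / β2 ^ p') := by
      rw [div_pow]; field_simp; ring
    rw [h8] at h7
    have h9 : t ^ p' / β2 ^ p' ≤ 1 := by
      have hpos : 0 < (n : ℝ) ^ 2 * t := mul_pos hn2 (by linarith)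
      exact (mul_le_iff_le_one_right hpos).1 h7
    rw [div_le_one (by positivity)] at h9
    exact absurd h9 (not_le.2 (pow_lt_pow_left₀ hc hβ2.le (by omega)))
  have hT2 : TT n q o x ≤ n ^ 2 * β2 := hT.trans (mul_le_mul_of_nonneg_left htβ hn2.le)
  refine ⟨hT2, fun X hX => (hmax X hX).trans htβ, fun X hX => ?_⟩
  by_contra hc
  push Not at hc
  have h4 : BB n q o x ≤ 1 := by nlinarith
  have h5 := MM_ge (p := p) (q := q) X o x (σ := β3 / 2) (by linarith) (by linarith)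
  have h6 : MM q p X o x ≤ ∑ X ∈ QS n 3, MM q p X o x :=
    single_le_sum (f := fun X => MM q p X o x) (fun X _ => (isPot_MM q p X).nonneg o x) hX
  have h7 : (2 * 2 ^ p * n ^ 2 * β2 / β3 ^ p) * (β3 / 2) ^ p ≤ n ^ 2 * β2 := by
    refine le_trans (mul_le_mul_of_nonneg_left (h5.trans h6) (by positivity)) ?_
    linarith
  have h8 : (2 * 2 ^ p * n ^ 2 * β2 / β3 ^ p) * (β3 / 2) ^ p = 2 * (n ^ 2 * β2) := by
    rw [div_pow]; field_simp
  have h9 : 0 < (n : ℝ) ^ 2 * β2 := by positivity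
  linarith

lemma TT_sub {n q : ℕ} (o x : Finset (Sym2 (Fin n))) (a : Sym2 (Fin n)) :
    TT n q o x - TT n q o (insert a x) =
      ∑ Q ∈ (QS n q).filter (fun Q => a ∈ KE Q), wt (KE Q) o x := by
  unfold TT
  rw [← sum_sub_distrib, sum_filter]
  refine sum_congr rfl fun Q _ => ?_
  rw [wt_insert_opp]; split_ifs <;> simp

lemma TT_round {n q : ℕ} (o x : Finset (Sym2 (Fin n))) (a b : Sym2 (Fin n)) (ha : a ∉ o) :
    TT n q (insert a o) (insert b x) = TT n q o x + (TT n q o x - TT n q o (insert a x)) -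
      (TT n q o x - TT n q o (insert b x)) -
      ∑ Q ∈ (QS n q).filter (fun Q => a ∈ KE Q ∧ b ∈ KE Q), wt (KE Q) o x := by
  unfold TT
  rw [sum_filter]
  simp only [← sum_sub_distrib, ← sum_add_distrib]
  refine sum_congr rfl fun Q _ => ?_
  rw [wt_insert_own _ _ _ _ ha]
  simp only [wt_insert_opp]
  by_cases h1 : a ∈ KE Q <;> by_cases h2 : b ∈ KE Q <;> simp [h1, h2]
  ring

lemma exists_two {n : ℕ} {a : Sym2 (Fin n)} (ha : a ∈ KE (univ : Finset (Fin n))) :
    ∃ X ∈ QS n 2, ∀ Q : Finset (Fin n), a ∈ KE Q → X ⊆ Q := by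
  induction a using Sym2.ind with
  | h u v =>
    refine ⟨{u, v}, mem_QS.2 (card_pair (mk_mem_KE.1 ha).2.2), fun Q hQ => ?_⟩
    have := mk_mem_KE.1 hQ
    exact insert_subset this.1 (singleton_subset_iff.2 this.2.1)

lemma exists_three {n : ℕ} {a b : Sym2 (Fin n)} (ha : a ∈ KE (univ : Finset (Fin n)))
    (hb : b ∈ KE (univ : Finset (Fin n))) (hab : a ≠ b) :
    ∃ X ∈ QS n 3, ∀ Q : Finset (Fin n), a ∈ KE Q → b ∈ KE Q → X ⊆ Q := by
  induction a using Sym2.ind with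
  | h u v =>
    have huv := (mk_mem_KE.1 ha).2.2
    have key : ∃ w ∈ b, w ≠ u ∧ w ≠ v := by
      induction b using Sym2.ind with
      | h c d =>
        have hcd := (mk_mem_KE.1 hb).2.2
        by_contra hc
        push Not at hc
        have h1 := hc c (by simp)
        have h2 := hc d (by simp)
        apply hab
        by_cases h3 : c = u
        · subst h3
          rw [h2 (Ne.symm hcd)]
        · have h4 := h1 h3
          subst h4
          by_cases h5 : d = u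
          · subst h5; exact Sym2.eq_swap
          · exact absurd (h2 h5).symm hcd
    obtain ⟨w, hw, hwu, hwv⟩ := key
    refine ⟨{w, u, v}, mem_QS.2 ?_, fun Q hQ hQb => ?_⟩
    · rw [card_insert_of_notMem (by simp [hwu, hwv]), card_pair huv]
    · have := mk_mem_KE.1 hQ
      exact insert_subset ((mem_KE.1 hQb).1 w hw)
        (insert_subset this.1 (singleton_subset_iff.2 this.2.1))

theorem TT_ctl {n q p : ℕ} {β2 β3 : ℝ} (hq : 2 ≤ q) (hn : 2 ≤ n) (hp : 2 ≤ p)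
    (h2 : 4 * (p : ℝ) ≤ β2) (h3 : 2 * ((p : ℝ) + 1) ≤ β3) (o x : Finset (Sym2 (Fin n)))
    (h : PS n q p β2 β3 o x ≤ TT n q o x) :
    TT n q o x < 2 * n ^ 2 * β2 ∧
      (∀ a ∈ KE (univ : Finset (Fin n)), TT n q o x - TT n q o (insert a x) ≤ β2) ∧
      ∀ a ∈ KE (univ : Finset (Fin n)), ∀ b ∈ KE (univ : Finset (Fin n)), a ≠ b → a ∉ o →
        TT n q o x + (TT n q o x - TT n q o (insert a x)) -
          (TT n q o x - TT n q o (insert b x)) - β3 ≤ TT n q (insert a o) (insert b x) := by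
  obtain ⟨h4, h5, h6⟩ := TX_bounds hq hn hp h2 h3 o x h
  have hp' : (2 : ℝ) ≤ p := by exact_mod_cast hp
  have hn' : (2 : ℝ) ≤ n := by exact_mod_cast hn
  have hβ2 : 0 < β2 := by linarith
  refine ⟨?_, fun a ha => ?_, fun a ha b hb hab hao => ?_⟩
  · have : 0 < (n : ℝ) ^ 2 * β2 := by positivity
    linarith
  · obtain ⟨X, hX, hXa⟩ := exists_two ha
    rw [TT_sub]
    refine le_trans ?_ (h5 X hX)
    refine sum_le_sum_of_subset_of_nonneg ?_ fun _ _ _ => wt_nonneg _ _ _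
    intro Q hQ
    exact mem_filter.2 ⟨(mem_filter.1 hQ).1, hXa Q (mem_filter.1 hQ).2⟩
  · obtain ⟨X, hX, hXa⟩ := exists_three ha hb hab
    rw [TT_round o x a b hao]
    have : ∑ Q ∈ (QS n q).filter (fun Q => a ∈ KE Q ∧ b ∈ KE Q), wt (KE Q) o x ≤ β3 := by
      refine le_trans ?_ (h6 X hX)
      refine sum_le_sum_of_subset_of_nonneg ?_ fun _ _ _ => wt_nonneg _ _ _
      intro Q hQ
      exact mem_filter.2 ⟨(mem_filter.1 hQ).1,
        hXa Q (mem_filter.1 hQ).2.1 (mem_filter.1 hQ).2.2⟩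
    linarith

lemma TT_pos {n q : ℕ} {o x : Finset (Sym2 (Fin n))} (h : 0 < TT n q o x) :
    ∃ Q : Finset (Fin n), Q.card = q ∧ Disjoint (KE Q) x := by
  obtain ⟨Q, hQ, h1⟩ := exists_lt_of_sum_lt (s := QS n q) (f := fun _ => (0 : ℝ))
    (g := fun Q => wt (KE Q) o x) (by simpa [TT] using h)
  exact ⟨Q, mem_QS.1 hQ, disjoint_of_wt_pos h1⟩

lemma TT_empty (n q : ℕ) : TT n q ∅ ∅ = ff n q := by
  rw [← sum_half_choose]; exact sum_congr rfl fun Q _ => wt_empty _

lemma card_small_subsets {V : Type*} [DecidableEq V] (W : Finset V) {x : ℝ} (hx1 : 1 ≤ x)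
    (hW : (W.card : ℝ) ≤ x) : ((W.powerset.filter (fun D => D.card ≤ 8)).card : ℝ) ≤ 9 * x ^ 8 := by
  have h1 : W.powerset.filter (fun D => D.card ≤ 8) ⊆
      (range 9).biUnion (fun i => powersetCard i W) := by
    intro D hD
    simp only [mem_filter, mem_powerset] at hD
    exact mem_biUnion.2 ⟨D.card, mem_range.2 (by omega), mem_powersetCard.2 ⟨hD.1, rfl⟩⟩
  have h2 := (card_le_card h1).trans card_biUnion_le
  have h3 : ((W.powerset.filter (fun D => D.card ≤ 8)).card : ℝ) ≤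
      ∑ i ∈ range 9, ((powersetCard i W).card : ℝ) := by exact_mod_cast h2
  refine h3.trans ?_
  have h4 : ∀ i ∈ range 9, ((powersetCard i W).card : ℝ) ≤ x ^ 8 := by
    intro i hi
    rw [card_powersetCard]
    calc (W.card.choose i : ℝ) ≤ (W.card : ℝ) ^ i := choose_le_pow' _ _
      _ ≤ x ^ i := by gcongr
      _ ≤ x ^ 8 := pow_le_pow_right₀ hx1 (by have := mem_range.1 hi; omega)
  simpa using sum_le_card_nsmul _ _ _ h4

open scoped symmDiff in
lemma Reg.near_sum {n L q : ℕ} {x : ℝ} (h : Reg n L q x) (W : Finset (Fin n))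
    (U : Finset (Sym2 (Fin n))) (hU : U ⊆ KE W) (hW : (W.card : ℝ) ≤ x)
    (Q' : Finset (Fin n)) (hQ' : Q'.card = q) (hQW : Q' ⊆ W) :
    ∑ Q ∈ (QS n q).filter (fun Q => q ≤ (Q ∩ Q').card + 4), (1 / 2 : ℝ) ^ (KE Q \ U).card ≤
      9 * x ^ 8 := by
  have hx0 : 0 ≤ x := by linarith [h.hx1]
  set YY := W.powerset.filter (fun Y => Y.card ≤ q ∧ q ≤ Y.card + 4 ∧ (Y ∆ Q').card ≤ 8) with hYY
  refine (trace_sum (t := q) W U hU _ YY ?_).trans ?_
  · intro Q hQ
    obtain ⟨h1, h2⟩ := mem_filter.1 hQ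
    have h3 := mem_QS.1 h1
    refine ⟨h3, mem_filter.2 ⟨mem_powerset.2 inter_subset_right, ?_, ?_, ?_⟩⟩
    · rw [← h3]; exact card_le_card inter_subset_left
    · have := card_le_card (inter_subset_inter (Subset.refl Q) hQW); omega
    · have h4 : (Q ∩ W) ∆ Q' ⊆ (Q \ Q') ∪ (Q' \ Q) := by
        intro a ha
        simp only [mem_symmDiff, mem_inter, mem_union, mem_sdiff] at ha ⊢
        rcases ha with ha | ha
        · exact Or.inl ⟨ha.1.1, ha.2⟩
        · exact Or.inr ⟨ha.1, fun hq => ha.2 ⟨hq, hQW ha.1⟩⟩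
      have h5 := (card_le_card h4).trans (card_union_le _ _)
      have h6 := card_sdiff_add_card_inter Q Q'
      have h7 := card_sdiff_add_card_inter Q' Q
      rw [inter_comm] at h7
      omega
  · have h1 : ∀ Y ∈ YY, GG n q Y.card ≤ 1 := by
      intro Y hY
      obtain ⟨h2, h3, -⟩ := (mem_filter.1 hY).2
      have h4 := high_le (w := q - Y.card) h.pos (Nat.sub_le _ _) h.hx2
      rw [show q - (q - Y.card) = Y.card by omega] at h4
      have h5 := EE_anti hx0 h.hL h.hxn (b := 0) (a := q - Y.card) (by omega) (by omega) (by omega)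
      have h6 : EE n x 0 = 1 := by simp [EE]
      have h7 : (1 : ℝ) ≤ q.choose (q - Y.card) := by
        exact_mod_cast Nat.choose_pos (Nat.sub_le _ _)
      have h8 := le_mul_of_one_le_left (GG_nonneg n q Y.card) h7
      linarith
    refine (sum_le_card_nsmul _ _ _ h1).trans ?_
    rw [nsmul_eq_mul, mul_one]
    refine le_trans ?_ (card_small_subsets W h.hx1 hW)
    norm_cast
    refine card_le_card_of_injOn (fun Y => Y ∆ Q') ?_ ?_
    · intro Y hY
      have hY' := mem_filter.1 (mem_coe.1 hY)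
      refine mem_coe.2 (mem_filter.2 ⟨mem_powerset.2 ?_, hY'.2.2.2⟩)
      intro a ha
      rcases mem_symmDiff.1 ha with ha | ha
      exacts [mem_powerset.1 hY'.1 ha.1, hQW ha.1]
    · intro Y _ Y' _ hh
      exact symmDiff_left_injective Q' hh

lemma card_inter_biUnion_le {V : Type*} [DecidableEq V] (Q : Finset V) (s : Finset (Finset V))
    {c : ℕ} (h : ∀ b ∈ s, (Q ∩ b).card ≤ c) : (Q ∩ s.biUnion id).card ≤ s.card * c := by
  rw [inter_biUnion]
  exact card_biUnion_le_card_mul _ _ _ h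

lemma biUnion_KE_subset {V : Type*} [DecidableEq V] (s : Finset (Finset V)) :
    s.biUnion KE ⊆ KE (s.biUnion id) := by
  intro e he
  obtain ⟨b, hb, h⟩ := mem_biUnion.1 he
  exact KE_mono (subset_biUnion_of_mem id hb) h

theorem Reg.MM_le {n L q p : ℕ} {x : ℝ} (h : Reg n L q x) (hq : 1 ≤ q) (hp : 7 * p + 3 ≤ L)
    (hx : 2 * q * (3 + p * q : ℝ) ≤ x) (X : Finset (Fin n)) (hX : X.card ≤ 3) :
    MM q p X ∅ ∅ ≤ ((L + 1) * (ff n q * EE n x X.card) + p * (9 * x ^ 8)) ^ p := by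
  classical
  have hx0 : 0 ≤ x := by linarith [h.hx1]
  have hA := mul_nonneg (ff_nonneg n q) (EE_nonneg n hx0 X.card)
  have h1 := chain_le (I := (QS n q).filter (fun Q => X ⊆ Q)) (rel := goodRel q) (S := KE)
    (U := ∅) (m0 := p) (σ := (L + 1) * (ff n q * EE n x X.card) + p * (9 * x ^ 8))
    (by positivity) ?_ p ∅ (empty_subset _) (by simp)
  · simpa [wt, MM] using h1
  intro s hs hsp
  set W := X ∪ s.biUnion id with hW
  have hsq : ∀ b ∈ s, b.card = q := fun b hb => mem_QS.1 (mem_filter.1 (hs hb)).1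
  have hWc : W.card ≤ 3 + p * q := by
    refine (card_union_le _ _).trans (add_le_add hX ?_)
    refine (card_biUnion_le_card_mul _ _ q fun b hb => (hsq b hb).le).trans ?_
    exact Nat.mul_le_mul_right _ hsp.le
  have hWc' : (W.card : ℝ) ≤ 3 + p * q := by exact_mod_cast hWc
  have hq' : (1 : ℝ) ≤ q := by exact_mod_cast hq
  have hWx : 2 * q * (W.card : ℝ) ≤ x := le_trans (by gcongr) hx
  have hWx' : (W.card : ℝ) ≤ x := by
    have : (0 : ℝ) ≤ W.card := by positivity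
    nlinarith
  have hU : (∅ : Finset (Sym2 (Fin n))) ∪ s.biUnion KE ⊆ KE W := by
    rw [empty_union]; exact (biUnion_KE_subset s).trans (KE_mono subset_union_right)
  set U := (∅ : Finset (Sym2 (Fin n))) ∪ s.biUnion KE
  set J := ((QS n q).filter (fun Q => X ⊆ Q)).filter (fun b => ∀ b' ∈ s, goodRel q b b') with hJ
  have h2 : ∑ b ∈ J, (1 / 2 : ℝ) ^ (KE b \ U).card ≤
      (L + 1) * (ff n q * EE n x X.card) + p * (9 * x ^ 8) := by
    rw [← sum_filter_add_sum_filter_not J (fun b => ∀ b' ∈ s, (b ∩ b').card ≤ 7)]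
    refine add_le_add ?_ ?_
    · refine h.low_sum W U hU hWx _ (by omega) fun Q hQ => ?_
      obtain ⟨h3, h4⟩ := mem_filter.1 hQ
      obtain ⟨h5, h6⟩ := mem_filter.1 (mem_filter.1 h3).1
      refine ⟨mem_QS.1 h5, card_le_card (subset_inter h6 subset_union_left), ?_⟩
      rw [hW, inter_union_distrib_left]
      refine (card_union_le _ _).trans ?_
      have h7 := card_inter_biUnion_le Q s h4
      have h8 := card_le_card (inter_subset_right (s₁ := Q) (s₂ := X))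
      omega
    · refine (sum_le_sum_cover _ s (fun b' => (QS n q).filter (fun Q => q ≤ (Q ∩ b').card + 4))
        (fun b => (1 / 2 : ℝ) ^ (KE b \ U).card) (fun _ => by positivity) ?_).trans ?_
      · intro b hb
        obtain ⟨h3, h4⟩ := mem_filter.1 hb
        push Not at h4
        obtain ⟨b', h5, h6⟩ := h4
        obtain ⟨h7, h8⟩ := mem_filter.1 h3
        refine ⟨b', h5, mem_filter.2 ⟨(mem_filter.1 h7).1, ?_⟩⟩
        rcases h8 b' h5 with h9 | h9
        · omega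
        · exact h9
      · refine (sum_le_card_nsmul _ _ (9 * x ^ 8) fun b' hb' => h.near_sum W U hU hWx' b' (hsq b' hb')
          ((subset_biUnion_of_mem id hb').trans subset_union_right)).trans ?_
        rw [nsmul_eq_mul]
        refine mul_le_mul_of_nonneg_right ?_ (by positivity)
        exact_mod_cast hsp.le
  convert h2

theorem Reg.BB_le {n L q : ℕ} {x : ℝ} (h : Reg n L q x) :
    BB n q ∅ ∅ ≤ ff n q * ((q + 1) * (ff n q * EE n x 8 + EE n x 5)) := by
  nth_rewrite 1 [← sum_half_choose]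
  rw [sum_mul]
  refine sum_le_sum fun Q hQ => ?_
  simp only [wt_union_empty]
  rw [← mul_sum, wt_empty]
  refine mul_le_mul_of_nonneg_left ?_ (by positivity)
  refine h.pair_sum Q (mem_QS.1 hQ) _ (by omega) (by omega) fun Q' hQ' => ?_
  obtain ⟨h1, h2⟩ := mem_filter.1 hQ'
  unfold goodRel at h2
  exact ⟨mem_QS.1 h1, by omega, by omega⟩

end Pool.Agent.P.MP_8e94e3_co
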