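import Pool.Agent.P.MP_8e94e3_co.Count

set_option autoImplicit false
set_option linter.unusedSectionVars false

namespace Pool.Agent.P.MP_8e94e3_co

open Finset

def kk (μ : ℕ) : ℕ := 5 * (μ + 1)
def ll (μ : ℕ) : ℕ := 2 * kk μ
def DD (μ : ℕ) : ℕ := ll μ + ll μ * kk μ
def pp (μ : ℕ) : ℕ := 2 * μ + 3
def xx (μ L : ℕ) : ℕ := 256 * μ * (2 * L + 10) ^ 3

/-- the hypotheses on the parameters -/
structure Par (n μ L q : ℕ) (u : ℝ) : Prop where
  hμ : 8 ≤ μ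
  hu : 0 < u
  hun : u ^ μ = n
  hL1 : 2 ^ L ≤ n
  hL2 : n < 2 ^ (L + 1)
  hq : L ≤ q
  hF : (n : ℝ) ^ 2 * u ^ 8 ≤ ff n q
  hf : ff n (q + 1) * u ^ 8 ≤ (n : ℝ) ^ 2
  hbig : (2 : ℝ) ^ (4 * DD μ + 60) * (xx μ L : ℝ) ^ 9 ≤ u
  hL : 100 * μ ≤ L

namespace Par

variable {n μ L q : ℕ} {u : ℝ} (h : Par n μ L q u)
include h

lemma npos : 0 < n := lt_of_lt_of_le (by positivity) h.hL1

lemma npos' : (0 : ℝ) < n := by exact_mod_cast h.npos

lemma x_ge : 256 * μ * (2 * L + 10) ≤ xx μ L := by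
  unfold xx
  exact Nat.mul_le_mul_left _ (Nat.le_self_pow (by norm_num) _)

lemma x_ge' : 2 * L + 10 ≤ xx μ L := by
  have := h.x_ge; have := h.hμ; nlinarith

lemma x1 : (1 : ℝ) ≤ xx μ L := by
  have := h.x_ge'; exact_mod_cast (by omega : 1 ≤ xx μ L)

lemma big (a b : ℕ) (ha : a ≤ 4 * DD μ + 60) (hb : b ≤ 9) :
    (2 : ℝ) ^ a * (xx μ L : ℝ) ^ b ≤ u := by
  refine le_trans ?_ h.hbig
  have := h.x1
  gcongr
  norm_num

lemma u_ge : (2 : ℝ) ^ 60 ≤ u := by simpa using h.big 60 0 (by omega) (by omega)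

lemma u1 : (1 : ℝ) ≤ u := le_trans (by norm_num) h.u_ge

lemma u8 : u ^ 8 ≤ n := h.hun ▸ pow_le_pow_right₀ h.u1 h.hμ

lemma un : u ≤ n := (le_self_pow₀ h.u1 (by norm_num)).trans h.u8

lemma n1 : (1 : ℝ) ≤ n := h.u1.trans h.un

lemma F_ge : (n : ℝ) ^ 2 ≤ ff n q :=
  le_trans (le_mul_of_one_le_right (by positivity) (one_le_pow₀ h.u1)) h.hF

lemma f_le : ff n (q + 1) ≤ (n : ℝ) ^ 2 :=
  le_trans (le_mul_of_one_le_right (ff_nonneg _ _) (one_le_pow₀ h.u1)) h.hf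

lemma q_le : q ≤ 2 * L + 3 := by
  have h1 : (1 : ℝ) ≤ ff n q := (one_le_pow₀ h.n1).trans h.F_ge
  unfold ff at h1
  rw [one_le_div (by positivity)] at h1
  have h2 : 2 ^ q.choose 2 ≤ n.choose q := by exact_mod_cast h1
  have h3 : n.choose q ≤ 2 ^ ((L + 1) * q) := by
    rw [pow_mul]
    exact (Nat.choose_le_pow n q).trans (Nat.pow_le_pow_left h.hL2.le _)
  have h4 := (Nat.pow_le_pow_iff_right (by norm_num)).1 (h2.trans h3)
  have h5 := choose_two_add 0 q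
  simp only [zero_add] at h5
  by_contra hc
  have h6 : (2 * L + 4) * q ≤ q * q := Nat.mul_le_mul_right _ (by omega)
  have h7 : 0 < q := by omega
  simp at h5
  nlinarith

lemma r_le_x : ((q + 1 : ℕ) : ℝ) + 1 ≤ xx μ L := by
  have := h.x_ge'; have := h.q_le
  exact_mod_cast (by omega : q + 1 + 1 ≤ xx μ L)

lemma two_r : 2 * (q + 1) ≤ n := by
  have h1 := h.big 1 1 (by omega) (by omega)
  have h2 := h.r_le_x
  have h3 := h.un
  have : (2 : ℝ) * ((q + 1 : ℕ) : ℝ) ≤ n := by linarith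
  exact_mod_cast this

lemma sq_le : (n : ℝ) ^ 2 ≤ 64 * ((q + 1 : ℕ) : ℝ) ^ 2 * 2 ^ q := by
  set r := q + 1 with hr
  have hr0 : (0 : ℝ) < r := by positivity
  have h1 : ((n : ℝ) / (2 * r)) ^ r ≤ n.choose r := by
    refine le_trans ?_ (Nat.pow_le_choose r n)
    have h2 : (n : ℝ) / 2 ≤ ((n + 1 - r : ℕ) : ℝ) := by
      have h3 : n ≤ 2 * (n + 1 - r) := by have := h.two_r; omega
      have : (n : ℝ) ≤ 2 * ((n + 1 - r : ℕ) : ℝ) := by exact_mod_cast h3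
      linarith
    have h3 : (r.factorial : ℝ) ≤ (r : ℝ) ^ r := by exact_mod_cast Nat.factorial_le_pow r
    rw [← div_div, div_pow]
    push_cast
    gcongr
  have h2 : (n.choose r : ℝ) ≤ (2 ^ r) ^ 2 * 2 ^ r.choose 2 := by
    have h3 := h.f_le
    unfold ff at h3
    rw [div_le_iff₀ (by positivity)] at h3
    refine h3.trans ?_
    have h4 : (n : ℝ) ≤ 2 ^ r := by
      have := h.hL2.le.trans (Nat.pow_le_pow_right (by norm_num) (by have := h.hq; omega : L + 1 ≤ r))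
      exact_mod_cast this
    gcongr
  have h3 : (((n : ℝ) / (2 * r)) ^ 2) ^ r ≤ (16 * 2 ^ q) ^ r := by
    have h4 : r.choose 2 * 2 = q * r := by have := choose_two_succ q; rw [hr]; omega
    calc (((n : ℝ) / (2 * r)) ^ 2) ^ r = (((n : ℝ) / (2 * r)) ^ r) ^ 2 := by
          rw [← pow_mul, ← pow_mul, mul_comm 2 r]
      _ ≤ ((2 ^ r) ^ 2 * 2 ^ r.choose 2) ^ 2 := by gcongr; exact h1.trans h2
      _ = (16 * 2 ^ q) ^ r := by
          rw [mul_pow, ← pow_mul (2 : ℝ) (r.choose 2), h4, mul_pow, ← pow_mul, ← pow_mul,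
            ← pow_mul, show (16 : ℝ) = 2 ^ 4 by norm_num, ← pow_mul]
          ring
  have h4 := (pow_le_pow_iff_left₀ (by positivity) (by positivity) (by omega : r ≠ 0)).1 h3
  rw [div_pow, div_le_iff₀ (by positivity)] at h4
  linarith

lemma F_le : ff n q ≤ (n : ℝ) ^ 3 := by
  have hn := h.npos'
  have h1 : n.choose (q + 1) * (q + 1) = n.choose q * (n - q) := Nat.choose_succ_right_eq n q
  have h2 : n.choose q * n ≤ n.choose (q + 1) * (2 * (q + 1)) := by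
    have h3 : n ≤ 2 * (n - q) := by have := h.two_r; omega
    calc n.choose q * n ≤ n.choose q * (2 * (n - q)) := Nat.mul_le_mul_left _ h3
      _ = _ := by rw [mul_left_comm, ← h1]; ring
  have h3 : ff n q * n ≤ ff n (q + 1) * (2 * ((q + 1 : ℕ) : ℝ)) * 2 ^ q := by
    have h4 : (q + 1).choose 2 = q.choose 2 + q := by
      rw [Nat.choose_succ_succ' q 1, Nat.choose_one_right, add_comm]
    have h5 : (n.choose q : ℝ) * n ≤ n.choose (q + 1) * (2 * ((q + 1 : ℕ) : ℝ)) := by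
      exact_mod_cast h2
    unfold ff
    rw [h4, pow_add]
    calc (n.choose q : ℝ) / 2 ^ q.choose 2 * n = (n.choose q * n) / 2 ^ q.choose 2 := by ring
      _ ≤ (n.choose (q + 1) * (2 * ((q + 1 : ℕ) : ℝ))) / 2 ^ q.choose 2 := by gcongr
      _ = _ := by field_simp
  have h4 : (2 : ℝ) ^ q ≤ 8 * n ^ 2 := by
    have h5 : (2 : ℝ) ^ L ≤ n := by exact_mod_cast h.hL1
    calc (2 : ℝ) ^ q ≤ 2 ^ (2 * L + 3) := pow_le_pow_right₀ (by norm_num) h.q_le
      _ = 8 * (2 ^ L) ^ 2 := by ring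
      _ ≤ _ := by gcongr
  have h5 : 16 * ((q + 1 : ℕ) : ℝ) ≤ u ^ 8 := by
    have := h.big 4 1 (by omega) (by omega)
    have := h.r_le_x
    have := le_self_pow₀ h.u1 (show 8 ≠ 0 by norm_num)
    linarith
  have h6 := ff_nonneg n (q + 1)
  have h7 : ff n q * n ≤ n ^ 3 * n := by
    calc ff n q * n ≤ ff n (q + 1) * (2 * ((q + 1 : ℕ) : ℝ)) * (8 * n ^ 2) :=
          h3.trans (by gcongr)
      _ = ff n (q + 1) * (16 * ((q + 1 : ℕ) : ℝ)) * n ^ 2 := by ring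
      _ ≤ ff n (q + 1) * u ^ 8 * n ^ 2 := by gcongr
      _ ≤ n ^ 2 * n ^ 2 := by gcongr; exact h.hf
      _ = _ := by ring
  exact le_of_mul_le_mul_right h7 hn

lemma reg (t : ℕ) (h1 : q ≤ t) (h2 : t ≤ q + 1) : Reg n L t (xx μ L) where
  hL := h.hL1
  h2t := by have := h.two_r; omega
  hLt := h.hq.trans h1
  htL := by have := h.q_le; omega
  hx1 := h.x1
  hxt := by
    have h3 : t ≤ 2 * L + 10 := by have := h.q_le; omega
    have h4 : 2 * t * t ≤ xx μ L := by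
      unfold xx
      have := h.hμ
      calc 2 * t * t ≤ 2 * (2 * L + 10) * (2 * L + 10) := by gcongr
        _ = 2 * 1 * (2 * L + 10) ^ 2 := by ring
        _ ≤ 256 * μ * (2 * L + 10) ^ 3 := by gcongr <;> omega
    exact_mod_cast h4
  hx2 := by
    have h3 : q + 1 ≤ 2 * L + 10 := by have := h.q_le; omega
    have h4 : t * (64 * (q + 1) ^ 2) ≤ xx μ L := by
      unfold xx
      have := h.hμ
      calc t * (64 * (q + 1) ^ 2) ≤ (2 * L + 10) * (64 * (2 * L + 10) ^ 2) := by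
            gcongr; omega
        _ = 64 * 1 * (2 * L + 10) ^ 3 := by ring
        _ ≤ 256 * μ * (2 * L + 10) ^ 3 := by gcongr <;> omega
    have h5 : (t : ℝ) * (64 * ((q + 1 : ℕ) : ℝ) ^ 2) ≤ xx μ L := by exact_mod_cast h4
    calc (t : ℝ) * n ^ 2 ≤ t * (64 * ((q + 1 : ℕ) : ℝ) ^ 2 * 2 ^ q) := by gcongr; exact h.sq_le
      _ = t * (64 * ((q + 1 : ℕ) : ℝ) ^ 2) * 2 ^ q := by ring
      _ ≤ xx μ L * 2 ^ t := by gcongr; norm_num
  hxn := by
    have := h.big 13 2 (by omega) (by omega)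
    have := h.un
    linarith

lemma x_maker : 2 * q * (3 + pp μ * q : ℝ) ≤ xx μ L := by
  have h3 : q ≤ 2 * L + 10 := by have := h.q_le; omega
  have h4 : 2 * q * (3 + pp μ * q) ≤ xx μ L := by
    unfold xx pp
    have := h.hμ
    calc 2 * q * (3 + (2 * μ + 3) * q)
        ≤ 2 * (2 * L + 10) * ((2 * L + 10) + (2 * μ + 3) * (2 * L + 10)) := by gcongr; omega
      _ = (4 * μ + 8) * (2 * L + 10) ^ 2 := by ring
      _ ≤ 256 * μ * (2 * L + 10) ^ 3 := by gcongr <;> omega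
  exact_mod_cast h4

lemma x_breaker :
    2 * ((q + 1 : ℕ) : ℝ) * (((q + 1 : ℕ) : ℝ) * (((μ * (2 * L + 10) : ℕ) : ℝ) + 1)) ≤ xx μ L := by
  have h3 : q + 1 ≤ 2 * L + 10 := by have := h.q_le; omega
  have h4 : 2 * (q + 1) * ((q + 1) * (μ * (2 * L + 10) + 1)) ≤ xx μ L := by
    unfold xx
    have := h.hμ
    have h5 : 1 ≤ μ * (2 * L + 10) := Nat.mul_pos (by omega) (by omega)
    calc 2 * (q + 1) * ((q + 1) * (μ * (2 * L + 10) + 1))
        ≤ 2 * (2 * L + 10) * ((2 * L + 10) * (μ * (2 * L + 10) + μ * (2 * L + 10))) := by gcongr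
      _ = 4 * μ * (2 * L + 10) ^ 3 := by ring
      _ ≤ 256 * μ * (2 * L + 10) ^ 3 := by gcongr; omega
  exact_mod_cast h4

lemma L_le_x : (L : ℝ) + 1 ≤ xx μ L := by
  have := h.x_ge'; exact_mod_cast (by omega : L + 1 ≤ xx μ L)

lemma p_le_x : 4 * ((pp μ : ℝ) + 1) ≤ xx μ L := by
  have h1 := h.x_ge
  have h2 := h.hμ
  have : 4 * (pp μ + 1) ≤ xx μ L := by unfold pp; nlinarith
  exact_mod_cast this

lemma x_le_u : (xx μ L : ℝ) ≤ u := by simpa using h.big 0 1 (by omega) (by omega)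

end Par

end Pool.Agent.P.MP_8e94e3_co
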