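import Pool.Agent.P.MP_8e94e3_co.Main

set_option autoImplicit false

namespace Pool.Agent.P.MP_8e94e3_co

open Real

/-- the threshold scale for cliques of size `r` -/
noncomputable def NN (r : ℕ) : ℝ := √2 / exp 1 * r * √2 ^ r

lemma NN_eq {r : ℕ} (hr : 0 < r) : NN r = 2 * bb r / exp 1 := by
  obtain ⟨k, rfl⟩ : ∃ k, r = k + 1 := ⟨r - 1, by omega⟩
  have h : √2 * √2 = 2 := Real.mul_self_sqrt zero_le_two
  rw [NN, bb, Nat.add_sub_cancel, pow_succ]
  field_simp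
  rw [sq, h]

lemma bb_pos {r : ℕ} (hr : 0 < r) : 0 < bb r :=
  lt_of_lt_of_le (by exact_mod_cast hr) (le_bb r)

lemma bb_sq {r : ℕ} (hr : 0 < r) : 2 * bb r ^ 2 = (r : ℝ) ^ 2 * 2 ^ r := by
  obtain ⟨k, rfl⟩ : ∃ k, r = k + 1 := ⟨r - 1, by omega⟩
  rw [bb, Nat.add_sub_cancel, mul_pow, ← pow_mul, mul_comm k 2, pow_mul,
    Real.sq_sqrt zero_le_two, pow_succ (2 : ℝ) k]
  ring

lemma factorial_le_st {r : ℕ} (hr : 0 < r) :
    (r.factorial : ℝ) ≤ exp 1 * r * (r / exp 1) ^ r := by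
  obtain ⟨k, rfl⟩ : ∃ k, r = k + 1 := ⟨r - 1, by omega⟩
  have h1 : Stirling.stirlingSeq (k + 1) ≤ Stirling.stirlingSeq 1 :=
    Stirling.stirlingSeq'_antitone (Nat.zero_le k)
  rw [Stirling.stirlingSeq_one, Stirling.stirlingSeq] at h1
  have h0 : (1 : ℝ) ≤ ((k + 1 : ℕ) : ℝ) := by exact_mod_cast hr
  generalize ((k + 1 : ℕ) : ℝ) = x at h1 h0 ⊢
  have he := exp_pos 1
  rw [div_le_iff₀ (by positivity)] at h1
  refine h1.trans ?_
  have h2 : √(2 * x) ≤ √2 * x := by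
    rw [Real.sqrt_mul zero_le_two]
    gcongr
    exact Real.sqrt_le_iff.2 ⟨by linarith, by nlinarith⟩
  calc exp 1 / √2 * (√(2 * x) * (x / exp 1) ^ (k + 1))
      ≤ exp 1 / √2 * (√2 * x * (x / exp 1) ^ (k + 1)) := by gcongr
    _ = _ := by field_simp

lemma ff_le_pow {n r : ℕ} (hr : 0 < r) : ff n r ≤ (2 * (n / NN r)) ^ r := by
  have h0 : (0 : ℝ) < r := by exact_mod_cast hr
  have he := exp_pos 1
  have h3 : (n.choose r : ℝ) ≤ (n : ℝ) ^ r / r.factorial := Nat.choose_le_pow_div r n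
  have h4 : (r : ℝ) ^ r / r.factorial ≤ exp 1 ^ r := by
    refine (Real.pow_div_factorial_le_exp r h0.le r).trans ?_
    rw [← Real.exp_one_pow]
  have h5 : (n.choose r : ℝ) ≤ (exp 1 * n / r) ^ r := by
    refine h3.trans ?_
    calc (n : ℝ) ^ r / r.factorial = (n / r) ^ r * ((r : ℝ) ^ r / r.factorial) := by
          rw [div_pow]; field_simp
      _ ≤ (n / r) ^ r * exp 1 ^ r := by gcongr
      _ = _ := by rw [← mul_pow]; congr 1; ring
  rw [ff, two_pow_choose, div_le_iff₀ (by positivity), ← mul_pow]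
  refine h5.trans (le_of_eq ?_)
  rw [NN_eq hr, bb]
  congr 1
  field_simp

lemma pow_le_ff {n r : ℕ} (hr : 0 < r) (hn : 2 * r ^ 2 ≤ n) :
    (2 * (n / NN r)) ^ r ≤ 2 * exp 1 * r * ff n r := by
  have h0 : (1 : ℝ) ≤ r := by exact_mod_cast hr
  have he := exp_pos 1
  have hn' : 2 * (r : ℝ) ^ 2 ≤ n := by exact_mod_cast hn
  have n0 : (0 : ℝ) < n := by nlinarith
  have hrn : r ≤ n := by nlinarith
  have h3 : ((n + 1 - r : ℕ) : ℝ) ^ r / r.factorial ≤ n.choose r := Nat.pow_le_choose r n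
  have h4 : (n : ℝ) * (1 + -(r / n)) ≤ (n + 1 - r : ℕ) := by
    rw [Nat.cast_sub (by omega)]
    push_cast
    have : (n : ℝ) * (1 + -(r / n)) = n - r := by field_simp; ring
    linarith
  have hrn' : (r : ℝ) / n ≤ 1 := by rw [div_le_one n0]; exact_mod_cast hrn
  have h5 : (1 : ℝ) / 2 ≤ (1 + -((r : ℝ) / n)) ^ r := by
    refine le_trans ?_ (one_add_mul_le_pow (by linarith) r)
    have : (r : ℝ) * (r / n) ≤ 1 / 2 := by
      rw [← mul_div_assoc, div_le_iff₀ n0]; nlinarith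
    linarith
  have h6 : (n : ℝ) ^ r ≤ 2 * ((n + 1 - r : ℕ) : ℝ) ^ r := by
    have := pow_le_pow_left₀ (mul_nonneg n0.le (by linarith)) h4 r
    rw [mul_pow] at this
    have h7 := mul_le_mul_of_nonneg_left h5 (pow_pos n0 r).le
    linarith
  have hf : (0 : ℝ) < r.factorial := by positivity
  rw [div_le_iff₀ hf] at h3
  have h7 : (n : ℝ) ^ r ≤ 2 * (n.choose r * (exp 1 * r * (r / exp 1) ^ r)) := by
    have := mul_le_mul_of_nonneg_left (factorial_le_st hr) (Nat.cast_nonneg (α := ℝ) (n.choose r))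
    linarith
  have h8 : (2 * (n / NN r)) ^ r * (2 : ℝ) ^ r.choose 2 * (r / exp 1) ^ r = (n : ℝ) ^ r := by
    rw [two_pow_choose, ← mul_pow, ← mul_pow, NN_eq hr, bb]
    congr 1
    field_simp
  have h9 : (0 : ℝ) < ((r : ℝ) / exp 1) ^ r := by positivity
  rw [ff, ← mul_div_assoc (2 * exp 1 * r), le_div_iff₀ (by positivity)]
  refine le_of_mul_le_mul_right ?_ h9
  rw [h8]
  linarith

lemma sq_eq_NN {n r : ℕ} (hr : 2 ≤ r) :
    exp 1 ^ 2 * (n : ℝ) ^ 2 * (n / NN r) ^ (r - 2) = 2 * (r : ℝ) ^ 2 * (2 * (n / NN r)) ^ r := by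
  have h0 : 0 < r := by omega
  have hb := bb_pos h0
  have he := exp_pos 1
  have h1 : exp 1 ^ 2 * (n : ℝ) ^ 2 = (n / NN r) ^ 2 * (2 * (2 * bb r ^ 2)) := by
    rw [NN_eq h0]; field_simp
  obtain ⟨k, rfl⟩ : ∃ k, r = k + 2 := ⟨r - 2, by omega⟩
  rw [h1, bb_sq h0, Nat.add_sub_cancel, mul_pow]
  ring

lemma two_mul_sq_le {L : ℕ} (hL : 24 ≤ L) : 2 * (2 * L + 3) ^ 2 ≤ 2 ^ L := by
  induction L, hL using Nat.le_induction with
  | base => norm_num
  | succ L hL ih => rw [pow_succ 2 L]; nlinarith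

lemma Win.le_log {μ r n L : ℕ} (hμ : 8 ≤ μ) (h : Win μ r n) (hL : n < 2 ^ (L + 1)) :
    r ≤ 2 * L + 3 := by
  have h1 := (h.bounds hμ).1
  have h4 : 4 ≤ r := h.2.1
  have h2 := bb_sq (show 0 < r by omega)
  have hb := bb_pos (show 0 < r by omega)
  have r4 : (4 : ℝ) ≤ r := by exact_mod_cast h4
  have hn : (n : ℝ) ≤ 2 ^ (L + 1) := by exact_mod_cast hL.le
  have h3 : bb r ^ 2 ≤ (3 * 2 ^ (L + 1)) ^ 2 := by gcongr; linarith
  have h5 : (16 : ℝ) * 2 ^ r ≤ (r : ℝ) ^ 2 * 2 ^ r := by gcongr; nlinarith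
  have h6 : (2 : ℝ) ^ (2 * L + 3) = 2 * (2 ^ (L + 1)) ^ 2 := by ring
  have h7 : (2 : ℝ) ^ r ≤ 2 ^ (2 * L + 3) := by
    rw [h6]
    have : (0 : ℝ) < (2 ^ (L + 1)) ^ 2 := by positivity
    nlinarith
  exact (pow_le_pow_iff_right₀ one_lt_two).1 h7

lemma Win.close {μ r n : ℕ} (hμ : 8 ≤ μ) (h : Win μ r n) (h1 : 400 * μ ^ 3 ≤ r)
    (h2 : 2 * r ^ 2 ≤ n) : |n / NN r - 1| ≤ 264 / μ := by
  have hb := (h.bounds hμ).2
  obtain ⟨n0, r4, c1, c2, c3⟩ := h
  have r0 : 0 < r := by omega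
  have r4' : (4 : ℝ) ≤ r := by exact_mod_cast r4
  have m8 : (8 : ℝ) ≤ μ := by exact_mod_cast hμ
  have n0' : (0 : ℝ) < n := by exact_mod_cast n0
  have he := exp_pos 1
  have e1 := Real.exp_one_lt_d9
  have e2 := Real.exp_one_gt_d9
  have l2 := Real.log_two_lt_d9
  have hbp := bb_pos r0
  have hN : 0 < NN r := by rw [NN_eq r0]; positivity
  have key := sq_eq_NN (n := n) (show 2 ≤ r by omega)
  have up := ff_le_pow (n := n) r0
  have lo := pow_le_ff r0 h2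
  have t22 : n / NN r ≤ 22 := by
    rw [div_le_iff₀ hN, NN_eq r0, ← mul_div_assoc, le_div_iff₀ he]
    nlinarith
  have t0 : 0 < n / NN r := by positivity
  generalize (n : ℝ) / NN r = t at key up lo t22 t0
  have c1' : (n : ℝ) ^ 8 ≤ 2 ^ (8 * r) := by
    rw [mul_comm, pow_mul]
    gcongr
    exact_mod_cast c1
  have hr2 : (r : ℝ) / 2 ≤ ((r - 2 : ℕ) : ℝ) := by
    rw [Nat.cast_sub (by omega)]; push_cast; linarith
  have tp : 0 < t ^ (r - 2) := by positivity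
  have np : 0 < (n : ℝ) ^ 2 := by positivity
  have npm : 0 < (n : ℝ) ^ (2 * μ) := by positivity
  have hff := ff_nonneg n r
  rw [le_div_iff₀ (by linarith)]
  rcases le_total t 1 with ht | ht
  · rw [abs_of_nonpos (by linarith)]
    have a1 : ff n r ≤ (n : ℝ) ^ 2 * t ^ (r - 2) := by
      refine up.trans ?_
      have a0 : 0 < (2 * t) ^ r := by positivity
      have a2 : exp 1 ^ 2 * (2 * t) ^ r ≤ 2 * (r : ℝ) ^ 2 * (2 * t) ^ r := by
        gcongr; nlinarith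
      refine le_of_mul_le_mul_left ?_ (pow_pos he 2)
      rw [← mul_assoc, key]
      exact a2
    have a3 : ff n r ^ μ ≤ (n : ℝ) ^ (2 * μ) * t ^ ((r - 2) * μ) := by
      rw [pow_mul, pow_mul, ← mul_pow]
      gcongr
    have a4 : 1 ≤ t ^ ((r - 2) * μ) * 2 ^ (8 * r) := by
      refine le_of_mul_le_mul_left ?_ npm
      rw [mul_one, ← mul_assoc]
      refine c2.le.trans ?_
      gcongr
    have a5 := Real.log_nonneg a4
    rw [Real.log_mul (by positivity) (by positivity), Real.log_pow, Real.log_pow] at a5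
    push_cast at a5
    have a6 := Real.log_le_sub_one_of_pos t0
    have a7 : ((r - 2 : ℕ) : ℝ) * μ * Real.log t ≤ r / 2 * μ * (t - 1) := by
      have b1 : ((r - 2 : ℕ) : ℝ) * μ * Real.log t ≤ ((r - 2 : ℕ) : ℝ) * μ * (t - 1) := by gcongr
      have b2 : 0 ≤ (((r - 2 : ℕ) : ℝ) - r / 2) * (μ * (1 - t)) :=
        mul_nonneg (by linarith) (mul_nonneg (by linarith) (by linarith))
      nlinarith
    have a8 : (r : ℝ) * (μ * (1 - t)) ≤ r * 12 := by nlinarith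
    have a9 := le_of_mul_le_mul_left a8 (by linarith)
    nlinarith
  · rw [abs_of_nonneg (by linarith)]
    have a1 : (n : ℝ) ^ 2 * t ^ (r - 2) ≤ 2 * (r : ℝ) ^ 3 * ff n r := by
      refine le_of_mul_le_mul_left ?_ (pow_pos he 2)
      rw [← mul_assoc, key]
      have b1 : 2 * (r : ℝ) ^ 2 * (2 * t) ^ r ≤ 2 * (r : ℝ) ^ 2 * (2 * exp 1 * r * ff n r) := by
        gcongr
      have b2 : 0 ≤ (exp 1 - 2) * (exp 1 * ((r : ℝ) ^ 3 * ff n r)) :=
        mul_nonneg (by linarith) (by positivity)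
      nlinarith
    have a3 : (n : ℝ) ^ (2 * μ) * t ^ ((r - 2) * μ) ≤ (2 * (r : ℝ) ^ 3) ^ μ * ff n r ^ μ := by
      rw [pow_mul, pow_mul, ← mul_pow, ← mul_pow]
      gcongr
    have a4 : t ^ ((r - 2) * μ) ≤ (2 * (r : ℝ) ^ 3) ^ μ * 2 ^ (8 * r) := by
      refine le_of_mul_le_mul_left (a3.trans ?_) npm
      rw [pow_add] at c3
      calc (2 * (r : ℝ) ^ 3) ^ μ * ff n r ^ μ
          ≤ (2 * (r : ℝ) ^ 3) ^ μ * ((n : ℝ) ^ (2 * μ) * 2 ^ (8 * r)) := by
            gcongr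
            exact c3.le.trans (by gcongr)
        _ = _ := by ring
    have a5 := Real.log_le_log (by positivity) a4
    rw [Real.log_mul (by positivity) (by positivity), Real.log_pow, Real.log_pow, Real.log_pow,
      Real.log_mul (by positivity) (by positivity), Real.log_pow] at a5
    push_cast at a5
    have w0 : 0 < √(r : ℝ) := Real.sqrt_pos.2 (by linarith)
    have w1 : √(r : ℝ) ^ 2 = r := Real.sq_sqrt (by linarith)
    have w2 : Real.log r = 2 * Real.log √(r : ℝ) := by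
      conv_lhs => rw [← w1]
      rw [Real.log_pow]; norm_num
    have w3 := Real.log_le_sub_one_of_pos w0
    have h1' : 400 * (μ : ℝ) ^ 3 ≤ r := by exact_mod_cast h1
    have w4 : 20 * (μ : ℝ) ≤ √(r : ℝ) := Real.le_sqrt_of_sq_le (by nlinarith)
    have w5 : (μ : ℝ) * (Real.log 2 + 3 * Real.log r) ≤ μ * (6 * √(r : ℝ)) := by
      gcongr; linarith
    have w6 : (μ : ℝ) * (6 * √(r : ℝ)) ≤ 3 / 10 * r := by nlinarith
    have lt0 := Real.log_nonneg ht
    have a7 : r / 2 * μ * Real.log t ≤ ((r - 2 : ℕ) : ℝ) * μ * Real.log t := by gcongr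
    have a8 : (r : ℝ) * (μ * Real.log t) ≤ r * 12 := by nlinarith
    have a9 := le_of_mul_le_mul_left a8 (by linarith)
    have b1 := Real.one_sub_inv_le_log_of_pos t0
    have b2 : t - 1 ≤ t * Real.log t := by
      have := mul_le_mul_of_nonneg_left b1 t0.le
      rwa [mul_sub, mul_one, mul_inv_cancel₀ t0.ne'] at this
    have b3 : t * Real.log t ≤ 22 * Real.log t := by gcongr
    nlinarith

lemma big_of_cube {μ L : ℕ} (hμ : 8 ≤ μ) (h1 : 400 * μ ^ 3 ≤ L) (h2 : L < 400 * (μ + 1) ^ 3) :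
    (2 ^ (4 * DD μ + 60) * xx μ L ^ 9) ^ μ ≤ 2 ^ L := by
  have m1 : μ ≤ 2 ^ μ := Nat.lt_two_pow_self.le
  have m2 : (μ + 1) ^ 3 ≤ (2 * μ) ^ 3 := by gcongr; omega
  have m3 : 1 ≤ μ ^ 3 := Nat.one_le_pow _ _ (by omega)
  have m4 : 2 * L + 10 ≤ 2 ^ (13 + μ * 3) := by
    have : μ ^ 3 ≤ (2 ^ μ) ^ 3 := by gcongr
    rw [pow_add, pow_mul]
    rw [mul_pow] at m2
    omega
  have m5 : xx μ L ≤ 2 ^ (8 + μ + (13 + μ * 3) * 3) := by
    rw [xx, pow_add, pow_add, pow_mul 2 (13 + μ * 3)]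
    gcongr
    norm_num
  calc (2 ^ (4 * DD μ + 60) * xx μ L ^ 9) ^ μ
      ≤ (2 ^ (4 * DD μ + 60) * (2 ^ (8 + μ + (13 + μ * 3) * 3)) ^ 9) ^ μ := by gcongr
    _ = 2 ^ ((4 * DD μ + 60 + (8 + μ + (13 + μ * 3) * 3) * 9) * μ) := by
        rw [← pow_mul, ← pow_add, ← pow_mul]
    _ ≤ 2 ^ L := by
        refine Nat.pow_le_pow_right two_pos (le_trans ?_ h1)
        have : 4 * DD μ + 60 + (8 + μ + (13 + μ * 3) * 3) * 9 ≤ 400 * μ ^ 2 := by
          unfold DD ll kk; nlinarith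
        calc _ ≤ 400 * μ ^ 2 * μ := by gcongr
          _ = _ := by ring

theorem bobWins_window' {n μ q : ℕ} (hn0 : 0 < n) (hμ : 8 ≤ μ) (h1 : 400 * μ ^ 3 ≤ Nat.log 2 n)
    (h2 : Nat.log 2 n < 400 * (μ + 1) ^ 3) (hq : Nat.log 2 n ≤ q)
    (h3 : (n : ℝ) ^ (2 * μ + 8) ≤ ff n q ^ μ)
    (h4 : ff n (q + 1) ^ μ * (n : ℝ) ^ 8 ≤ (n : ℝ) ^ (2 * μ)) : BobWins n := by
  have hn' : (0 : ℝ) < n := by exact_mod_cast hn0
  set u : ℝ := (n : ℝ) ^ ((μ : ℝ)⁻¹) with hu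
  have hμ0 : μ ≠ 0 := by omega
  have hun : u ^ μ = n := Real.rpow_inv_natCast_pow hn'.le hμ0
  have hu0 : 0 < u := Real.rpow_pos_of_pos hn' _
  have hL1 : 2 ^ Nat.log 2 n ≤ n := Nat.pow_log_le_self 2 hn0.ne'
  have hu8 : (u ^ 8) ^ μ = (n : ℝ) ^ 8 := by rw [← pow_mul, mul_comm, pow_mul, hun]
  refine Par.bobWins (μ := μ) (L := Nat.log 2 n) (q := q) (u := u)
    ⟨hμ, hu0, hun, hL1, Nat.lt_pow_succ_log_self (by norm_num) n, hq, ?_, ?_, ?_, ?_⟩
  · refine (pow_le_pow_iff_left₀ (by positivity) (ff_nonneg _ _) hμ0).1 ?_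
    rw [mul_pow, hu8, ← pow_mul, ← pow_add]; exact h3
  · refine (pow_le_pow_iff_left₀ (mul_nonneg (ff_nonneg _ _) (by positivity)) (by positivity)
      hμ0).1 ?_
    rw [mul_pow, hu8, ← pow_mul]; exact h4
  · refine (pow_le_pow_iff_left₀ (by positivity) hu0.le hμ0).1 ?_
    rw [hun]
    exact_mod_cast (big_of_cube hμ h1 h2).trans hL1
  · have := Nat.le_self_pow (three_ne_zero) μ
    omega

lemma cube_root (r : ℕ) : ((r : ℝ) ^ (1 / 3 : ℝ)) ^ 3 = r := by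
  rw [← Real.rpow_natCast, ← Real.rpow_mul (Nat.cast_nonneg r)]; norm_num

theorem thin_windows (n : ℕ)
    (h : ∀ r : ℕ, 1 ≤ r → 6000 / (r : ℝ) ^ (1 / 3 : ℝ) < |n / NN r - 1|) : BobWins n := by
  have h3 : n < 2 ^ (Nat.log 2 n + 1) := Nat.lt_pow_succ_log_self one_lt_two n
  have he := exp_pos 1
  have e1 := Real.exp_one_lt_d9
  have hL : 204800 ≤ Nat.log 2 n := by
    generalize Nat.log 2 n = L at h3
    have a1 := h (2 * L + 2) (by omega)
    have a2 : (n : ℝ) ≤ NN (2 * L + 2) := by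
      have b1 : √2 ^ (2 * L + 2) = 2 ^ (L + 1) := by
        rw [show 2 * L + 2 = 2 * (L + 1) by ring, pow_mul, Real.sq_sqrt zero_le_two]
      have b2 : (n : ℝ) ≤ 2 ^ (L + 1) := by exact_mod_cast h3.le
      have b3 : (1 : ℝ) ≤ √2 / exp 1 * ((2 * L + 2 : ℕ) : ℝ) := by
        rw [div_mul_eq_mul_div, one_le_div he]
        push_cast
        have b4 : (7 / 5 : ℝ) ≤ √2 := Real.le_sqrt_of_sq_le (by norm_num)
        have b5 : (0 : ℝ) ≤ L := Nat.cast_nonneg L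
        nlinarith
      rw [NN, b1]
      exact b2.trans (le_mul_of_one_le_left (by positivity) b3)
    have a0 : 0 < NN (2 * L + 2) := by
      rw [NN_eq (by omega)]; have := bb_pos (show 0 < 2 * L + 2 by omega); positivity
    have a3 : |n / NN (2 * L + 2) - 1| ≤ 1 := by
      have b1 : n / NN (2 * L + 2) ≤ 1 := (div_le_one a0).2 a2
      have b2 : 0 ≤ n / NN (2 * L + 2) := by positivity
      rw [abs_le]; constructor <;> linarith
    have a4 := a1.trans_le a3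
    rw [div_lt_one (by positivity)] at a4
    have a5 := pow_le_pow_left₀ (by norm_num) a4.le 3
    rw [cube_root] at a5
    have a6 : 6000 ^ 3 ≤ 2 * L + 2 := by exact_mod_cast a5
    omega
  have n0 : n ≠ 0 := by rintro rfl; simp at hL
  have h2 : 2 ^ Nat.log 2 n ≤ n := Nat.pow_log_le_self 2 n0
  have ex : ∃ m, Nat.log 2 n < 400 * (m + 1) ^ 3 :=
    ⟨Nat.log 2 n, by have := Nat.le_self_pow three_ne_zero (Nat.log 2 n + 1); omega⟩
  have m2 := Nat.find_spec ex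
  have m8 : 8 ≤ Nat.find ex := by
    by_contra hc
    have : (Nat.find ex + 1) ^ 3 ≤ 8 ^ 3 := by gcongr; omega
    omega
  have m1 : 400 * Nat.find ex ^ 3 ≤ Nat.log 2 n := by
    have := Nat.find_min ex (show Nat.find ex - 1 < Nat.find ex by omega)
    rw [Nat.sub_add_cancel (by omega)] at this
    omega
  generalize Nat.find ex = μ at m1 m2 m8
  by_contra hc
  obtain ⟨r, -, hw⟩ := exists_win (μ := μ) (n := n) m8
    ((Nat.pow_le_pow_right two_pos (by omega)).trans h2)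
    fun q hq c1 c2 => hc (bobWins_window' (by omega) m8 m1 m2 hq c1 c2)
  have r1 := hw.le_log m8 h3
  have r2 : Nat.log 2 n ≤ r := (Nat.pow_le_pow_iff_right one_lt_two).1 (h2.trans hw.2.2.1)
  have r3 : 2 * r ^ 2 ≤ n :=
    le_trans (by gcongr) ((two_mul_sq_le (show 24 ≤ Nat.log 2 n by omega)).trans h2)
  have r4 := (h r (by omega)).trans_le (hw.close m8 (m1.trans r2) r3)
  have r5 : r ≤ (22 * μ) ^ 3 := by
    have : (μ + 1) ^ 3 ≤ (2 * μ) ^ 3 := by gcongr; omega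
    rw [mul_pow] at this ⊢
    omega
  have r0 : (0 : ℝ) < r := by exact_mod_cast (show 0 < r by omega)
  have m0 : (0 : ℝ) < μ := by exact_mod_cast (show 0 < μ by omega)
  have r6 : (r : ℝ) ^ (1 / 3 : ℝ) ≤ 22 * μ := by
    refine le_of_pow_le_pow_left₀ three_ne_zero (by positivity) ?_
    rw [cube_root]
    exact_mod_cast r5
  rw [div_lt_div_iff₀ (by positivity) m0] at r4
  linarith

end Pool.Agent.P.MP_8e94e3_co
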