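import Pool.Agent.P.MP_8e94e3_co.Thin

set_option autoImplicit false

namespace Pool.Agent.P.MP_8e94e3_co

open Real Finset

lemma bb_mono : Monotone bb :=
  monotone_nat_of_le_succ fun r => by linarith [bb_succ r, bb_nonneg r, bb_nonneg (r + 1)]

lemma NN_le {r : ℕ} (hr : 0 < r) : NN r ≤ bb r ∧ 2 * bb r ≤ 3 * NN r := by
  have he := exp_pos 1
  have e1 := Real.exp_one_lt_d9
  have e2 := Real.exp_one_gt_d9
  have hb := bb_pos hr
  rw [NN_eq hr, div_le_iff₀ he, ← mul_div_assoc, le_div_iff₀ he]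
  constructor <;> nlinarith

lemma card_near {x η : ℝ} (hη : 0 ≤ η) (s : Finset ℕ) (hs : ∀ n ∈ s, |(n : ℝ) - x| ≤ η) :
    (s.card : ℝ) ≤ 2 * η + 1 := by
  rcases s.eq_empty_or_nonempty with rfl | hne
  · simp only [card_empty, Nat.cast_zero]
    positivity
  · have h1 := abs_le.1 (hs _ (s.min'_mem hne))
    have h3 := abs_le.1 (hs _ (s.max'_mem hne))
    have h5 : s.card ≤ s.max' hne + 1 - s.min' hne := by
      rw [← Nat.card_Icc]
      exact card_le_card fun n hn => mem_Icc.2 ⟨s.min'_le n hn, s.le_max' n hn⟩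
    have h6 : s.card + s.min' hne ≤ s.max' hne + 1 := by
      have := s.min'_le_max' hne
      omega
    have h7 : (s.card : ℝ) + s.min' hne ≤ s.max' hne + 1 := by exact_mod_cast h6
    linarith [h1.1, h3.2]

open Classical in
/-- the number of exceptions below `N`, cut at the clique size `R` -/
lemma count_le (P : ℕ → Prop) {C ε : ℝ} (hC : 1 ≤ C)
    (h : ∀ n : ℕ, (∀ r : ℕ, 1 ≤ r → C / (r : ℝ) ^ (1 / 3 : ℝ) < |n / NN r - 1|) → P n)
    {R : ℕ} (hR : 1 ≤ R) (hε : C / (R : ℝ) ^ (1 / 3 : ℝ) ≤ ε) (hε2 : ε ≤ 1 / 2) (N : ℕ) :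
    (((range N).filter fun n => ¬ P n).card : ℝ) ≤ 2 * ((1 + C) * bb R) + 1 + 36 * ε * N := by
  have R1 : (1 : ℝ) ≤ R := by exact_mod_cast hR
  have c1 : ∀ r : ℕ, 1 ≤ r → (1 : ℝ) ≤ (r : ℝ) ^ (1 / 3 : ℝ) := fun r hr =>
    Real.one_le_rpow (by exact_mod_cast hr) (by norm_num)
  have e0 : 0 ≤ ε := le_trans (by positivity) hε
  have e1 : 1 ≤ ε * R := by
    rw [div_le_iff₀ (by positivity)] at hε
    have : (R : ℝ) ^ (1 / 3 : ℝ) ≤ R := Real.rpow_le_self_of_one_le R1 (by norm_num)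
    nlinarith
  have bR := bb_nonneg R
  let w : ℕ → Finset ℕ := fun r => (range N).filter fun n => R ≤ r ∧ |(n : ℝ) - NN r| ≤ ε * bb r
  let S := (range (3 * N + 1)).filter fun r => bb r ≤ 3 * N
  let s0 : Finset ℕ := (range N).filter fun n : ℕ => |(n : ℝ) - 0| ≤ (1 + C) * bb R
  have s1 : (range N).filter (fun n => ¬ P n) ⊆ s0 ∪ S.biUnion w := fun n hn => by
    obtain ⟨k1, k2⟩ := mem_filter.1 hn
    obtain ⟨r, k3, k4⟩ : ∃ r : ℕ, 1 ≤ r ∧ |n / NN r - 1| ≤ C / (r : ℝ) ^ (1 / 3 : ℝ) := by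
      by_contra hc
      exact k2 (h n fun r hr => not_le.1 fun k => hc ⟨r, hr, k⟩)
    obtain ⟨b1, b2⟩ := NN_le (show 0 < r by omega)
    have b0 := bb_pos (show 0 < r by omega)
    have b3 : 0 < NN r := by linarith
    have k5 : |(n : ℝ) - NN r| ≤ C / (r : ℝ) ^ (1 / 3 : ℝ) * NN r := by
      have : (n : ℝ) - NN r = (n / NN r - 1) * NN r := by field_simp
      rw [this, abs_mul, abs_of_pos b3]
      gcongr
    have k7 : (n : ℝ) ≤ N := by exact_mod_cast (mem_range.1 k1).le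
    rcases lt_or_ge r R with k6 | k6
    · refine mem_union_left _ (mem_filter.2 ⟨k1, ?_⟩)
      have j1 : C / (r : ℝ) ^ (1 / 3 : ℝ) ≤ C := div_le_self (by linarith) (c1 r k3)
      have j2 := bb_mono k6.le
      have j3 := (abs_le.1 k5).2
      have j4 : C / (r : ℝ) ^ (1 / 3 : ℝ) * NN r ≤ C * bb R :=
        mul_le_mul j1 (b1.trans j2) b3.le (by linarith)
      rw [sub_zero, abs_of_nonneg (Nat.cast_nonneg n)]
      linarith
    · have j1 : C / (r : ℝ) ^ (1 / 3 : ℝ) ≤ ε := le_trans (by gcongr) hε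
      have j2 : |(n : ℝ) - NN r| ≤ ε * NN r := k5.trans (by gcongr)
      have j3 := (abs_le.1 j2).1
      have j4 : bb r ≤ 3 * N := by nlinarith
      have j5 : r ≤ 3 * N := by exact_mod_cast (le_bb r).trans j4
      exact mem_union_right _ (mem_biUnion.2 ⟨r, mem_filter.2 ⟨mem_range.2 (by omega), j4⟩,
        mem_filter.2 ⟨k1, k6, j2.trans (by gcongr)⟩⟩)
  have s2 : (((range N).filter fun n => ¬ P n).card : ℝ) ≤
      s0.card + ∑ r ∈ S, ((w r).card : ℝ) := by
    exact_mod_cast (card_le_card s1).trans ((card_union_le _ _).trans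
      (Nat.add_le_add_left card_biUnion_le _))
  have s3 : ∑ r ∈ S, ((w r).card : ℝ) ≤ 3 * ε * (4 * (3 * N)) := by
    have : ∀ r ∈ S, ((w r).card : ℝ) ≤ 3 * ε * bb r := fun r _ => by
      have b0 := bb_nonneg r
      rcases lt_or_ge r R with k | k
      · have : w r = ∅ := filter_eq_empty_iff.2 fun n _ hn => absurd hn.1 (by omega)
        rw [this, card_empty, Nat.cast_zero]
        positivity
      · have j1 := card_near (by positivity) (w r) fun n hn => (mem_filter.1 hn).2.2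
        have j2 : ε * R ≤ ε * bb r := by
          gcongr
          exact (le_bb R).trans (bb_mono k)
        linarith
    refine (sum_le_sum this).trans ?_
    rw [← mul_sum]
    exact mul_le_mul_of_nonneg_left (sum_bb_filter _ (by positivity) _) (by positivity)
  have s4 := card_near (by positivity) s0 fun n hn => (mem_filter.1 hn).2
  linarith

theorem density_of_thin (P : ℕ → Prop) (C : ℝ)
    (h : ∀ n : ℕ, (∀ r : ℕ, 1 ≤ r → C / (r : ℝ) ^ (1 / 3 : ℝ) < |n / NN r - 1|) → P n) :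
    Filter.Tendsto (fun N : ℕ => (({n | n < N ∧ P n} : Set ℕ).ncard : ℝ) / N) Filter.atTop
      (nhds 1) := by
  classical
  obtain ⟨D, hD1, hD⟩ : ∃ D : ℝ, 1 ≤ D ∧ C ≤ D := ⟨max 1 C, le_max_left _ _, le_max_right _ _⟩
  have h' : ∀ n : ℕ, (∀ r : ℕ, 1 ≤ r → D / (r : ℝ) ^ (1 / 3 : ℝ) < |n / NN r - 1|) → P n :=
    fun n k => h n fun r hr => lt_of_le_of_lt (by gcongr) (k r hr)
  have hc : ∀ N, ({n | n < N ∧ P n} : Set ℕ).ncard = ((range N).filter P).card := fun N => by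
    rw [← Set.ncard_coe_finset]
    congr 1
    ext n
    simp
  refine tendsto_order.2 ⟨fun a ha => ?_, fun a ha => Filter.Eventually.of_forall fun N => ?_⟩
  · obtain ⟨ε, e0, e1, e2⟩ : ∃ ε : ℝ, 0 < ε ∧ ε ≤ 1 / 2 ∧ 72 * ε ≤ 1 - a :=
      ⟨min (1 / 2) ((1 - a) / 72), lt_min (by norm_num) (by linarith), min_le_left _ _,
        by linarith [min_le_right (1 / 2 : ℝ) ((1 - a) / 72)]⟩
    obtain ⟨R, hR⟩ := exists_nat_ge (max 1 ((D / ε) ^ 3))
    have R1 : 1 ≤ R := by exact_mod_cast (le_max_left _ _).trans hR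
    have R2 : D / (R : ℝ) ^ (1 / 3 : ℝ) ≤ ε := by
      have : D / ε ≤ (R : ℝ) ^ (1 / 3 : ℝ) := by
        refine le_of_pow_le_pow_left₀ three_ne_zero (by positivity) ?_
        rw [cube_root]
        exact (le_max_right _ _).trans hR
      rw [div_le_iff₀ e0] at this
      rw [div_le_iff₀ (by positivity)]
      linarith
    obtain ⟨n3, h3⟩ := exists_nat_gt (2 * (2 * ((1 + D) * bb R) + 1) / (1 - a))
    refine Filter.eventually_atTop.2 ⟨n3 + 1, fun N hN => ?_⟩
    have N0 : (0 : ℝ) < N := by exact_mod_cast (show 0 < N by omega)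
    have N1 : 2 * (2 * ((1 + D) * bb R) + 1) < N * (1 - a) := by
      have : (n3 : ℝ) ≤ N := by exact_mod_cast (show n3 ≤ N by omega)
      rw [← div_lt_iff₀ (by linarith)]
      linarith
    have s3 := count_le P hD1 h' R1 R2 e1 N
    have s4 : (((range N).filter P).card : ℝ) + ((range N).filter fun n => ¬ P n).card = N := by
      rw [← Nat.cast_add, card_filter_add_card_filter_not, card_range]
    rw [hc, lt_div_iff₀ N0]
    nlinarith
  · refine lt_of_le_of_lt (div_le_one_of_le₀ ?_ (Nat.cast_nonneg N)) ha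
    rw [hc]
    exact_mod_cast (card_filter_le _ _).trans (card_range N).le

lemma pow_four_le (R : ℕ) : R ^ 4 ≤ 32 * 2 ^ R := by
  rcases lt_or_ge R 6 with h | h
  · interval_cases R <;> norm_num
  · induction R, h using Nat.le_induction with
    | base => norm_num
    | succ R hR ih =>
      have h1 : 6 * (R + 1) ≤ 7 * R := by omega
      have h2 := Nat.pow_le_pow_left h1 4
      rw [mul_pow, mul_pow] at h2
      rw [pow_succ 2 R]
      omega

open Classical in
theorem few_of_thin (P : ℕ → Prop) (C : ℝ)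
    (h : ∀ n : ℕ, (∀ r : ℕ, 1 ≤ r → C / (r : ℝ) ^ (1 / 3 : ℝ) < |n / NN r - 1|) → P n) :
    ∃ C' : ℝ, ∀ N : ℕ, 2 ≤ N →
      (({n | n < N ∧ ¬ P n} : Set ℕ).ncard : ℝ) ≤ C' * N / Real.log N ^ (1 / 3 : ℝ) := by
  obtain ⟨D, hD1, hD⟩ : ∃ D : ℝ, 1 ≤ D ∧ C ≤ D := ⟨max 1 C, le_max_left _ _, le_max_right _ _⟩
  have h' : ∀ n : ℕ, (∀ r : ℕ, 1 ≤ r → D / (r : ℝ) ^ (1 / 3 : ℝ) < |n / NN r - 1|) → P n :=
    fun n k => h n fun r hr => lt_of_le_of_lt (by gcongr) (k r hr)
  refine ⟨2 * (60 * D), fun N hN => ?_⟩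
  have hc : ({n | n < N ∧ ¬ P n} : Set ℕ).ncard = ((range N).filter fun n => ¬ P n).card := by
    rw [← Set.ncard_coe_finset]
    congr 1
    ext n
    simp
  have R1 : 1 ≤ Nat.log 2 N := Nat.le_log_of_pow_le one_lt_two hN
  have h2 : 2 ^ Nat.log 2 N ≤ N := Nat.pow_log_le_self 2 (by omega)
  have h3 : N < 2 ^ (Nat.log 2 N + 1) := Nat.lt_pow_succ_log_self one_lt_two N
  generalize Nat.log 2 N = R at R1 h2 h3
  have R1' : (1 : ℝ) ≤ R := by exact_mod_cast R1
  have N2 : (2 : ℝ) ≤ N := by exact_mod_cast hN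
  have h2' : (2 : ℝ) ^ R ≤ N := by exact_mod_cast h2
  have h3' : (N : ℝ) ≤ 2 ^ (R + 1) := by exact_mod_cast h3.le
  have l0 : 0 < Real.log N := Real.log_pos (by linarith)
  have y1 : (1 : ℝ) ≤ (R : ℝ) ^ (1 / 3 : ℝ) := Real.one_le_rpow R1' (by norm_num)
  have y2 : (R : ℝ) ^ (1 / 3 : ℝ) ≤ R := Real.rpow_le_self_of_one_le R1' (by norm_num)
  have y3 : Real.log N ^ (1 / 3 : ℝ) ≤ 2 * (R : ℝ) ^ (1 / 3 : ℝ) := by
    refine le_of_pow_le_pow_left₀ three_ne_zero (by positivity) ?_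
    rw [mul_pow, cube_root, ← Real.rpow_natCast, ← Real.rpow_mul l0.le]
    have a1 := Real.log_le_log (by linarith) h3'
    rw [Real.log_pow] at a1
    have a2 := Real.log_two_lt_d9
    push_cast at a1
    norm_num
    nlinarith
  have key : (((range N).filter fun n => ¬ P n).card : ℝ) * (R : ℝ) ^ (1 / 3 : ℝ) ≤ 60 * D * N := by
    rcases le_total (D / (R : ℝ) ^ (1 / 3 : ℝ)) (1 / 2) with k | k
    · have s3 := count_le P hD1 h' R1 le_rfl k N
      have b1 : bb R * R ≤ 4 * N := by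
        refine le_of_pow_le_pow_left₀ two_ne_zero (by positivity) ?_
        have b2 : (R : ℝ) ^ 4 ≤ 32 * N := by
          have : (R : ℝ) ^ 4 ≤ 32 * 2 ^ R := by exact_mod_cast pow_four_le R
          linarith
        have b3 : 2 * (bb R * R) ^ 2 = (R : ℝ) ^ 4 * 2 ^ R := by
          rw [mul_pow, ← mul_assoc 2, bb_sq R1]; ring
        have b4 : (R : ℝ) ^ 4 * 2 ^ R ≤ 32 * N * N :=
          mul_le_mul b2 h2' (by positivity) (by positivity)
        nlinarith
      have b3 : bb R * (R : ℝ) ^ (1 / 3 : ℝ) ≤ 4 * N :=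
        le_trans (mul_le_mul_of_nonneg_left y2 (bb_nonneg R)) b1
      have b4 : (R : ℝ) ≤ N := by
        exact_mod_cast (Nat.lt_two_pow_self.le.trans h2 : R ≤ N)
      have b5 := mul_le_mul_of_nonneg_right s3 (zero_le_one.trans y1)
      have b6 : 36 * (D / (R : ℝ) ^ (1 / 3 : ℝ)) * N * (R : ℝ) ^ (1 / 3 : ℝ) = 36 * D * N := by
        field_simp
      have b7 := mul_le_mul_of_nonneg_left b3 (show 0 ≤ 1 + D by linarith)
      nlinarith
    · rw [le_div_iff₀ (by linarith)] at k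
      have b1 : (((range N).filter fun n => ¬ P n).card : ℝ) ≤ N := by
        exact_mod_cast (card_filter_le _ _).trans (card_range N).le
      have b2 := mul_le_mul b1 (show (R : ℝ) ^ (1 / 3 : ℝ) ≤ 2 * D by linarith) (by linarith)
        (by linarith)
      nlinarith
  rw [hc, le_div_iff₀ (by positivity)]
  have := mul_le_mul_of_nonneg_left y3
    (Nat.cast_nonneg (α := ℝ) ((range N).filter fun n => ¬ P n).card)
  linarith

end Pool.Agent.P.MP_8e94e3_co
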